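import Pool.Agent.Queens.ParityStruct

set_option autoImplicit false

/-!
The parity case: all empty columns in one class mod 2 and all empty rows in one class mod 2.
Centred coordinates: columns and rows are the odd numbers of absolute value `< n`, `n` even.
-/

namespace Pool.Agent.Queens.Parity

open Finset

/-- A non-attacking configuration `T` on the centred `n × n` board, `n` even, such that all columns
and rows in the class `3` mod `4` are occupied and all squares `(x, y)` with both coordinates in the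
class `1` mod `4` are dominated. -/
structure Cfg (n : ℤ) (T : Finset (ℤ × ℤ)) : Prop where
  box : ∀ p ∈ T, |p.1| < n ∧ |p.2| < n
  inj1 : ∀ p ∈ T, ∀ q ∈ T, p.1 = q.1 → p = q
  inj2 : ∀ p ∈ T, ∀ q ∈ T, p.2 = q.2 → p = q
  injd : ∀ p ∈ T, ∀ q ∈ T, p.2 - p.1 = q.2 - q.1 → p = q
  injs : ∀ p ∈ T, ∀ q ∈ T, p.2 + p.1 = q.2 + q.1 → p = q
  dom : ∀ x y : ℤ, |x| < n → |y| < n → x % 4 = 1 → y % 4 = 1 →
      ∃ p ∈ T, p.1 = x ∨ p.2 = y ∨ p.2 - p.1 = y - x ∨ p.2 + p.1 = y + x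
  card_le : 2 * (T.card : ℤ) ≤ n + 2
  cols : ∀ x, |x| < n → x % 4 = 3 → ∃ p ∈ T, p.1 = x
  rows : ∀ y, |y| < n → y % 4 = 3 → ∃ p ∈ T, p.2 = y

theorem card_sdiff_add {α : Type*} [DecidableEq α] (A B : Finset α) :
    (A \ B).card + (A ∩ B).card = A.card := Finset.card_sdiff_add_card_inter A B

theorem sum_sdiff_add {α : Type*} [DecidableEq α] (A B : Finset α) (φ : α → ℤ) :
    ∑ x ∈ A \ B, φ x + ∑ x ∈ A ∩ B, φ x = ∑ x ∈ A, φ x := by
  rw [← sum_union (disjoint_sdiff_inter A B), sdiff_union_inter]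

/-- Pure arithmetic: the second moment equation determines `a` up to `O(1)`. -/
theorem arith_Q {a b K n N QD QS S : ℤ} (ha0 : 0 ≤ a) (haK : a ≤ K) (hb0 : 0 ≤ b) (hbK : b ≤ K)
    (hK : 1000 ≤ K) (hN : N = K + 1) (hn1 : 4 * K + 4 ≤ n) (hn2 : n ≤ 4 * K + 6)
    (he1 : a + b - K ≤ 12) (he2 : -12 ≤ a + b - K)
    (hQD : 3 * QD = 128 * a ^ 3 + 64 * a + 128 * b ^ 3 - 32 * b)
    (hQS : 3 * QS = 128 * (K - a) ^ 3 - 8 * (K - a) + 128 * (K - b) ^ 3 - 8 * (K - b))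
    (h1 : QD + QS ≤ 2 * S + 512 * K ^ 2) (h2 : 2 * S ≤ QD + QS + 64 * n ^ 2)
    (h3 : 2 * (32 * N ^ 3 - 2 * N) ≤ 3 * S) (h4 : 3 * S ≤ 2 * (32 * N ^ 3 - 2 * N) + 12 * n ^ 2) :
    |K ^ 2 - 6 * K * a + 6 * a ^ 2| ≤ 100 * K := by
  set e := a + b - K with he
  have hb : b = K - a + e := by rw [he]; ring
  have hn3 : n ^ 2 ≤ 25 * K ^ 2 := by nlinarith
  have hn0 : 0 ≤ n ^ 2 := sq_nonneg n
  set Q := K ^ 2 - 6 * K * a + 6 * a ^ 2 with hQ
  -- the cubic identity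
  have hid : 128 * (K * Q) = 3 * (QD + QS) - 128 * N ^ 3 - (64 * a - 32 * b - 8 * (K - a) - 8 * (K - b))
      + 128 * (3 * K ^ 2 + 3 * K + 1) - 384 * (e * (K * (K - 2 * a))) - 384 * (e ^ 2 * K) := by
    have : 3 * (QD + QS) = 3 * QD + 3 * QS := by ring
    rw [this, hQD, hQS, hN, hQ, hb]
    ring
  have hee : e ^ 2 ≤ 144 := by nlinarith
  have hee0 : 0 ≤ e ^ 2 := sq_nonneg e
  have t1 : |e * (K * (K - 2 * a))| ≤ 12 * (K * K) := by
    rw [abs_mul, abs_mul]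
    have u1 : |e| ≤ 12 := abs_le.mpr ⟨by linarith, he1⟩
    have u2 : |K| = K := abs_of_nonneg (by linarith)
    have u3 : |K - 2 * a| ≤ K := abs_le.mpr ⟨by linarith, by linarith⟩
    rw [u2]
    exact mul_le_mul u1 (mul_le_mul_of_nonneg_left u3 (by linarith))
      (mul_nonneg (by linarith) (abs_nonneg _)) (by norm_num)
  obtain ⟨t1a, t1b⟩ := abs_le.mp t1
  have t2 : e ^ 2 * K ≤ 144 * K := mul_le_mul_of_nonneg_right hee (by linarith)
  have t20 : 0 ≤ e ^ 2 * K := mul_nonneg hee0 (by linarith)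
  have hKK : 1000 * K ≤ K ^ 2 := by nlinarith
  have hKK2 : K * K = K ^ 2 := by ring
  rw [hKK2] at t1a t1b
  have hKpos : 0 < K := by linarith
  have hup : 128 * (K * Q) ≤ 12800 * K ^ 2 := by
    rw [hid]
    linarith
  have hlo : -(12800 * K ^ 2) ≤ 128 * (K * Q) := by
    rw [hid]
    linarith
  rw [abs_le]
  constructor
  · have h5 : K * (-(100 * K)) = -(100 * K ^ 2) := by ring
    have : K * (-(100 * K)) ≤ K * Q := by rw [h5]; linarith
    exact le_of_mul_le_mul_left this hKpos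
  · have h5 : K * (100 * K) = 100 * K ^ 2 := by ring
    have : K * Q ≤ K * (100 * K) := by rw [h5]; linarith
    exact le_of_mul_le_mul_left this hKpos

theorem arith_small {a K : ℤ} (hK : 1000000 ≤ K) (haK : 2 * a ≤ K)
    (hQ : |K ^ 2 - 6 * K * a + 6 * a ^ 2| ≤ 100 * K) : 10000 * a < 2114 * K ∧ 205 * K ≤ 1000 * a := by
  obtain ⟨h1, h2⟩ := abs_le.mp hQ
  constructor
  · by_contra hcon
    push Not at hcon
    -- Q ≤ -0.00026 K²
    have h3 : (10000 * a - 2114 * K) * (10000 * a - 2114 * K + 4228 * K - 10000 * K) ≤ 0 := by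
      apply mul_nonpos_of_nonneg_of_nonpos <;> linarith
    nlinarith
  · by_contra hcon
    push Not at hcon
    have h3 : 0 ≤ (205 * K - 1000 * a) * (1000 * K - 205 * K - 1000 * a) := by
      apply mul_nonneg <;> linarith
    nlinarith

theorem arith_final {M P K : ℤ} (hM : 26 * M ≤ 4 * K + 40) (hP : 2 * K - 18 ≤ P)
    (hM2 : 100000 ≤ M) (h : 16000 * M * P ≤ 207754 * (M * M + M) + 384000 * P) : False := by
  have h1 : 13 * M - 38 ≤ P := by linarith
  have h2 : (16000 * M - 384000) * (13 * M - 38) ≤ (16000 * M - 384000) * P :=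
    mul_le_mul_of_nonneg_left h1 (by linarith)
  nlinarith

/-- One family of lines (columns or rows): count of bad queens and second moment. -/
theorem line_facts {n : ℤ} {K : ℕ} (hK1 : 4 * (K : ℤ) + 4 ≤ n)
    {T : Finset (ℤ × ℤ)} (ℓ : ℤ × ℤ → ℤ) (hbox : ∀ p ∈ T, |ℓ p| < n)
    (hinj : ∀ p ∈ T, ∀ q ∈ T, ℓ p = ℓ q → p = q)
    (hcard : T.card ≤ 2 * (K + 1) + 2)
    (hex : ∀ x, |x| < n → x % 4 = 3 → ∃ p ∈ T, ℓ p = x) :
    2 * (K + 1) ≤ T.card ∧ (T.filter (fun p => ℓ p % 4 ≠ 3)).card ≤ 2 ∧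
      32 * ((K : ℤ) + 1) ^ 3 - 2 * ((K : ℤ) + 1) ≤ 3 * ∑ p ∈ T, (ℓ p) ^ 2 ∧
      3 * ∑ p ∈ T, (ℓ p) ^ 2 ≤ 32 * ((K : ℤ) + 1) ^ 3 - 2 * ((K : ℤ) + 1) + 6 * n ^ 2 := by
  classical
  set C := T.image ℓ with hC
  have cardC : C.card = T.card := card_image_of_injOn fun p hp q hq h => hinj p hp q hq h
  have boxN : ∀ x ∈ cls 4 3 (K + 1), |x| < n ∧ x % 4 = 3 := by
    intro x hx
    obtain ⟨j, h1, h2, h3⟩ := mem_cls.mp hx
    push_cast at h1 h2
    exact ⟨by rw [abs_lt]; omega, by omega⟩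
  have AC : cls 4 3 (K + 1) ⊆ C := by
    intro x hx
    obtain ⟨p, hp, h⟩ := hex x (boxN x hx).1 (boxN x hx).2
    exact mem_image.mpr ⟨p, hp, h⟩
  have card43 : (cls 4 3 (K + 1)).card = 2 * (K + 1) := card_cls (by norm_num) 3 (K + 1)
  have hm1 : 2 * (K + 1) ≤ T.card := by
    rw [← card43, ← cardC]
    exact card_le_card AC
  have dC : (C \ cls 4 3 (K + 1)).card ≤ 2 := by
    rw [card_sdiff_of_subset AC, card43, cardC]
    omega
  refine ⟨hm1, ?_, ?_⟩
  · refine le_trans ?_ dC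
    refine card_le_card_of_injOn ℓ ?_ ?_
    · intro p hp
      obtain ⟨h1, h2⟩ := mem_filter.mp (mem_coe.mp hp)
      rw [coe_sdiff]
      exact ⟨mem_coe.mpr (mem_image_of_mem _ h1), fun h => h2 (boxN _ (mem_coe.mp h)).2⟩
    · intro p hp q hq h
      exact hinj p (mem_filter.mp (mem_coe.mp hp)).1 q (mem_filter.mp (mem_coe.mp hq)).1 h
  · have e : ∑ p ∈ T, (ℓ p) ^ 2 = ∑ x ∈ C, x ^ 2 := by
      rw [hC, sum_image fun p hp q hq h => hinj p hp q hq h]
    have s1 := sum_sdiff_add C (cls 4 3 (K + 1)) (fun x => x ^ 2)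
    rw [inter_eq_right.mpr AC] at s1
    have q3 : 3 * ∑ x ∈ cls 4 3 (K + 1), x ^ 2
        = 32 * ((K : ℤ) + 1) ^ 3 - 2 * ((K : ℤ) + 1) := by
      rw [sumsq_cls (by norm_num)]
      push_cast
      ring
    have b4 := sumsq_le (C \ cls 4 3 (K + 1)) n fun x hx => by
      obtain ⟨p, hp, h⟩ := mem_image.mp (mem_sdiff.mp hx).1
      rw [← h]
      exact (hbox p hp).le
    have p4 := sumsq_nonneg (C \ cls 4 3 (K + 1))
    have c4 : ((C \ cls 4 3 (K + 1)).card : ℤ) * n ^ 2 ≤ 2 * n ^ 2 :=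
      mul_le_mul_of_nonneg_right (by exact_mod_cast dC) (sq_nonneg n)
    rw [e, ← s1]
    constructor <;> linarith

/-- A structured description of the configuration. -/
structure Str (n : ℤ) (K : ℕ) (T : Finset (ℤ × ℤ)) (a b : ℕ) (P : Finset (ℤ × ℤ)) : Prop where
  haK : a ≤ K
  hbK : b ≤ K
  he1 : (a : ℤ) + b - K ≤ 12
  he2 : -12 ≤ (a : ℤ) + b - K
  sub : P ⊆ T
  card : T.card ≤ P.card + 20
  typ : ∀ p ∈ P, p.1 % 4 = 3 ∧ p.2 % 4 = 3 ∧
    (((p.2 - p.1) % 8 = 0 ∧ (p.2 + p.1) % 8 = 6 ∧ |p.2 - p.1| ≤ 8 * a ∧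
        |p.2 + p.1| ≤ 8 * ((K : ℤ) - b)) ∨
      ((p.2 - p.1) % 8 = 4 ∧ (p.2 + p.1) % 8 = 2 ∧ |p.2 - p.1| ≤ 8 * b ∧
        |p.2 + p.1| ≤ 8 * ((K : ℤ) - a)))
  mom : ∃ QD QS : ℤ, 3 * QD = 128 * (a : ℤ) ^ 3 + 64 * a + 128 * (b : ℤ) ^ 3 - 32 * b ∧
    3 * QS = 128 * ((K : ℤ) - a) ^ 3 - 8 * ((K : ℤ) - a) + 128 * ((K : ℤ) - b) ^ 3
      - 8 * ((K : ℤ) - b) ∧
    QD + QS ≤ 2 * (∑ p ∈ T, p.1 ^ 2 + ∑ p ∈ T, p.2 ^ 2) + 512 * (K : ℤ) ^ 2 ∧
    2 * (∑ p ∈ T, p.1 ^ 2 + ∑ p ∈ T, p.2 ^ 2) ≤ QD + QS + 64 * n ^ 2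

theorem card_filter_class {T : Finset (ℤ × ℤ)} (ℓ : ℤ × ℤ → ℤ)
    (hinj : ∀ p ∈ T, ∀ q ∈ T, ℓ p = ℓ q → p = q) (c : ℤ) (A E : Finset ℤ)
    (hA : ∀ x ∈ T.image ℓ, x % 8 = c → x ∈ A ∨ x ∈ E) :
    (T.filter (fun p => ℓ p % 8 = c)).card ≤ A.card + E.card := by
  classical
  have h1 : (T.filter (fun p => ℓ p % 8 = c)).card ≤ (A ∪ E).card := by
    refine card_le_card_of_injOn ℓ ?_ ?_
    · intro p hp
      obtain ⟨h1, h2⟩ := mem_filter.mp (mem_coe.mp hp)
      exact mem_coe.mpr (mem_union.mpr (hA _ (mem_image_of_mem _ h1) h2))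
    · intro p hp q hq h
      exact hinj p (mem_filter.mp (mem_coe.mp hp)).1 q (mem_filter.mp (mem_coe.mp hq)).1 h
  exact h1.trans (card_union_le _ _)

theorem card_class_filter {T : Finset (ℤ × ℤ)} (ℓ : ℤ × ℤ → ℤ) (c : ℤ) (A : Finset ℤ)
    (hA : ∀ x ∈ A, x % 8 = c) :
    A.card ≤ (A \ T.image ℓ).card + (T.filter (fun p => ℓ p % 8 = c)).card := by
  classical
  have h1 := card_sdiff_add A (T.image ℓ)
  have h2 : (A ∩ T.image ℓ) ⊆ (T.filter (fun p => ℓ p % 8 = c)).image ℓ := by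
    intro x hx
    obtain ⟨hx1, hx2⟩ := mem_inter.mp hx
    obtain ⟨p, hp, h⟩ := mem_image.mp hx2
    refine mem_image.mpr ⟨p, mem_filter.mpr ⟨hp, ?_⟩, h⟩
    rw [h]
    exact hA x hx1
  have h3 := (card_le_card h2).trans card_image_le
  omega

theorem arith_moment {SD SS QD QS n K x1 x2 x3 y c1 c2 c3 : ℤ}
    (sd1 : x1 + QD = SD) (ss1 : x2 + y = SS) (ss2 : x3 + y = QS)
    (p1 : 0 ≤ x1) (p2 : 0 ≤ x2) (p3 : 0 ≤ x3)
    (b1 : x1 ≤ c1 * (2 * n) ^ 2) (b2 : x2 ≤ c2 * (2 * n) ^ 2) (b3 : x3 ≤ c3 * (8 * K) ^ 2)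
    (hc : c1 + c2 ≤ 16) (hc3 : c3 ≤ 8) :
    QD + QS ≤ SD + SS + 512 * K ^ 2 ∧ SD + SS ≤ QD + QS + 64 * n ^ 2 := by
  have h1 : (c1 + c2) * (4 * n ^ 2) ≤ 16 * (4 * n ^ 2) :=
    mul_le_mul_of_nonneg_right hc (by positivity)
  have h2 : c3 * (64 * K ^ 2) ≤ 8 * (64 * K ^ 2) :=
    mul_le_mul_of_nonneg_right hc3 (by positivity)
  have e1 : c1 * (2 * n) ^ 2 + c2 * (2 * n) ^ 2 = (c1 + c2) * (4 * n ^ 2) := by ring
  have e2 : c3 * (8 * K) ^ 2 = c3 * (64 * K ^ 2) := by ring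
  constructor <;> linarith

theorem exists_str {n : ℤ} {K : ℕ} (hK1 : 4 * (K : ℤ) + 4 ≤ n)
    {T : Finset (ℤ × ℤ)} (hC : Cfg n T)
    (hcard2 : T.card ≤ 2 * (K + 1) + 2)
    (hb1 : (T.filter (fun p => p.1 % 4 ≠ 3)).card ≤ 2)
    (hb2 : (T.filter (fun p => p.2 % 4 ≠ 3)).card ≤ 2) :
    ∃ a b P, Str n K T a b P := by
  classical
  have cB1 := hb1
  have cB2 := hb2
  set B1 := T.filter (fun p => p.1 % 4 ≠ 3) with hB1
  set B2 := T.filter (fun p => p.2 % 4 ≠ 3) with hB2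
  set m := T.card with hm
  set D := T.image (fun p => p.2 - p.1) with hD
  set S := T.image (fun p => p.2 + p.1) with hS
  have cardD : D.card = m := card_image_of_injOn fun p hp q hq h => hC.injd p hp q hq h
  have cardS : S.card = m := card_image_of_injOn fun p hp q hq h => hC.injs p hp q hq h
  obtain ⟨a, b, haK, hbK, haD, hbD, haS', hbS'⟩ : ∃ a b : ℕ, a ≤ K ∧ b ≤ K ∧
      cls 8 0 a ⊆ D ∧ cls 8 4 b ⊆ D ∧ ((cls 8 2 (K - a)) \ S).card ≤ 4 ∧
      ((cls 8 6 (K - b)) \ S).card ≤ 4 := by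
    have hcov : ∀ x y : ℤ, |x| < n → |y| < n → x % 4 = 1 → y % 4 = 1 →
        x ∉ B1.image Prod.fst → y ∉ B2.image Prod.snd → y - x ∈ D ∨ y + x ∈ S := by
      intro x y hx hy hx1 hy1 hxE hyE
      obtain ⟨p, hp, h | h | h | h⟩ := hC.dom x y hx hy hx1 hy1
      · exact absurd (mem_image.mpr ⟨p, mem_filter.mpr ⟨hp, by omega⟩, h⟩) hxE
      · exact absurd (mem_image.mpr ⟨p, mem_filter.mpr ⟨hp, by omega⟩, h⟩) hyE
      · exact Or.inl (mem_image.mpr ⟨p, hp, h⟩)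
      · exact Or.inr (mem_image.mpr ⟨p, hp, h⟩)
    have cEX : (B1.image Prod.fst).card ≤ 2 := card_image_le.trans cB1
    have cEY : (B2.image Prod.snd).card ≤ 2 := card_image_le.trans cB2
    have hK3 : 4 * (K : ℤ) + 3 < n := by omega
    obtain ⟨a, haK, haD, haS⟩ := bishop hK3 0 2 (Or.inl rfl) (by norm_num) D S _ _ hcov
    obtain ⟨b, hbK, hbD, hbS⟩ := bishop hK3 4 6 (Or.inr rfl) (by norm_num) D S _ _ hcov
    exact ⟨a, b, haK, hbK, haD, hbD, haS.trans (by omega), hbS.trans (by omega)⟩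
  set AD := cls 8 0 a ∪ cls 8 4 b with hAD
  set AS := cls 8 2 (K - a) ∪ cls 8 6 (K - b) with hAS
  have m0 : ∀ x ∈ cls 8 0 a, |x| ≤ 8 * a ∧ x % 8 = 0 := fun x h =>
    abs_le_of_mem_cls (by norm_num) (by norm_num) h
  have m4 : ∀ x ∈ cls 8 4 b, |x| ≤ 8 * b ∧ x % 8 = 4 := fun x h =>
    abs_le_of_mem_cls (by norm_num) (by norm_num) h
  have cast1 : ((K - a : ℕ) : ℤ) = (K : ℤ) - a := by push_cast [Nat.cast_sub haK]; ring
  have cast4 : ((K - b : ℕ) : ℤ) = (K : ℤ) - b := by push_cast [Nat.cast_sub hbK]; ring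
  have m2 : ∀ x ∈ cls 8 2 (K - a), |x| ≤ 8 * ((K : ℤ) - a) ∧ x % 8 = 2 := fun x h => by
    have := abs_le_of_mem_cls (c := 2) (by norm_num) (by norm_num) h
    rwa [cast1] at this
  have m6 : ∀ x ∈ cls 8 6 (K - b), |x| ≤ 8 * ((K : ℤ) - b) ∧ x % 8 = 6 := fun x h => by
    have := abs_le_of_mem_cls (c := 6) (by norm_num) (by norm_num) h
    rwa [cast4] at this
  have disjD : Disjoint (cls 8 0 a) (cls 8 4 b) := by
    rw [disjoint_left]
    intro x h1 h2
    have := (m0 x h1).2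
    rw [(m4 x h2).2] at this
    norm_num at this
  have disjS : Disjoint (cls 8 2 (K - a)) (cls 8 6 (K - b)) := by
    rw [disjoint_left]
    intro x h1 h2
    have := (m2 x h1).2
    rw [(m6 x h2).2] at this
    norm_num at this
  have cAD : AD.card = 2 * a + 2 * b := by
    rw [hAD, card_union_of_disjoint disjD, card_cls (by norm_num), card_cls (by norm_num)]
  have cAS : AS.card = 2 * (K - a) + 2 * (K - b) := by
    rw [hAS, card_union_of_disjoint disjS, card_cls (by norm_num), card_cls (by norm_num)]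
  have subD : AD ⊆ D := union_subset haD hbD
  have cASS : (AS \ S).card ≤ 8 := by
    rw [hAS, union_sdiff_distrib]
    exact (card_union_le _ _).trans (add_le_add haS' hbS')
  have cex : (D \ AD).card + (S \ AS).card ≤ 16 := by
    have h0 := card_sdiff_add D AD
    rw [inter_eq_right.mpr subD, cAD, cardD] at h0
    have h1 := card_sdiff_add S AS
    have h2 := card_sdiff_add AS S
    rw [inter_comm AS S, cAS] at h2
    rw [cardS] at h1
    clear_value D S AD AS B1 B2 m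
    omega
  -- relation between the two class sizes
  set T0 := T.filter (fun p => (p.2 - p.1) % 8 = 0) with hT0
  set T6 := T.filter (fun p => (p.2 + p.1) % 8 = 6) with hT6
  have c0a : 2 * a ≤ T0.card := by
    have h := card_class_filter (T := T) (fun p => p.2 - p.1) 0 (cls 8 0 a) fun x hx => (m0 x hx).2
    rw [card_cls (by norm_num), sdiff_eq_empty_iff_subset.mpr haD, card_empty, zero_add] at h
    exact h
  have c0b : T0.card ≤ 2 * a + (D \ AD).card := by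
    rw [← card_cls (show (8 : ℤ) ≠ 0 by norm_num) 0 a]
    refine card_filter_class (fun p => p.2 - p.1) hC.injd 0 (cls 8 0 a) (D \ AD) ?_
    intro x hx hx8
    by_cases hxA : x ∈ AD
    · left
      rcases mem_union.mp hxA with h' | h'
      · exact h'
      · exfalso
        have := (m4 x h').2
        rw [hx8] at this
        norm_num at this
    · right
      exact mem_sdiff.mpr ⟨hx, hxA⟩
  have c6a : 2 * (K - b) ≤ 4 + T6.card := by
    have h := card_class_filter (T := T) (fun p => p.2 + p.1) 6 (cls 8 6 (K - b))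
      fun x hx => (m6 x hx).2
    rw [card_cls (by norm_num)] at h
    exact h.trans (Nat.add_le_add_right hbS' _)
  have c6b : T6.card ≤ 2 * (K - b) + (S \ AS).card := by
    rw [← card_cls (show (8 : ℤ) ≠ 0 by norm_num) 6 (K - b)]
    refine card_filter_class (fun p => p.2 + p.1) hC.injs 6 (cls 8 6 (K - b)) (S \ AS) ?_
    intro x hx hx8
    by_cases hxA : x ∈ AS
    · left
      rcases mem_union.mp hxA with h' | h'
      · exfalso
        have := (m2 x h').2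
        rw [hx8] at this
        norm_num at this
      · exact h'
    · right
      exact mem_sdiff.mpr ⟨hx, hxA⟩
  have cB : (B1 ∪ B2).card ≤ 4 := (card_union_le B1 B2).trans (add_le_add cB1 cB2)
  have hmod : ∀ p : ℤ × ℤ, p.1 % 4 = 3 → p.2 % 4 = 3 →
      ((p.2 - p.1) % 8 = 0 ↔ (p.2 + p.1) % 8 = 6) := by
    intro p h1 h2
    clear_value D S AD AS B1 B2 m T0 T6
    constructor <;> intro h3 <;> omega
  have c06 : T0.card ≤ T6.card + 4 := by
    have : T0 ⊆ T6 ∪ (B1 ∪ B2) := by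
      intro p hp
      obtain ⟨h1, h2⟩ := mem_filter.mp hp
      by_cases g1 : p.1 % 4 = 3
      · by_cases g2 : p.2 % 4 = 3
        · exact mem_union_left _ (mem_filter.mpr ⟨h1, (hmod p g1 g2).mp h2⟩)
        · exact mem_union_right _ (mem_union_right _ (mem_filter.mpr ⟨h1, g2⟩))
      · exact mem_union_right _ (mem_union_left _ (mem_filter.mpr ⟨h1, g1⟩))
    exact (card_le_card this).trans ((card_union_le _ _).trans (Nat.add_le_add_left cB _))
  have c60 : T6.card ≤ T0.card + 4 := by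
    have : T6 ⊆ T0 ∪ (B1 ∪ B2) := by
      intro p hp
      obtain ⟨h1, h2⟩ := mem_filter.mp hp
      by_cases g1 : p.1 % 4 = 3
      · by_cases g2 : p.2 % 4 = 3
        · exact mem_union_left _ (mem_filter.mpr ⟨h1, (hmod p g1 g2).mpr h2⟩)
        · exact mem_union_right _ (mem_union_right _ (mem_filter.mpr ⟨h1, g2⟩))
      · exact mem_union_right _ (mem_union_left _ (mem_filter.mpr ⟨h1, g1⟩))
    exact (card_le_card this).trans ((card_union_le _ _).trans (Nat.add_le_add_left cB _))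
  have he1 : (a : ℤ) + b - K ≤ 12 := by
    clear_value D S AD AS B1 B2 m T0 T6
    omega
  have he2 : -12 ≤ (a : ℤ) + b - K := by
    clear_value D S AD AS B1 B2 m T0 T6
    omega
  refine ⟨a, b, T.filter (fun p => p.1 % 4 = 3 ∧ p.2 % 4 = 3 ∧ (p.2 - p.1) ∈ AD ∧
    (p.2 + p.1) ∈ AS), haK, hbK, he1, he2, filter_subset _ _, ?_, ?_, ?_⟩
  · -- number of structured queens
    set P := T.filter (fun p => p.1 % 4 = 3 ∧ p.2 % 4 = 3 ∧ (p.2 - p.1) ∈ AD ∧ (p.2 + p.1) ∈ AS)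
      with hP
    set F1 := T.filter (fun p => (p.2 - p.1) ∈ D \ AD) with hF1
    set F2 := T.filter (fun p => (p.2 + p.1) ∈ S \ AS) with hF2
    have hsub : T ⊆ (P ∪ (B1 ∪ B2)) ∪ (F1 ∪ F2) := by
      intro p hp
      have hd : p.2 - p.1 ∈ D := mem_image.mpr ⟨p, hp, rfl⟩
      have hs : p.2 + p.1 ∈ S := mem_image.mpr ⟨p, hp, rfl⟩
      by_cases g1 : p.1 % 4 = 3
      · by_cases g2 : p.2 % 4 = 3
        · by_cases g3 : p.2 - p.1 ∈ AD
          · by_cases g4 : p.2 + p.1 ∈ AS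
            · exact mem_union_left _ (mem_union_left _ (mem_filter.mpr ⟨hp, g1, g2, g3, g4⟩))
            · exact mem_union_right _ (mem_union_right _
                (mem_filter.mpr ⟨hp, mem_sdiff.mpr ⟨hs, g4⟩⟩))
          · exact mem_union_right _ (mem_union_left _
              (mem_filter.mpr ⟨hp, mem_sdiff.mpr ⟨hd, g3⟩⟩))
        · exact mem_union_left _ (mem_union_right _ (mem_union_right _
            (mem_filter.mpr ⟨hp, g2⟩)))
      · exact mem_union_left _ (mem_union_right _ (mem_union_left _ (mem_filter.mpr ⟨hp, g1⟩)))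
    have h1 := card_le_card hsub
    have h2 : F1.card ≤ (D \ AD).card :=
      card_le_card_of_injOn (fun p => p.2 - p.1) (fun p hp => (mem_filter.mp (mem_coe.mp hp)).2)
        (fun p hp q hq h => hC.injd p (mem_filter.mp (mem_coe.mp hp)).1 q
          (mem_filter.mp (mem_coe.mp hq)).1 h)
    have h3 : F2.card ≤ (S \ AS).card :=
      card_le_card_of_injOn (fun p => p.2 + p.1) (fun p hp => (mem_filter.mp (mem_coe.mp hp)).2)
        (fun p hp q hq h => hC.injs p (mem_filter.mp (mem_coe.mp hp)).1 q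
          (mem_filter.mp (mem_coe.mp hq)).1 h)
    have h4 := card_union_le (P ∪ (B1 ∪ B2)) (F1 ∪ F2)
    have h5 := card_union_le P (B1 ∪ B2)
    have h7 := card_union_le F1 F2
    clear_value D S AD AS B1 B2 m T0 T6 F1 F2 P
    omega
  · intro p hp
    obtain ⟨hpT, h1, h2, h3, h4⟩ := mem_filter.mp hp
    refine ⟨h1, h2, ?_⟩
    rcases mem_union.mp h3 with h3 | h3
    · left
      obtain ⟨u1, u2⟩ := m0 _ h3
      have v := (hmod p h1 h2).mp u2
      rcases mem_union.mp h4 with h4 | h4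
      · exfalso
        rw [(m2 _ h4).2] at v
        norm_num at v
      · exact ⟨u2, v, u1, (m6 _ h4).1⟩
    · right
      obtain ⟨u1, u2⟩ := m4 _ h3
      rcases mem_union.mp h4 with h4 | h4
      · exact ⟨u2, (m2 _ h4).2, u1, (m2 _ h4).1⟩
      · exfalso
        have v := (hmod p h1 h2).mpr (m6 _ h4).2
        rw [u2] at v
        norm_num at v
  · -- second moments
    have bigD : ∀ x ∈ D, |x| ≤ 2 * n := by
      intro x hx
      obtain ⟨p, hp, rfl⟩ := mem_image.mp hx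
      obtain ⟨h1, h2⟩ := hC.box p hp
      rw [abs_lt] at h1 h2
      rw [abs_le]
      constructor <;> linarith
    have bigS : ∀ x ∈ S, |x| ≤ 2 * n := by
      intro x hx
      obtain ⟨p, hp, rfl⟩ := mem_image.mp hx
      obtain ⟨h1, h2⟩ := hC.box p hp
      rw [abs_lt] at h1 h2
      rw [abs_le]
      constructor <;> linarith
    have smallAS : ∀ x ∈ AS, |x| ≤ 8 * K := by
      intro x hx
      rcases mem_union.mp hx with h | h
      · have := (m2 x h).1; linarith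
      · have := (m6 x h).1; linarith
    have par : ∑ p ∈ T, (p.2 - p.1) ^ 2 + ∑ p ∈ T, (p.2 + p.1) ^ 2
        = 2 * (∑ p ∈ T, p.1 ^ 2 + ∑ p ∈ T, p.2 ^ 2) := by
      rw [← sum_add_distrib, ← sum_add_distrib, mul_sum]
      refine sum_congr rfl fun p _ => ?_
      ring
    have eD : ∑ p ∈ T, (p.2 - p.1) ^ 2 = ∑ x ∈ D, x ^ 2 := by
      rw [hD, sum_image fun p hp q hq h => hC.injd p hp q hq h]
    have eS : ∑ p ∈ T, (p.2 + p.1) ^ 2 = ∑ x ∈ S, x ^ 2 := by
      rw [hS, sum_image fun p hp q hq h => hC.injs p hp q hq h]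
    refine ⟨∑ x ∈ AD, x ^ 2, ∑ x ∈ AS, x ^ 2, ?_, ?_, ?_⟩
    · rw [hAD, sum_union disjD, mul_add, sumsq_cls (by norm_num), sumsq_cls (by norm_num)]
      ring
    · rw [hAS, sum_union disjS, mul_add, sumsq_cls (by norm_num), sumsq_cls (by norm_num),
        cast1, cast4]
      ring
    · rw [← par, eD, eS]
      have sd1 := sum_sdiff_add D AD (fun x => x ^ 2)
      rw [inter_eq_right.mpr subD] at sd1
      have ss1 := sum_sdiff_add S AS (fun x => x ^ 2)
      have ss2 := sum_sdiff_add AS S (fun x => x ^ 2)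
      rw [inter_comm AS S] at ss2
      exact arith_moment sd1 ss1 ss2 (sumsq_nonneg _) (sumsq_nonneg _) (sumsq_nonneg _)
        (sumsq_le (D \ AD) (2 * n) fun x hx => bigD x (mem_sdiff.mp hx).1)
        (sumsq_le (S \ AS) (2 * n) fun x hx => bigS x (mem_sdiff.mp hx).1)
        (sumsq_le (AS \ S) (8 * K) fun x hx => smallAS x (mem_sdiff.mp hx).1)
        (by exact_mod_cast cex) (by exact_mod_cast cASS)

theorem no_cfg (n : ℤ) (hn : 5000000 ≤ n) (hev : n % 2 = 0) (T : Finset (ℤ × ℤ)) :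
    ¬ Cfg n T := by
  classical
  intro hC
  obtain ⟨K, hK1, hK2⟩ : ∃ K : ℕ, 4 * (K : ℤ) + 4 ≤ n ∧ n ≤ 4 * (K : ℤ) + 6 :=
    ⟨((n - 4) / 4).toNat, by omega, by omega⟩
  have hKbig : (1000000 : ℤ) ≤ K := by omega
  have hm2 : T.card ≤ 2 * (K + 1) + 2 := by have := hC.card_le; omega
  obtain ⟨hm1, hb1, hu1, hu2⟩ := line_facts hK1 Prod.fst (fun p hp => (hC.box p hp).1) hC.inj1
    hm2 hC.cols
  obtain ⟨-, hb2, hv1, hv2⟩ := line_facts hK1 Prod.snd (fun p hp => (hC.box p hp).2) hC.inj2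
    hm2 hC.rows
  obtain ⟨a, b, P, hS⟩ := exists_str hK1 hC hm2 hb1 hb2
  obtain ⟨QD, QS, q1, q2, q3, q4⟩ := hS.mom
  have haK := hS.haK
  have hbK := hS.hbK
  have he1 := hS.he1
  have he2 := hS.he2
  have hQ := arith_Q (a := a) (b := b) (K := K) (n := n) (N := K + 1) (QD := QD) (QS := QS)
    (S := ∑ p ∈ T, p.1 ^ 2 + ∑ p ∈ T, p.2 ^ 2) (by positivity) (by exact_mod_cast haK)
    (by positivity) (by exact_mod_cast hbK) (by linarith) rfl hK1 hK2 he1 he2 q1 q2 q3 q4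
    (by linarith) (by linarith)
  clear q1 q2 q3 q4 hu1 hu2 hv1 hv2 hb1 hb2
  obtain ⟨M, hM1, hM2⟩ : ∃ M : ℕ, n + 8 ≤ 26 * (M : ℤ) ∧ 26 * (M : ℤ) ≤ n + 34 :=
    ⟨((n + 8) / 26 + 1).toNat, by omega, by omega⟩
  have hMpos : 0 < M := by omega
  have hPT := hS.sub
  have hboxP : ∀ p ∈ P, |p.1| < n ∧ |p.2| < n ∧ p.1 % 4 = 3 ∧ p.2 % 4 = 3 := by
    intro p hp
    obtain ⟨h1, h2, _⟩ := hS.typ p hp
    exact ⟨(hC.box p (hPT hp)).1, (hC.box p (hPT hp)).2, h1, h2⟩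
  have hfin : 16000 * M * P.card ≤ 207754 * (M * M + M) + 384000 * P.card := by
    rcases le_total (2 * (a : ℤ)) K with hcase | hcase
    · -- the class of `a` is the small one
      obtain ⟨s1, s2⟩ := arith_small hKbig hcase hQ
      refine final_count n M hMpos hM1 P 4 2 0 6 hboxP
        (fun p hp q hq h => hC.inj1 p (hPT hp) q (hPT hq) h)
        (fun p hp q hq h => hC.inj2 p (hPT hp) q (hPT hq) h)
        (fun p hp q hq h => hC.injd p (hPT hp) q (hPT hq) h)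
        (fun p hp q hq h => hC.injs p (hPT hp) q (hPT hq) h) ?_
      intro p hp
      rcases (hS.typ p hp).2.2 with ⟨t1, t2, t3, t4⟩ | ⟨t1, t2, t3, t4⟩
      · right
        exact ⟨t1, t2, by linarith, by linarith⟩
      · left
        exact ⟨t1, t2, by linarith, by linarith⟩
    · -- the class of `a` is the big one
      have hQ' : |(K : ℤ) ^ 2 - 6 * K * ((K : ℤ) - a) + 6 * ((K : ℤ) - a) ^ 2| ≤ 100 * (K : ℤ) := by
        have e : (K : ℤ) ^ 2 - 6 * K * ((K : ℤ) - a) + 6 * ((K : ℤ) - a) ^ 2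
            = (K : ℤ) ^ 2 - 6 * K * a + 6 * (a : ℤ) ^ 2 := by ring
        rw [e]; exact hQ
      obtain ⟨s1, s2⟩ := arith_small hKbig (by linarith) hQ'
      refine final_count n M hMpos hM1 P 0 6 4 2 hboxP
        (fun p hp q hq h => hC.inj1 p (hPT hp) q (hPT hq) h)
        (fun p hp q hq h => hC.inj2 p (hPT hp) q (hPT hq) h)
        (fun p hp q hq h => hC.injd p (hPT hp) q (hPT hq) h)
        (fun p hp q hq h => hC.injs p (hPT hp) q (hPT hq) h) ?_
      intro p hp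
      rcases (hS.typ p hp).2.2 with ⟨t1, t2, t3, t4⟩ | ⟨t1, t2, t3, t4⟩
      · left
        exact ⟨t1, t2, by linarith, by linarith⟩
      · right
        exact ⟨t1, t2, by linarith, by linarith⟩
  have hcP := hS.card
  refine arith_final (M := M) (P := P.card) (K := K) (by linarith) (by omega) (by omega) ?_
  exact_mod_cast hfin

end Pool.Agent.Queens.Parity
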