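import Mathlib

set_option autoImplicit false

/-!
Cover systems: finite sets of integers `X`, `Y`, `D`, `S` such that every point of `X × Y` lies on a
diagonal with difference in `D` or on an antidiagonal with sum in `S`.
-/

namespace Pool.Agent.Queens

open Finset

/-- `(X, Y, D, S)` is a cover system. -/
def Cov (X Y D S : Finset ℤ) : Prop := ∀ x ∈ X, ∀ y ∈ Y, y - x ∈ D ∨ y + x ∈ S

/-- The slack is at most `k`. -/
def Slack (X Y D S : Finset ℤ) (k : ℕ) : Prop := D.card + S.card + 2 ≤ X.card + Y.card + k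

/-- Indicator function. -/
def ind (T : Finset ℤ) (z : ℤ) : ℤ := if z ∈ T then 1 else 0

theorem ind_of_mem {T : Finset ℤ} {z : ℤ} (h : z ∈ T) : ind T z = 1 := if_pos h

theorem ind_of_notMem {T : Finset ℤ} {z : ℤ} (h : z ∉ T) : ind T z = 0 := if_neg h

theorem ind_eq_one {T : Finset ℤ} {z : ℤ} : ind T z = 1 ↔ z ∈ T := by
  unfold ind; split_ifs with h <;> simp [h]

theorem ind_eq_zero {T : Finset ℤ} {z : ℤ} : ind T z = 0 ↔ z ∉ T := by
  unfold ind; split_ifs with h <;> simp [h]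

theorem ind_nonneg (T : Finset ℤ) (z : ℤ) : 0 ≤ ind T z := by
  unfold ind; split_ifs <;> simp

theorem ind_le_one (T : Finset ℤ) (z : ℤ) : ind T z ≤ 1 := by
  unfold ind; split_ifs <;> simp

/-- Reflection. -/
def nneg (T : Finset ℤ) : Finset ℤ := T.image fun z => -z

theorem mem_nneg {T : Finset ℤ} {z : ℤ} : z ∈ nneg T ↔ -z ∈ T := by
  unfold nneg
  rw [mem_image]
  constructor
  · rintro ⟨a, ha, rfl⟩; simpa using ha
  · intro h; exact ⟨-z, h, neg_neg z⟩

theorem card_nneg (T : Finset ℤ) : (nneg T).card = T.card :=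
  card_image_of_injective _ neg_injective

theorem nneg_nneg (T : Finset ℤ) : nneg (nneg T) = T := by
  ext z; rw [mem_nneg, mem_nneg, neg_neg]

theorem ind_nneg (T : Finset ℤ) (z : ℤ) : ind (nneg T) z = ind T (-z) := by
  unfold ind
  simp only [mem_nneg]

theorem Cov.reflX {X Y D S : Finset ℤ} (h : Cov X Y D S) : Cov (nneg X) Y S D := by
  intro x hx y hy
  rw [mem_nneg] at hx
  rcases h _ hx _ hy with h1 | h1
  · right; simpa using h1
  · left; simpa [sub_eq_add_neg] using h1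

theorem Cov.reflY {X Y D S : Finset ℤ} (h : Cov X Y D S) :
    Cov X (nneg Y) (nneg S) (nneg D) := by
  intro x hx y hy
  rw [mem_nneg] at hy
  rcases h _ hx _ hy with h1 | h1
  · right; rw [mem_nneg]; convert h1 using 1; ring
  · left; rw [mem_nneg]; convert h1 using 1; ring

theorem Cov.swap {X Y D S : Finset ℤ} (h : Cov X Y D S) : Cov Y X (nneg D) S := by
  intro y hy x hx
  rcases h _ hx _ hy with h1 | h1
  · left; rw [mem_nneg]; convert h1 using 1; ring
  · right; rwa [add_comm]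

theorem Slack.reflX {X Y D S : Finset ℤ} {k : ℕ} (h : Slack X Y D S k) :
    Slack (nneg X) Y S D k := by
  unfold Slack at *; rw [card_nneg]; omega

theorem Slack.reflY {X Y D S : Finset ℤ} {k : ℕ} (h : Slack X Y D S k) :
    Slack X (nneg Y) (nneg S) (nneg D) k := by
  unfold Slack at *; rw [card_nneg, card_nneg, card_nneg]; omega

theorem Slack.swap {X Y D S : Finset ℤ} {k : ℕ} (h : Slack X Y D S k) :
    Slack Y X (nneg D) S k := by
  unfold Slack at *; rw [card_nneg]; omega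

/-- The boundary of the box `[a, b] × [c, d]`. -/
noncomputable def bdry (a b c d : ℤ) : Finset (ℤ × ℤ) :=
  (Icc a b ×ˢ Icc c d).filter fun P => P.1 = a ∨ P.1 = b ∨ P.2 = c ∨ P.2 = d

theorem mem_bdry {a b c d : ℤ} {P : ℤ × ℤ} : P ∈ bdry a b c d ↔
    ((a ≤ P.1 ∧ P.1 ≤ b) ∧ c ≤ P.2 ∧ P.2 ≤ d) ∧ (P.1 = a ∨ P.1 = b ∨ P.2 = c ∨ P.2 = d) := by
  unfold bdry
  rw [mem_filter, mem_product, mem_Icc, mem_Icc]

theorem bdry_diag (a b c d e : ℤ) :
    ((bdry a b c d).filter fun P => P.2 - P.1 = e).card ≤ 2 := by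
  have hsub : ((bdry a b c d).filter fun P => P.2 - P.1 = e) ⊆
      {(max a (c - e), max a (c - e) + e), (min b (d - e), min b (d - e) + e)} := by
    rintro ⟨x, y⟩ hP
    rw [mem_filter, mem_bdry] at hP
    simp only [mem_insert, mem_singleton, Prod.mk.injEq]
    obtain ⟨⟨⟨⟨h1, h2⟩, h3, h4⟩, h5⟩, h6⟩ := hP
    simp only at h1 h2 h3 h4 h5 h6
    rcases h5 with h5 | h5 | h5 | h5
    · left; constructor <;> omega
    · right; constructor <;> omega
    · left; constructor <;> omega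
    · right; constructor <;> omega
  exact (card_le_card hsub).trans card_le_two

theorem bdry_anti (a b c d e : ℤ) :
    ((bdry a b c d).filter fun P => P.2 + P.1 = e).card ≤ 2 := by
  have hsub : ((bdry a b c d).filter fun P => P.2 + P.1 = e) ⊆
      {(max a (e - d), e - max a (e - d)), (min b (e - c), e - min b (e - c))} := by
    rintro ⟨x, y⟩ hP
    rw [mem_filter, mem_bdry] at hP
    simp only [mem_insert, mem_singleton, Prod.mk.injEq]
    obtain ⟨⟨⟨⟨h1, h2⟩, h3, h4⟩, h5⟩, h6⟩ := hP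
    simp only at h1 h2 h3 h4 h5 h6
    rcases h5 with h5 | h5 | h5 | h5
    · left; constructor <;> omega
    · right; constructor <;> omega
    · right; constructor <;> omega
    · left; constructor <;> omega
  exact (card_le_card hsub).trans card_le_two

/-- Counting incidences of a family of lines with the boundary. -/
theorem sum_ind_le (B : Finset (ℤ × ℤ)) (D : Finset ℤ) (f : ℤ × ℤ → ℤ) (p : ℤ → Prop)
    [DecidablePred p] (h2 : ∀ e, (B.filter fun P => f P = e).card ≤ 2)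
    (hp : ∀ P ∈ B, ¬ p (f P)) :
    ∑ P ∈ B, ind D (f P) + 2 * ((D.filter p).card : ℤ) ≤ 2 * (D.card : ℤ) := by
  have h1 : ∑ P ∈ B, ind D (f P) = ((B.filter fun P => f P ∈ D).card : ℤ) := by
    rw [card_filter]
    push_cast
    rfl
  have h3 : (B.filter fun P => f P ∈ D).card ≤ 2 * ((D.filter fun e => ¬ p e).card) := by
    refine card_le_mul_card_image_of_maps_to (f := f) ?_ 2 ?_
    · intro P hP
      rw [mem_filter] at hP ⊢
      exact ⟨hP.2, hp P hP.1⟩
    · intro e _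
      refine (card_le_card ?_).trans (h2 e)
      intro P hP
      rw [mem_filter, mem_filter] at hP
      rw [mem_filter]
      exact ⟨hP.1.1, hP.2⟩
  have h4 : (D.filter p).card + (D.filter fun e => ¬ p e).card = D.card :=
    card_filter_add_card_filter_not p
  rw [h1]
  omega

theorem sum_ind_bdry {X Y : Finset ℤ} {a b c d : ℤ} (ha : a ∈ X) (hb : b ∈ X) (hab : a < b)
    (hX : ∀ x ∈ X, a ≤ x ∧ x ≤ b) (hc : c ∈ Y) (hd : d ∈ Y) (hcd : c < d)
    (hY : ∀ y ∈ Y, c ≤ y ∧ y ≤ d) :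
    ∑ P ∈ bdry a b c d, ind X P.1 * ind Y P.2 = 2 * (X.card : ℤ) + 2 * (Y.card : ℤ) - 4 := by
  have h1 : ∑ P ∈ bdry a b c d, ind X P.1 * ind Y P.2 =
      (((bdry a b c d).filter fun P => P.1 ∈ X ∧ P.2 ∈ Y).card : ℤ) := by
    rw [card_filter]
    push_cast
    refine sum_congr rfl fun P _ => ?_
    unfold ind
    by_cases h1 : P.1 ∈ X <;> by_cases h2 : P.2 ∈ Y <;> simp [h1, h2]
  have h2 : ((bdry a b c d).filter fun P => P.1 ∈ X ∧ P.2 ∈ Y) =
      (X ×ˢ Y) \ (((X.erase a).erase b) ×ˢ ((Y.erase c).erase d)) := by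
    ext P
    simp only [mem_filter, mem_bdry, mem_sdiff, mem_product, mem_erase]
    constructor
    · rintro ⟨⟨⟨⟨h1, h2⟩, h3, h4⟩, h5⟩, h6, h7⟩
      exact ⟨⟨h6, h7⟩, by tauto⟩
    · rintro ⟨⟨h6, h7⟩, h8⟩
      have := hX _ h6
      have := hY _ h7
      refine ⟨⟨⟨⟨?_, ?_⟩, ?_, ?_⟩, ?_⟩, h6, h7⟩ <;> tauto
  have h3 : (((X.erase a).erase b) ×ˢ ((Y.erase c).erase d)) ⊆ X ×ˢ Y := by
    intro P hP
    simp only [mem_product, mem_erase] at hP ⊢
    tauto
  have hX2 : 2 ≤ X.card := by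
    have : ({a, b} : Finset ℤ) ⊆ X := by
      intro z hz; simp only [mem_insert, mem_singleton] at hz; rcases hz with rfl | rfl <;> assumption
    calc 2 = ({a, b} : Finset ℤ).card := (card_pair hab.ne).symm
      _ ≤ X.card := card_le_card this
  have hY2 : 2 ≤ Y.card := by
    have : ({c, d} : Finset ℤ) ⊆ Y := by
      intro z hz; simp only [mem_insert, mem_singleton] at hz; rcases hz with rfl | rfl <;> assumption
    calc 2 = ({c, d} : Finset ℤ).card := (card_pair hcd.ne).symm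
      _ ≤ Y.card := card_le_card this
  have h4 : ((X.erase a).erase b).card = X.card - 2 := by
    rw [card_erase_of_mem, card_erase_of_mem ha]
    · omega
    · rw [mem_erase]; exact ⟨hab.ne', hb⟩
  have h5 : ((Y.erase c).erase d).card = Y.card - 2 := by
    rw [card_erase_of_mem, card_erase_of_mem hc]
    · omega
    · rw [mem_erase]; exact ⟨hcd.ne', hd⟩
  rw [h1, h2, card_sdiff_of_subset h3, card_product, card_product, h4, h5]
  obtain ⟨u, hu⟩ := Nat.exists_eq_add_of_le hX2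
  obtain ⟨v, hv⟩ := Nat.exists_eq_add_of_le hY2
  rw [hu, hv]
  have e1 : 2 + u - 2 = u := by omega
  have e2 : 2 + v - 2 = v := by omega
  rw [e1, e2]
  have e3 : (2 + u) * (2 + v) - u * v = 4 + 2 * u + 2 * v := by
    have : (2 + u) * (2 + v) = (4 + 2 * u + 2 * v) + u * v := by ring
    omega
  rw [e3]
  push_cast
  ring

/-- **Boundary exactness.** -/
theorem bdry_exact {X Y D S : Finset ℤ} {k : ℕ} (h : Cov X Y D S) (hs : Slack X Y D S k)
    {a b c d : ℤ} (ha : a ∈ X) (hb : b ∈ X) (hab : a < b)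
    (hX : ∀ x ∈ X, a ≤ x ∧ x ≤ b) (hc : c ∈ Y) (hd : d ∈ Y) (hcd : c < d)
    (hY : ∀ y ∈ Y, c ≤ y ∧ y ≤ d) :
    ∑ P ∈ bdry a b c d, (ind D (P.2 - P.1) + ind S (P.2 + P.1) - ind X P.1 * ind Y P.2)
      + 2 * ((D.filter fun e => e < c - b ∨ d - a < e).card : ℤ)
      + 2 * ((S.filter fun e => e < a + c ∨ b + d < e).card : ℤ) ≤ 2 * k := by
  have h1 := sum_ind_le (bdry a b c d) D (fun P => P.2 - P.1) (fun e => e < c - b ∨ d - a < e)
    (bdry_diag a b c d) (by
      intro P hP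
      rw [mem_bdry] at hP
      omega)
  have h2 := sum_ind_le (bdry a b c d) S (fun P => P.2 + P.1) (fun e => e < a + c ∨ b + d < e)
    (bdry_anti a b c d) (by
      intro P hP
      rw [mem_bdry] at hP
      omega)
  have h3 := sum_ind_bdry ha hb hab hX hc hd hcd hY
  simp only [sum_sub_distrib, sum_add_distrib]
  rw [h3]
  unfold Slack at hs
  have hs' : (D.card : ℤ) + S.card + 2 ≤ X.card + Y.card + k := by exact_mod_cast hs
  linarith

theorem bdry_term_nonneg {X Y D S : Finset ℤ} (h : Cov X Y D S) (P : ℤ × ℤ) :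
    0 ≤ ind D (P.2 - P.1) + ind S (P.2 + P.1) - ind X P.1 * ind Y P.2 := by
  by_cases h1 : P.1 ∈ X
  · by_cases h2 : P.2 ∈ Y
    · rw [ind_of_mem h1, ind_of_mem h2]
      rcases h _ h1 _ h2 with h3 | h3
      · rw [ind_of_mem h3]; have := ind_nonneg S (P.2 + P.1); linarith
      · rw [ind_of_mem h3]; have := ind_nonneg D (P.2 - P.1); linarith
    · rw [ind_of_notMem h2]
      have := ind_nonneg S (P.2 + P.1); have := ind_nonneg D (P.2 - P.1); linarith
  · rw [ind_of_notMem h1]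
    have := ind_nonneg S (P.2 + P.1); have := ind_nonneg D (P.2 - P.1); linarith

/-- The error set of the column `x` on the interval `[c, d]`. -/
noncomputable def err (Y D S : Finset ℤ) (x c d : ℤ) : Finset ℤ :=
  (Icc c d).filter fun y => ind Y y ≠ ind D (y - x) + ind S (y + x)

theorem mem_err {Y D S : Finset ℤ} {x c d y : ℤ} : y ∈ err Y D S x c d ↔
    (c ≤ y ∧ y ≤ d) ∧ ind Y y ≠ ind D (y - x) + ind S (y + x) := by
  unfold err; rw [mem_filter, mem_Icc]

/-- Exactness of the left column. -/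
theorem left_exact {X Y D S : Finset ℤ} {k : ℕ} (h : Cov X Y D S) (hs : Slack X Y D S k)
    {a b c d : ℤ} (ha : a ∈ X) (hb : b ∈ X) (hab : a < b)
    (hX : ∀ x ∈ X, a ≤ x ∧ x ≤ b) (hc : c ∈ Y) (hd : d ∈ Y) (hcd : c < d)
    (hY : ∀ y ∈ Y, c ≤ y ∧ y ≤ d) : (err Y D S a c d).card ≤ 2 * k := by
  have h1 := bdry_exact h hs ha hb hab hX hc hd hcd hY
  set F : ℤ × ℤ → ℤ := fun P => ind D (P.2 - P.1) + ind S (P.2 + P.1) - ind X P.1 * ind Y P.2
    with hF
  have h2 : ∑ P ∈ (err Y D S a c d).image (fun y => (a, y)), F P ≤ ∑ P ∈ bdry a b c d, F P := by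
    refine sum_le_sum_of_subset_of_nonneg ?_ fun P _ _ => bdry_term_nonneg h P
    intro P hP
    rw [mem_image] at hP
    obtain ⟨y, hy, rfl⟩ := hP
    rw [mem_err] at hy
    rw [mem_bdry]
    exact ⟨⟨⟨le_rfl, hab.le⟩, hy.1⟩, Or.inl rfl⟩
  rw [sum_image (by
    intro y _ y' _ hyy
    simpa using hyy)] at h2
  have h3 : ((err Y D S a c d).card : ℤ) ≤ ∑ y ∈ err Y D S a c d, F (a, y) := by
    rw [card_eq_sum_ones]
    push_cast
    refine sum_le_sum fun y hy => ?_
    rw [mem_err] at hy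
    have h4 := bdry_term_nonneg h (a, y)
    have h5 := hy.2
    simp only [hF]
    rw [ind_of_mem ha] at h4 ⊢
    simp only [one_mul] at h4 ⊢
    have : ind D (y - a) + ind S (y + a) - ind Y y ≠ 0 := fun h6 => h5 (by linarith)
    omega
  have h6 : (0 : ℤ) ≤ ((D.filter fun e => e < c - b ∨ d - a < e).card : ℤ) := Int.natCast_nonneg _
  have h7 : (0 : ℤ) ≤ ((S.filter fun e => e < a + c ∨ b + d < e).card : ℤ) := Int.natCast_nonneg _
  have : ((err Y D S a c d).card : ℤ) ≤ 2 * k := by linarith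
  exact_mod_cast this

/-- Few lines miss the box. -/
theorem miss_le {X Y D S : Finset ℤ} {k : ℕ} (h : Cov X Y D S) (hs : Slack X Y D S k)
    {a b c d : ℤ} (ha : a ∈ X) (hb : b ∈ X) (hab : a < b)
    (hX : ∀ x ∈ X, a ≤ x ∧ x ≤ b) (hc : c ∈ Y) (hd : d ∈ Y) (hcd : c < d)
    (hY : ∀ y ∈ Y, c ≤ y ∧ y ≤ d) :
    (D.filter fun e => e < c - b ∨ d - a < e).card +
      (S.filter fun e => e < a + c ∨ b + d < e).card ≤ k := by
  have h1 := bdry_exact h hs ha hb hab hX hc hd hcd hY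
  have h2 : 0 ≤ ∑ P ∈ bdry a b c d,
      (ind D (P.2 - P.1) + ind S (P.2 + P.1) - ind X P.1 * ind Y P.2) :=
    sum_nonneg fun P _ => bdry_term_nonneg h P
  have : ((D.filter fun e => e < c - b ∨ d - a < e).card : ℤ) +
      (S.filter fun e => e < a + c ∨ b + d < e).card ≤ k := by linarith
  exact_mod_cast this

/-- Restricting the columns. -/
theorem Cov.mono {X X' Y Y' D S : Finset ℤ} (h : Cov X Y D S) (hX : X' ⊆ X) (hY : Y' ⊆ Y) :
    Cov X' Y' D S := fun x hx y hy => h x (hX hx) y (hY hy)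

theorem Slack.drop {X X' Y Y' D S : Finset ℤ} {k k' : ℕ} (h : Slack X Y D S k)
    (hX : X.card + Y.card + k ≤ X'.card + Y'.card + k') : Slack X' Y' D S k' := by
  unfold Slack at *; omega

/-- Exactness of a column with few columns to its left. -/
theorem col_exact {X Y D S : Finset ℤ} {k t : ℕ} (h : Cov X Y D S) (hs : Slack X Y D S k)
    {x c d : ℤ} (hx : x ∈ X) (ht : (X.filter (· < x)).card ≤ t)
    (hx2 : ∃ x' ∈ X, x < x') (hc : c ∈ Y) (hd : d ∈ Y) (hcd : c < d)
    (hY : ∀ y ∈ Y, c ≤ y ∧ y ≤ d) : (err Y D S x c d).card ≤ 2 * (k + t) := by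
  set X' := X.filter (fun z => ¬ z < x) with hX'
  have hne : X'.Nonempty := ⟨x, by rw [hX', mem_filter]; exact ⟨hx, lt_irrefl x⟩⟩
  have hcard : (X.filter (· < x)).card + X'.card = X.card :=
    card_filter_add_card_filter_not _
  obtain ⟨x', hx', hxx'⟩ := hx2
  have hx'X : x' ∈ X' := by rw [hX', mem_filter]; exact ⟨hx', not_lt.2 hxx'.le⟩
  have hxX : x ∈ X' := by rw [hX', mem_filter]; exact ⟨hx, lt_irrefl x⟩
  refine left_exact (X := X') (b := X'.max' hne) (h.mono (filter_subset _ _) (Subset.refl Y))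
    (hs.drop (k' := k + t) (by omega)) hxX (max'_mem _ _)
    (lt_of_lt_of_le hxx' (le_max' _ _ hx'X)) ?_ hc hd hcd hY
  intro z hz
  refine ⟨?_, le_max' _ _ hz⟩
  rw [hX', mem_filter] at hz
  exact not_lt.1 hz.2

end Pool.Agent.Queens
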