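import Pool.Agent.Queens.Cov

set_option autoImplicit false

/-!
At one of the four ends of a cover system of bounded slack there are three elements at bounded
distance.
-/

namespace Pool.Agent.Queens

open Finset

/-- Representatives of the bad residue classes modulo `p` for the column `x`. -/
noncomputable def badset (Y D S : Finset ℤ) (x c d p : ℤ) : Finset ℤ :=
  err Y D S x c d ∪ Y.filter (· < c + p) ∪ Y.filter (d - p < ·)

/-- The points of `[c, d]` in bad residue classes. -/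
noncomputable def badcl (Y D S : Finset ℤ) (x c d p : ℤ) : Finset ℤ :=
  (Icc c d).filter fun y => ∃ z ∈ badset Y D S x c d p, p ∣ y - z

theorem mem_badcl {Y D S : Finset ℤ} {x c d p y : ℤ} : y ∈ badcl Y D S x c d p ↔
    (c ≤ y ∧ y ≤ d) ∧ ∃ z ∈ badset Y D S x c d p, p ∣ y - z := by
  unfold badcl; rw [mem_filter, mem_Icc]

theorem class_card_le (c d p z : ℤ) (hp : 0 < p) (hcd : c ≤ d) :
    ((Icc c d).filter fun y => p ∣ y - z).card ≤ ((d - c) / p).toNat + 1 := by
  have h0 : 0 ≤ (d - c) / p := Int.ediv_nonneg (by omega) hp.le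
  have h1 : (Icc (0 : ℤ) ((d - c) / p)).card = ((d - c) / p).toNat + 1 := by
    rw [Int.card_Icc]; omega
  rw [← h1]
  refine card_le_card_of_injOn (fun y => (y - c) / p) ?_ ?_
  · intro y hy
    rw [mem_coe, mem_filter, mem_Icc] at hy
    rw [mem_coe, mem_Icc]
    exact ⟨Int.ediv_nonneg (by omega) hp.le, Int.ediv_le_ediv hp (by omega)⟩
  · intro y hy y' hy' hyy
    rw [mem_coe, mem_filter, mem_Icc] at hy hy'
    dsimp only at hyy
    have h2 : p ∣ y - y' := by
      have := dvd_sub hy.2 hy'.2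
      simpa using this
    obtain ⟨m, hm⟩ := h2
    have h3 := Int.mul_ediv_add_emod (y - c) p
    have h4 := Int.mul_ediv_add_emod (y' - c) p
    have h5 := Int.emod_nonneg (y - c) hp.ne'
    have h6 := Int.emod_nonneg (y' - c) hp.ne'
    have h7 := Int.emod_lt_of_pos (y - c) hp
    have h8 := Int.emod_lt_of_pos (y' - c) hp
    rw [hyy] at h3
    have h9 : p * m = (y - c) % p - (y' - c) % p := by linarith
    have h10 : p * m < p := by linarith
    have h11 : -p < p * m := by linarith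
    have h12 : m < 1 := by nlinarith
    have h13 : -1 < m := by nlinarith
    have : m = 0 := by omega
    subst this
    linarith

theorem badcl_card_le {Y D S : Finset ℤ} {x c d p : ℤ} (hp : 0 < p) (hcd : c ≤ d) {R : ℕ}
    (hR : (badset Y D S x c d p).card ≤ R) :
    (badcl Y D S x c d p).card ≤ R * (((d - c) / p).toNat + 1) := by
  have hsub : badcl Y D S x c d p ⊆ (badset Y D S x c d p).biUnion fun z =>
      (Icc c d).filter fun y => p ∣ y - z := by
    intro y hy
    rw [mem_badcl] at hy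
    obtain ⟨h1, z, hz, h2⟩ := hy
    rw [mem_biUnion]
    exact ⟨z, hz, by rw [mem_filter, mem_Icc]; exact ⟨h1, h2⟩⟩
  refine (card_le_card hsub).trans (card_biUnion_le.trans ?_)
  calc ∑ z ∈ badset Y D S x c d p, ((Icc c d).filter fun y => p ∣ y - z).card
      ≤ ∑ _z ∈ badset Y D S x c d p, (((d - c) / p).toNat + 1) :=
        sum_le_sum fun z _ => class_card_le c d p z hp hcd
    _ = (badset Y D S x c d p).card * (((d - c) / p).toNat + 1) := by rw [sum_const, smul_eq_mul]
    _ ≤ R * (((d - c) / p).toNat + 1) := Nat.mul_le_mul_right _ hR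

section Pattern

variable {X Y D S : Finset ℤ} {c d : ℤ}

theorem good_shift {x p y : ℤ} (hy : y ∉ badcl Y D S x c d p) (hc : c ≤ y) (hd : y ≤ d) (m : ℤ) :
    y + p * m ∉ badcl Y D S x c d p := by
  intro h
  apply hy
  rw [mem_badcl] at h ⊢
  obtain ⟨_, z, hz, h2⟩ := h
  refine ⟨⟨hc, hd⟩, z, hz, ?_⟩
  have h3 : p ∣ p * m := dvd_mul_right p m
  have := dvd_sub h2 h3
  have e : y + p * m - z - p * m = y - z := by ring
  rwa [e] at this

theorem good_not_err {x p y : ℤ} (hy : y ∉ badcl Y D S x c d p) (hc : c ≤ y) (hd : y ≤ d) :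
    ind Y y = ind D (y - x) + ind S (y + x) := by
  by_contra hne
  apply hy
  rw [mem_badcl]
  refine ⟨⟨hc, hd⟩, y, ?_, by simp⟩
  unfold badset
  rw [mem_union, mem_union]
  exact Or.inl (Or.inl (mem_err.2 ⟨⟨hc, hd⟩, hne⟩))

theorem good_not_first {x p y : ℤ} (hy : y ∉ badcl Y D S x c d p) (hc : c ≤ y) (hd : y ≤ d)
    (hyY : y ∈ Y) : c + p ≤ y := by
  by_contra hne
  apply hy
  rw [mem_badcl]
  refine ⟨⟨hc, hd⟩, y, ?_, by simp⟩
  unfold badset
  rw [mem_union, mem_union]
  exact Or.inl (Or.inr (mem_filter.2 ⟨hyY, not_le.1 hne⟩))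

theorem good_not_last {x p y : ℤ} (hy : y ∉ badcl Y D S x c d p) (hc : c ≤ y) (hd : y ≤ d)
    (hyY : y ∈ Y) : y + p ≤ d := by
  by_contra hne
  apply hy
  rw [mem_badcl]
  refine ⟨⟨hc, hd⟩, y, ?_, by simp⟩
  unfold badset
  rw [mem_union, mem_union]
  refine Or.inr (mem_filter.2 ⟨hyY, ?_⟩)
  linarith [not_le.1 hne]

theorem pat_S (h : Cov X Y D S) {x p : ℤ} (hp : 0 < p) (hxp : x + p ∈ X) :
    ∀ (m : ℕ) (y : ℤ), (d - y).toNat ≤ m → c ≤ y → y ≤ d → y ∉ badcl Y D S x c d p →
      y + x ∈ S → y - p - x ∈ D := by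
  intro m
  induction m using Nat.strong_induction_on with
  | _ m ih =>
    intro y hm hc hd hy hS
    by_contra hD
    have h1 := good_not_err hy hc hd
    rw [ind_of_mem hS] at h1
    have h2 := ind_nonneg D (y - x)
    have h3 := ind_le_one Y y
    have hyY : y ∈ Y := ind_eq_one.1 (by linarith)
    have hDy : y - x ∉ D := ind_eq_zero.1 (by linarith)
    have h4 := good_not_last hy hc hd hyY
    rcases h _ hxp _ hyY with h5 | h5
    · apply hD
      have e : y - (x + p) = y - p - x := by ring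
      rwa [e] at h5
    · have e : y + (x + p) = y + p + x := by ring
      rw [e] at h5
      have h6 := good_shift hy hc hd 1
      rw [mul_one] at h6
      have h7 := ih ((d - (y + p)).toNat) (by omega) (y + p) le_rfl (by linarith) h4 h6 h5
      have e2 : y + p - p - x = y - x := by ring
      rw [e2] at h7
      exact hDy h7

theorem pat_D (h : Cov X Y D S) {x p : ℤ} (hp : 0 < p) (hxp : x + p ∈ X) :
    ∀ (m : ℕ) (y : ℤ), (y - c).toNat ≤ m → c ≤ y → y ≤ d → y ∉ badcl Y D S x c d p →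
      y - x ∈ D → y + p + x ∈ S := by
  intro m
  induction m using Nat.strong_induction_on with
  | _ m ih =>
    intro y hm hc hd hy hD
    by_contra hS
    have h1 := good_not_err hy hc hd
    rw [ind_of_mem hD] at h1
    have h2 := ind_nonneg S (y + x)
    have h3 := ind_le_one Y y
    have hyY : y ∈ Y := ind_eq_one.1 (by linarith)
    have hSy : y + x ∉ S := ind_eq_zero.1 (by linarith)
    have h4 := good_not_first hy hc hd hyY
    rcases h _ hxp _ hyY with h5 | h5
    · have e : y - (x + p) = y - p - x := by ring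
      rw [e] at h5
      have h6 := good_shift hy hc hd (-1)
      have e1 : y + p * -1 = y - p := by ring
      rw [e1] at h6
      have h7 := ih ((y - p - c).toNat) (by omega) (y - p) le_rfl (by linarith) (by linarith) h6 h5
      have e2 : y - p + p + x = y + x := by ring
      rw [e2] at h7
      exact hSy h7
    · apply hS
      have e : y + (x + p) = y + p + x := by ring
      rwa [e] at h5

theorem triple (h : Cov X Y D S) {x1 x2 x3 : ℤ} (h2X : x2 ∈ X) (h3X : x3 ∈ X)
    (h12 : x1 < x2) (h23 : x2 < x3) {y : ℤ} (hyY : y ∈ Y) (hc : c ≤ y) (hd : y + (x3 - x1) ≤ d)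
    (herr : y ∉ err Y D S x2 c d)
    (g12 : y ∉ badcl Y D S x1 c d (x2 - x1)) (g13 : y ∉ badcl Y D S x1 c d (x3 - x1))
    (g23 : y ∉ badcl Y D S x2 c d (x3 - x2)) : False := by
  have hyd : y ≤ d := by linarith
  have hex : ind Y y = ind D (y - x2) + ind S (y + x2) := by
    by_contra hne
    exact herr (mem_err.2 ⟨⟨hc, hyd⟩, hne⟩)
  rw [ind_of_mem hyY] at hex
  have f12 := pat_D (X := X) (c := c) (d := d) h (x := x1) (p := x2 - x1) (by linarith)
    (by simpa using h2X)
  have f13 := pat_D (X := X) (c := c) (d := d) h (x := x1) (p := x3 - x1) (by linarith)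
    (by simpa using h3X)
  have f23 := pat_D (X := X) (c := c) (d := d) h (x := x2) (p := x3 - x2) (by linarith)
    (by simpa using h3X)
  have s12 := pat_S (X := X) (c := c) (d := d) h (x := x1) (p := x2 - x1) (by linarith)
    (by simpa using h2X)
  have s13 := pat_S (X := X) (c := c) (d := d) h (x := x1) (p := x3 - x1) (by linarith)
    (by simpa using h3X)
  have s23 := pat_S (X := X) (c := c) (d := d) h (x := x2) (p := x3 - x2) (by linarith)
    (by simpa using h3X)
  by_cases hD : y - x2 ∈ D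
  · have hS : y + x2 ∉ S := by
      rw [ind_of_mem hD] at hex
      exact ind_eq_zero.1 (by linarith)
    have t1 := f23 _ y le_rfl hc hyd g23 hD
    have e1 : y + (x3 - x2) + x2 = y + (x3 - x1) + x1 := by ring
    rw [e1] at t1
    have g13' := good_shift g13 hc hyd 1
    rw [mul_one] at g13'
    have t2 := s13 _ (y + (x3 - x1)) le_rfl (by linarith) hd g13' t1
    have e2 : y + (x3 - x1) - (x3 - x1) - x1 = y - x1 := by ring
    rw [e2] at t2
    have t3 := f12 _ y le_rfl hc hyd g12 t2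
    have e3 : y + (x2 - x1) + x1 = y + x2 := by ring
    rw [e3] at t3
    exact hS t3
  · have hS : y + x2 ∈ S := by
      rw [ind_of_notMem hD] at hex
      exact ind_eq_one.1 (by linarith)
    have g12' := good_shift g12 hc hyd 1
    rw [mul_one] at g12'
    have e1 : y + x2 = y + (x2 - x1) + x1 := by ring
    rw [e1] at hS
    have t1 := s12 _ (y + (x2 - x1)) le_rfl (by linarith) (by linarith) g12' hS
    have e2 : y + (x2 - x1) - (x2 - x1) - x1 = y - x1 := by ring
    rw [e2] at t1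
    have t2 := f13 _ y le_rfl hc hyd g13 t1
    have e3 : y + (x3 - x1) + x1 = y + (x3 - x2) + x2 := by ring
    rw [e3] at t2
    have g23' := good_shift g23 hc hyd 1
    rw [mul_one] at g23'
    have t3 := s23 _ (y + (x3 - x2)) le_rfl (by linarith) (by linarith) g23' t2
    have e4 : y + (x3 - x2) - (x3 - x2) - x2 = y - x2 := by ring
    rw [e4] at t3
    exact hD t3

/-- Of three exact columns far from being spread more than the ends of `Y`, two are close. -/
theorem three_close (h : Cov X Y D S) {x1 x2 x3 : ℤ} (h2X : x2 ∈ X) (h3X : x3 ∈ X)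
    (h12 : x1 < x2) (h23 : x2 < x3) {E : ℕ} (hY : ∀ y ∈ Y, c ≤ y ∧ y ≤ d) (hcd : c ≤ d)
    (e1 : (err Y D S x1 c d).card ≤ E) (e2 : (err Y D S x2 c d).card ≤ E)
    (hfirst : (Y.filter (· < c + (x3 - x1))).card ≤ 4)
    (hlast : (Y.filter (d - (x3 - x1) < ·)).card ≤ 4)
    (hbig : 8 * E + 56 < Y.card) (hdiam : d - c < 3 * Y.card) :
    x2 - x1 < 18 * (E + 8) ∨ x3 - x2 < 18 * (E + 8) := by
  by_contra hcon
  push Not at hcon
  obtain ⟨hA, hB⟩ := hcon
  have hbs : ∀ x p : ℤ, (err Y D S x c d).card ≤ E → p ≤ x3 - x1 →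
      (badset Y D S x c d p).card ≤ E + 8 := by
    intro x p hx hp
    unfold badset
    refine (card_union_le _ _).trans ?_
    have u1 := card_union_le (err Y D S x c d) (Y.filter (· < c + p))
    have u2 : (Y.filter (· < c + p)).card ≤ 4 := by
      refine (card_le_card ?_).trans hfirst
      intro y hy
      rw [mem_filter] at hy ⊢
      exact ⟨hy.1, by linarith [hy.2]⟩
    have u3 : (Y.filter (d - p < ·)).card ≤ 4 := by
      refine (card_le_card ?_).trans hlast
      intro y hy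
      rw [mem_filter] at hy ⊢
      exact ⟨hy.1, by linarith [hy.2]⟩
    omega
  have hC : (0 : ℤ) < 18 * (E + 8) := by positivity
  set Q : ℕ := ((d - c) / (18 * ((E : ℤ) + 8))).toNat with hQ
  have hQ0 : 0 ≤ (d - c) / (18 * ((E : ℤ) + 8)) := Int.ediv_nonneg (by omega) hC.le
  have hQ1 : (18 * (E + 8)) * Q ≤ 3 * Y.card := by
    have : (18 * ((E : ℤ) + 8)) * ((d - c) / (18 * ((E : ℤ) + 8))) ≤ d - c :=
      Int.mul_ediv_self_le hC.ne'
    have h2 : ((Q : ℕ) : ℤ) = (d - c) / (18 * ((E : ℤ) + 8)) := Int.toNat_of_nonneg hQ0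
    rw [← h2] at this
    have h3 : (18 * ((E : ℤ) + 8)) * (Q : ℤ) ≤ 3 * Y.card := by linarith
    exact_mod_cast h3
  have hcl : ∀ x p : ℤ, (err Y D S x c d).card ≤ E → p ≤ x3 - x1 → 18 * ((E : ℤ) + 8) ≤ p →
      (badcl Y D S x c d p).card ≤ (E + 8) * (Q + 1) := by
    intro x p hx hp1 hp2
    refine (badcl_card_le (by linarith) hcd (hbs x p hx hp1)).trans ?_
    refine Nat.mul_le_mul_left _ (Nat.add_le_add_right ?_ 1)
    rw [hQ]
    apply Int.toNat_le_toNat
    have hp0 : (0 : ℤ) < p := by linarith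
    refine Int.le_ediv_of_mul_le hC ?_
    have w1 : (d - c) / p * p ≤ d - c := Int.ediv_mul_le _ hp0.ne'
    have w2 : 0 ≤ (d - c) / p := Int.ediv_nonneg (by omega) hp0.le
    exact (mul_le_mul_of_nonneg_left hp2 w2).trans w1
  have k12 := hcl x1 (x2 - x1) e1 (by linarith) hA
  have k13 := hcl x1 (x3 - x1) e1 le_rfl (by linarith)
  have k23 := hcl x2 (x3 - x2) e2 (by linarith) hB
  have hsub : Y ⊆ ((((err Y D S x2 c d) ∪ (Y.filter (d - (x3 - x1) < ·))) ∪
      badcl Y D S x1 c d (x2 - x1)) ∪ badcl Y D S x1 c d (x3 - x1)) ∪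
      badcl Y D S x2 c d (x3 - x2) := by
    intro y hy
    by_contra hn
    rw [mem_union, mem_union, mem_union, mem_union, mem_filter] at hn
    push Not at hn
    obtain ⟨⟨⟨⟨n1, n2⟩, n3⟩, n4⟩, n5⟩ := hn
    exact triple h h2X h3X h12 h23 hy (hY y hy).1 (by linarith [n2 hy]) n1 n3 n4 n5
  have hcard := card_le_card hsub
  have v1 := card_union_le ((((err Y D S x2 c d) ∪ (Y.filter (d - (x3 - x1) < ·))) ∪
      badcl Y D S x1 c d (x2 - x1)) ∪ badcl Y D S x1 c d (x3 - x1)) (badcl Y D S x2 c d (x3 - x2))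
  have v2 := card_union_le (((err Y D S x2 c d) ∪ (Y.filter (d - (x3 - x1) < ·))) ∪
      badcl Y D S x1 c d (x2 - x1)) (badcl Y D S x1 c d (x3 - x1))
  have v3 := card_union_le ((err Y D S x2 c d) ∪ (Y.filter (d - (x3 - x1) < ·)))
      (badcl Y D S x1 c d (x2 - x1))
  have v4 := card_union_le (err Y D S x2 c d) (Y.filter (d - (x3 - x1) < ·))
  have hexp : (E + 8) * (Q + 1) = (E + 8) * Q + (E + 8) := by ring
  have hexp2 : (18 * (E + 8)) * Q = 18 * ((E + 8) * Q) := by ring
  rw [hexp] at k12 k13 k23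
  rw [hexp2] at hQ1
  omega

end Pattern

/-- Three elements at distance at most `C` near the left end. -/
def Good3 (X : Finset ℤ) (t : ℕ) (C : ℤ) : Prop :=
  ∃ x1 ∈ X, ∃ x2 ∈ X, ∃ x3 ∈ X, x1 < x2 ∧ x2 < x3 ∧ x3 - x1 ≤ C ∧ (X.filter (· < x3)).card ≤ t

/-- The first five elements. -/
def End5 (T : Finset ℤ) (G : ℤ) : Prop :=
  ∃ e0 ∈ T, ∃ e1 ∈ T, ∃ e2 ∈ T, ∃ e3 ∈ T, ∃ e4 ∈ T, e0 < e1 ∧ e1 < e2 ∧ e2 < e3 ∧ e3 < e4 ∧
    (∀ t ∈ T, e0 ≤ t) ∧ (T.filter (· < e4)).card ≤ 4 ∧ G = e4 - e0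

theorem exists_end5 (T : Finset ℤ) (h : 5 ≤ T.card) : ∃ G, End5 T G := by
  set f := T.orderEmbOfFin rfl with hf
  have hmem : ∀ i, f i ∈ T := fun i => T.orderEmbOfFin_mem rfl i
  have hlt : ∀ i j : Fin T.card, i < j → f i < f j := fun i j hij => f.strictMono hij
  refine ⟨_, f ⟨0, by omega⟩, hmem _, f ⟨1, by omega⟩, hmem _, f ⟨2, by omega⟩, hmem _,
    f ⟨3, by omega⟩, hmem _, f ⟨4, by omega⟩, hmem _, ?_, ?_, ?_, ?_, ?_, ?_, rfl⟩
  · exact hlt _ _ (by rw [Fin.mk_lt_mk]; omega)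
  · exact hlt _ _ (by rw [Fin.mk_lt_mk]; omega)
  · exact hlt _ _ (by rw [Fin.mk_lt_mk]; omega)
  · exact hlt _ _ (by rw [Fin.mk_lt_mk]; omega)
  · intro t ht
    have : t ∈ Set.range f := by rw [hf, Finset.range_orderEmbOfFin]; exact ht
    obtain ⟨i, rfl⟩ := this
    exact f.monotone (by rw [Fin.le_def]; exact Nat.zero_le _)
  · have hsub : T.filter (· < f ⟨4, by omega⟩) ⊆
        (univ.filter fun i : Fin T.card => (i : ℕ) < 4).image f := by
      intro t ht
      rw [mem_filter] at ht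
      have : t ∈ Set.range f := by rw [hf, Finset.range_orderEmbOfFin]; exact ht.1
      obtain ⟨i, rfl⟩ := this
      rw [mem_image]
      refine ⟨i, ?_, rfl⟩
      rw [mem_filter]
      refine ⟨mem_univ _, ?_⟩
      have := f.lt_iff_lt.1 ht.2
      rw [Fin.lt_def] at this
      exact this
    refine (card_le_card hsub).trans (card_image_le.trans ?_)
    have : ((univ.filter fun i : Fin T.card => (i : ℕ) < 4).image Fin.val).card =
        (univ.filter fun i : Fin T.card => (i : ℕ) < 4).card :=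
      card_image_of_injective _ Fin.val_injective
    rw [← this]
    have hs : ((univ.filter fun i : Fin T.card => (i : ℕ) < 4).image Fin.val) ⊆
        range 4 := by
      intro a ha
      rw [mem_image] at ha
      obtain ⟨i, hi, rfl⟩ := ha
      rw [mem_filter] at hi
      rw [mem_range]
      exact hi.2
    exact (card_le_card hs).trans (by simp)

theorem End5.few {T : Finset ℤ} {G G' c : ℤ} (h : End5 T G) (hc : c ∈ T) (hmin : ∀ t ∈ T, c ≤ t)
    (hG : G' ≤ G) : (T.filter (· < c + G')).card ≤ 4 := by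
  obtain ⟨e0, h0, e1, h1, e2, h2, e3, h3, e4, h4, h01, h12, h23, h34, hmin', hcard, rfl⟩ := h
  have : e0 = c := le_antisymm (hmin' c hc) (hmin e0 h0)
  subst this
  refine (card_le_card ?_).trans hcard
  intro t ht
  rw [mem_filter] at ht ⊢
  exact ⟨ht.1, by linarith [ht.2]⟩

theorem ends_core {X Y D S : Finset ℤ} {k : ℕ} (h : Cov X Y D S) (hs : Slack X Y D S k)
    {G G1 G2 : ℤ} (hX : End5 X G) (hY1 : End5 Y G1) (hY2 : End5 (nneg Y) G2) (h1 : G ≤ G1)
    (h2 : G ≤ G2) (hbX : 6 ≤ X.card) (hbig : 8 * (2 * (k + 4)) + 56 < Y.card)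
    (hdiam : ∀ y ∈ Y, ∀ y' ∈ Y, y' - y < 3 * Y.card) :
    Good3 X 4 (18 * ((2 * (k + 4) : ℕ) + 8)) := by
  have hYne : Y.Nonempty := card_pos.1 (by omega)
  set c := Y.min' hYne with hc
  set d := Y.max' hYne with hd
  have hcY : c ∈ Y := min'_mem _ _
  have hdY : d ∈ Y := max'_mem _ _
  have hY : ∀ y ∈ Y, c ≤ y ∧ y ≤ d := fun y hy => ⟨min'_le _ _ hy, le_max' _ _ hy⟩
  have hcd : c < d := by
    by_contra hcon
    have : Y.card ≤ 1 := by
      rw [card_le_one]
      intro y hy y' hy'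
      have := hY y hy; have := hY y' hy'; linarith
    omega
  obtain ⟨e0, h0, e1, h1', e2, h2', e3, h3, e4, h4, h01, h12, h23, h34, hmin', hcard, hG⟩ := hX
  have hfl : (Y.filter (· < c + (e4 - e0))).card ≤ 4 :=
    hY1.few hcY (fun t ht => (hY t ht).1) (by linarith)
  have hll : (Y.filter (d - (e4 - e0) < ·)).card ≤ 4 := by
    have h5 := hY2.few (c := -d) (G' := e4 - e0) (by rw [mem_nneg, neg_neg]; exact hdY) (by
      intro t ht
      rw [mem_nneg] at ht
      linarith [(hY _ ht).2]) (by linarith)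
    refine le_trans ?_ h5
    refine card_le_card_of_injOn (fun y => -y) ?_ (fun y _ z _ hyz => by simpa using hyz)
    intro y hy
    rw [mem_coe, mem_filter] at hy
    rw [mem_coe, mem_filter, mem_nneg, neg_neg]
    exact ⟨hy.1, by linarith [hy.2]⟩
  have hlast : ∃ x' ∈ X, e4 < x' := by
    by_contra hcon
    push Not at hcon
    have hXs : X ⊆ insert e4 (X.filter (· < e4)) := by
      intro x hx
      rw [mem_insert, mem_filter]
      rcases (hcon x hx).lt_or_eq with h5 | h5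
      · exact Or.inr ⟨hx, h5⟩
      · exact Or.inl h5
    have := card_le_card hXs
    have := card_insert_le e4 (X.filter (· < e4))
    omega
  obtain ⟨x', hx', hx'4⟩ := hlast
  have hex : ∀ x ∈ X, x ≤ e4 → (err Y D S x c d).card ≤ 2 * (k + 4) := by
    intro x hx hx4
    refine col_exact h hs hx ?_ ⟨x', hx', by linarith⟩ hcY hdY hcd hY
    refine (card_le_card ?_).trans hcard
    intro t ht
    rw [mem_filter] at ht ⊢
    exact ⟨ht.1, by linarith [ht.2]⟩
  have hf : ∀ x, x ≤ e4 → (X.filter (· < x)).card ≤ 4 := by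
    intro x hx4
    refine (card_le_card ?_).trans hcard
    intro t ht
    rw [mem_filter] at ht ⊢
    exact ⟨ht.1, by linarith [ht.2]⟩
  rcases three_close h (x1 := e0) (x2 := e2) (x3 := e4) h2' h4 (by linarith) (by linarith) hY hcd.le
    (hex e0 h0 (by linarith)) (hex e2 h2' (by linarith)) hfl hll hbig (hdiam c hcY d hdY) with h5 | h5
  · exact ⟨e0, h0, e1, h1', e2, h2', h01, h12, h5.le, hf _ (by linarith)⟩
  · exact ⟨e2, h2', e3, h3, e4, h4, h23, h34, h5.le, hf _ le_rfl⟩

/-- **Ends.**  At one of the four ends there are three elements at bounded distance. -/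
theorem ends {X Y D S : Finset ℤ} {k : ℕ} (h : Cov X Y D S) (hs : Slack X Y D S k)
    (hbX : 8 * (2 * (k + 4)) + 56 < X.card) (hbY : 8 * (2 * (k + 4)) + 56 < Y.card)
    (hdX : ∀ y ∈ X, ∀ y' ∈ X, y' - y < 3 * X.card) (hdY : ∀ y ∈ Y, ∀ y' ∈ Y, y' - y < 3 * Y.card) :
    Good3 X 4 (18 * ((2 * (k + 4) : ℕ) + 8)) ∨ Good3 (nneg X) 4 (18 * ((2 * (k + 4) : ℕ) + 8)) ∨
    Good3 Y 4 (18 * ((2 * (k + 4) : ℕ) + 8)) ∨ Good3 (nneg Y) 4 (18 * ((2 * (k + 4) : ℕ) + 8)) := by
  obtain ⟨G0, hL⟩ := exists_end5 X (by omega)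
  obtain ⟨GR, hR⟩ := exists_end5 (nneg X) (by rw [card_nneg]; omega)
  obtain ⟨GB, hB⟩ := exists_end5 Y (by omega)
  obtain ⟨GT, hT⟩ := exists_end5 (nneg Y) (by rw [card_nneg]; omega)
  have hdX' : ∀ y ∈ nneg X, ∀ y' ∈ nneg X, y' - y < 3 * (nneg X).card := by
    intro y hy y' hy'
    rw [mem_nneg] at hy hy'
    rw [card_nneg]
    linarith [hdX _ hy' _ hy]
  have hdY' : ∀ y ∈ nneg Y, ∀ y' ∈ nneg Y, y' - y < 3 * (nneg Y).card := by
    intro y hy y' hy'
    rw [mem_nneg] at hy hy'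
    rw [card_nneg]
    linarith [hdY _ hy' _ hy]
  by_cases c1 : G0 ≤ GB ∧ G0 ≤ GT
  · exact Or.inl (ends_core h hs hL hB hT c1.1 c1.2 (by omega) hbY hdY)
  by_cases c2 : GR ≤ GB ∧ GR ≤ GT
  · exact Or.inr (Or.inl (ends_core h.reflX hs.reflX hR hB hT c2.1 c2.2
      (by rw [card_nneg]; omega) hbY hdY))
  by_cases c3 : GB ≤ G0 ∧ GB ≤ GR
  · exact Or.inr (Or.inr (Or.inl (ends_core h.swap hs.swap hB hL hR c3.1 c3.2 (by omega) hbX hdX)))
  · refine Or.inr (Or.inr (Or.inr (ends_core h.reflY.swap hs.reflY.swap hT hL hR ?_ ?_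
      (by rw [card_nneg]; omega) hbX hdX)))
    · omega
    · omega

end Pool.Agent.Queens
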