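import Mathlib

set_option autoImplicit false

/-!
Linear programming certificate for the parity case of the queens problem: node values of
piecewise linear weight functions and the pointwise inequality they satisfy.
-/

namespace Pool.Agent.Queens.Parity

/-- Node values (times 2000) of the row and column weight on a grid with 26 cells. -/
def tabF : List ℕ :=
  [1012, 988, 964, 891, 818, 696, 574, 404, 306, 222, 151, 94, 50, 20, 3, 0, 10, 34, 71, 122,
   186, 264, 355, 460, 578, 710, 855]

/-- Node values (times 2000) of the diagonal weight of the first class. -/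
def tabE : List ℕ :=
  [1557, 1550, 1543, 1523, 1503, 1469, 1435, 1388, 1341, 1280, 1219, 1145, 1071, 983, 895, 794,
   693, 578, 503, 452, 401, 374, 347, 345, 343, 380, 404, 427, 437, 447, 444, 440, 423, 406, 376,
   345, 301, 257, 200, 142, 71, 0, 0]

/-- Node values (times 2000) of the diagonal weight of the second class. -/
def tabO : List ℕ := [0, 0, 24, 49, 97, 146, 219, 292, 389, 487, 608, 730]

/-- row and column weight -/
def fF (i : ℕ) : ℕ := tabF.getD i 0
/-- diagonal weight, first class -/
def gE (i : ℕ) : ℕ := tabE.getD i 0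
/-- diagonal weight, second class -/
def gO (i : ℕ) : ℕ := tabO.getD i 0

theorem nodeE : ∀ i < 27, ∀ j < 27, j ≤ i → i + j ≤ 42 →
    2000 ≤ fF i + fF j + gE (i - j) + gE (i + j) := by
  decide +kernel

theorem centerE : ∀ i < 26, ∀ j < 26, j ≤ i → i + j + 1 ≤ 42 →
    4000 ≤ fF i + fF (i + 1) + fF j + fF (j + 1) + 2 * (gE (i - j) + gE (i + j + 1)) := by
  decide +kernel

theorem nodeO : ∀ i < 27, ∀ j < 27, j ≤ i → i + j ≤ 11 →
    2000 ≤ fF i + fF j + gO (i - j) + gO (i + j) := by
  decide +kernel

theorem centerO : ∀ i < 26, ∀ j < 26, j ≤ i → i + j + 1 ≤ 11 →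
    4000 ≤ fF i + fF (i + 1) + fF j + fF (j + 1) + 2 * (gO (i - j) + gO (i + j + 1)) := by
  decide +kernel

/-- Piecewise linear interpolation (times `M`) of the node values `f i` placed at `i * M`. -/
def pl (f : ℕ → ℕ) (M x : ℕ) : ℕ := (M - x % M) * f (x / M) + (x % M) * f (x / M + 1)

theorem pl_eq (f : ℕ → ℕ) {M : ℕ} (hM : 0 < M) (q r : ℕ) (hr : r ≤ M) :
    pl f M (M * q + r) = (M - r) * f q + r * f (q + 1) := by
  rcases Nat.lt_or_ge r M with h | h
  · unfold pl
    have h1 : (M * q + r) / M = q := by
      rw [Nat.mul_add_div hM, Nat.div_eq_of_lt h, Nat.add_zero]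
    have h2 : (M * q + r) % M = r := by
      rw [Nat.mul_add_mod, Nat.mod_eq_of_lt h]
    rw [h1, h2]
  · have hrM : r = M := le_antisymm hr h
    subst hrM
    unfold pl
    have h1 : (r * q + r) / r = q + 1 := by
      rw [show r * q + r = r * (q + 1) by ring, Nat.mul_div_cancel_left _ hM]
    have h2 : (r * q + r) % r = 0 := by
      rw [show r * q + r = r * (q + 1) by ring, Nat.mul_mod_right]
    rw [h1, h2]
    simp

theorem pl_eq_int (f : ℕ → ℕ) {M : ℕ} (hM : 0 < M) (x q r : ℕ) (hr : r ≤ M)
    (hx : x = M * q + r) :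
    ((pl f M x : ℕ) : ℤ) = ((M : ℤ) - r) * f q + r * f (q + 1) := by
  subst hx
  rw [pl_eq f hM q r hr]
  push_cast [Nat.cast_sub hr]
  ring

theorem pointwise (f g : ℕ → ℕ) (G T D M : ℕ) (hM : 0 < M)
    (hnode : ∀ i < G + 1, ∀ j < G + 1, j ≤ i → i + j ≤ T → D ≤ f i + f j + g (i - j) + g (i + j))
    (hcenter : ∀ i < G, ∀ j < G, j ≤ i → i + j + 1 ≤ T →
      2 * D ≤ f i + f (i + 1) + f j + f (j + 1) + 2 * (g (i - j) + g (i + j + 1)))
    (a b : ℕ) (hb : b ≤ a) (ha : a < M * G) (hab : a + b < M * T) :
    D * M ≤ pl f M a + pl f M b + pl g M (a - b) + pl g M (a + b) := by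
  obtain ⟨i, r, hr, hai⟩ : ∃ i r, r < M ∧ a = M * i + r :=
    ⟨a / M, a % M, Nat.mod_lt _ hM, (Nat.div_add_mod a M).symm⟩
  obtain ⟨j, s, hs, hbj⟩ : ∃ i r, r < M ∧ b = M * i + r :=
    ⟨b / M, b % M, Nat.mod_lt _ hM, (Nat.div_add_mod b M).symm⟩
  have hji : j ≤ i := by
    by_contra hcon
    have h1 : i + 1 ≤ j := by omega
    have h2 : M * (i + 1) ≤ M * j := Nat.mul_le_mul_left M h1
    have h3 : M * (i + 1) = M * i + M := by ring
    omega
  have hiG : i < G := by
    by_contra hcon
    have h2 : M * G ≤ M * i := Nat.mul_le_mul_left M (by omega)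
    omega
  have hijT : i + j < T := by
    by_contra hcon
    have h2 : M * T ≤ M * (i + j) := Nat.mul_le_mul_left M (by omega)
    have h3 : M * (i + j) = M * i + M * j := by ring
    omega
  obtain ⟨e, rfl⟩ := Nat.exists_eq_add_of_le hji
  have hcen := hcenter (j + e) hiG j (by omega) (by omega) (by omega)
  have hsub0 : j + e - j = e := by omega
  rw [hsub0] at hcen
  have pa := pl_eq_int f hM a (j + e) r hr.le hai
  have pb := pl_eq_int f hM b j s hs.le hbj
  have hcenz : (2 * (D : ℤ)) ≤ f (j + e) + f (j + e + 1) + f j + f (j + 1)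
      + 2 * (g e + g (j + e + j + 1)) := by exact_mod_cast hcen
  rcases Nat.le_total s r with hsr | hsr
  · -- `s ≤ r`
    have pd := pl_eq_int g hM (a - b) e (r - s) (by omega) (by
      have h3 : M * (j + e) = M * j + M * e := by ring
      omega)
    have n2 := hnode (j + e + 1) (by omega) j (by omega) (by omega) (by omega)
    rw [show j + e + 1 - j = e + 1 by omega] at n2
    have n2z : (D : ℤ) ≤ f (j + e + 1) + f j + g (e + 1) + g (j + e + 1 + j) := by
      exact_mod_cast n2
    rw [show j + e + 1 + j = j + e + j + 1 by ring] at n2z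
    rcases Nat.le_total (r + s) M with hrs | hrs
    · have ps := pl_eq_int g hM (a + b) (j + e + j) (r + s) hrs (by
        have h3 : M * (j + e + j) = M * (j + e) + M * j := by ring
        omega)
      have n1 := hnode (j + e) (by omega) j (by omega) (by omega) (by omega)
      rw [hsub0] at n1
      have n1z : (D : ℤ) ≤ f (j + e) + f j + g e + g (j + e + j) := by exact_mod_cast n1
      push_cast [Nat.cast_sub hsr] at pd ps
      have hrsz : (r : ℤ) + s ≤ M := by exact_mod_cast hrs
      have hsrz : (s : ℤ) ≤ r := by exact_mod_cast hsr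
      have hs0 : (0 : ℤ) ≤ s := by positivity
      have m1 := mul_le_mul_of_nonneg_left n1z (sub_nonneg.mpr hrsz)
      have m2 := mul_le_mul_of_nonneg_left n2z (sub_nonneg.mpr hsrz)
      have m3 := mul_le_mul_of_nonneg_left hcenz hs0
      zify
      rw [pa, pb, pd, ps]
      linarith
    · have ps := pl_eq_int g hM (a + b) (j + e + j + 1) (r + s - M) (by omega) (by
        have h3 : M * (j + e + j + 1) = M * (j + e) + M * j + M := by ring
        omega)
      have hT : j + e + 1 + (j + 1) ≤ T := by
        by_contra hcon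
        have h1 : T ≤ j + e + j + 1 := by omega
        have h2 : M * T ≤ M * (j + e + j + 1) := Nat.mul_le_mul_left M h1
        have h3 : M * (j + e + j + 1) = M * (j + e) + M * j + M := by ring
        omega
      have n1 := hnode (j + e + 1) (by omega) (j + 1) (by omega) (by omega) hT
      rw [show j + e + 1 - (j + 1) = e by omega] at n1
      have n1z : (D : ℤ) ≤ f (j + e + 1) + f (j + 1) + g e + g (j + e + 1 + (j + 1)) := by
        exact_mod_cast n1
      rw [show j + e + 1 + (j + 1) = j + e + j + 1 + 1 by ring] at n1z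
      push_cast [Nat.cast_sub hsr, Nat.cast_sub hrs] at pd ps
      have hrsz : (M : ℤ) ≤ r + s := by exact_mod_cast hrs
      have hsrz : (s : ℤ) ≤ r := by exact_mod_cast hsr
      have hrM : (r : ℤ) ≤ M := by exact_mod_cast hr.le
      have m1 := mul_le_mul_of_nonneg_left n1z (sub_nonneg.mpr hrsz)
      have m2 := mul_le_mul_of_nonneg_left n2z (sub_nonneg.mpr hsrz)
      have m3 := mul_le_mul_of_nonneg_left hcenz (sub_nonneg.mpr hrM)
      zify
      rw [pa, pb, pd, ps]
      linarith
  · rcases Nat.eq_zero_or_pos e with he | he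
    · -- then `r = s`
      have hrs' : r = s := by
        subst he
        simp only [Nat.add_zero] at hai
        omega
      subst hrs'
      subst he
      simp only [Nat.add_zero] at *
      have pd := pl_eq_int g hM (a - b) 0 0 (by omega) (by omega)
      rcases Nat.le_total (r + r) M with hrs | hrs
      · have ps := pl_eq_int g hM (a + b) (j + j) (r + r) hrs (by
          have h3 : M * (j + j) = M * j + M * j := by ring
          omega)
        have n1 := hnode j (by omega) j (by omega) (by omega) (by omega)
        rw [Nat.sub_self] at n1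
        have n1z : (D : ℤ) ≤ f j + f j + g 0 + g (j + j) := by exact_mod_cast n1
        push_cast at pd ps
        have hrsz : (r : ℤ) + r ≤ M := by exact_mod_cast hrs
        have hs0 : (0 : ℤ) ≤ r := by positivity
        have m1 := mul_le_mul_of_nonneg_left n1z (sub_nonneg.mpr hrsz)
        have m3 := mul_le_mul_of_nonneg_left hcenz hs0
        zify
        rw [pa, pb, pd, ps]
        linarith
      · have ps := pl_eq_int g hM (a + b) (j + j + 1) (r + r - M) (by omega) (by
          have h3 : M * (j + j + 1) = M * j + M * j + M := by ring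
          omega)
        have hT : j + 1 + (j + 1) ≤ T := by
          by_contra hcon
          have h1 : T ≤ j + j + 1 := by omega
          have h2 : M * T ≤ M * (j + j + 1) := Nat.mul_le_mul_left M h1
          have h3 : M * (j + j + 1) = M * j + M * j + M := by ring
          omega
        have n1 := hnode (j + 1) (by omega) (j + 1) (by omega) (by omega) hT
        rw [Nat.sub_self] at n1
        have n1z : (D : ℤ) ≤ f (j + 1) + f (j + 1) + g 0 + g (j + 1 + (j + 1)) := by
          exact_mod_cast n1
        rw [show j + 1 + (j + 1) = j + j + 1 + 1 by ring] at n1z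
        push_cast [Nat.cast_sub hrs] at pd ps
        have hrsz : (M : ℤ) ≤ r + r := by exact_mod_cast hrs
        have hrM : (r : ℤ) ≤ M := by exact_mod_cast hr.le
        have m1 := mul_le_mul_of_nonneg_left n1z (sub_nonneg.mpr hrsz)
        have m3 := mul_le_mul_of_nonneg_left hcenz (sub_nonneg.mpr hrM)
        zify
        rw [pa, pb, pd, ps]
        linarith
    · obtain ⟨w, rfl⟩ := Nat.exists_eq_add_of_lt he
      simp only [Nat.zero_add] at *
      have pd := pl_eq_int g hM (a - b) w (M - (s - r)) (by omega) (by
        have h3 : M * (j + (w + 1)) = M * j + M * w + M := by ring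
        omega)
      have n2 := hnode (j + (w + 1)) (by omega) (j + 1) (by omega) (by omega) (by omega)
      rw [show j + (w + 1) - (j + 1) = w by omega] at n2
      have n2z : (D : ℤ) ≤ f (j + (w + 1)) + f (j + 1) + g w + g (j + (w + 1) + (j + 1)) := by
        exact_mod_cast n2
      rw [show j + (w + 1) + (j + 1) = j + (w + 1) + j + 1 by ring] at n2z
      rcases Nat.le_total (r + s) M with hrs | hrs
      · have ps := pl_eq_int g hM (a + b) (j + (w + 1) + j) (r + s) hrs (by
          have h3 : M * (j + (w + 1) + j) = M * (j + (w + 1)) + M * j := by ring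
          omega)
        have n1 := hnode (j + (w + 1)) (by omega) j (by omega) (by omega) (by omega)
        rw [hsub0] at n1
        have n1z : (D : ℤ) ≤ f (j + (w + 1)) + f j + g (w + 1) + g (j + (w + 1) + j) := by
          exact_mod_cast n1
        have hMsr : s - r ≤ M := by omega
        push_cast [Nat.cast_sub hsr, Nat.cast_sub hMsr] at pd ps
        have hrsz : (r : ℤ) + s ≤ M := by exact_mod_cast hrs
        have hsrz : (r : ℤ) ≤ s := by exact_mod_cast hsr
        have hs0 : (0 : ℤ) ≤ r := by positivity
        have m1 := mul_le_mul_of_nonneg_left n1z (sub_nonneg.mpr hrsz)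
        have m2 := mul_le_mul_of_nonneg_left n2z (sub_nonneg.mpr hsrz)
        have m3 := mul_le_mul_of_nonneg_left hcenz hs0
        zify
        rw [pa, pb, pd, ps]
        linarith
      · have ps := pl_eq_int g hM (a + b) (j + (w + 1) + j + 1) (r + s - M) (by omega) (by
          have h3 : M * (j + (w + 1) + j + 1) = M * (j + (w + 1)) + M * j + M := by ring
          omega)
        have hT : j + (w + 1) + 1 + (j + 1) ≤ T := by
          by_contra hcon
          have h1 : T ≤ j + (w + 1) + j + 1 := by omega
          have h2 : M * T ≤ M * (j + (w + 1) + j + 1) := Nat.mul_le_mul_left M h1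
          have h3 : M * (j + (w + 1) + j + 1) = M * (j + (w + 1)) + M * j + M := by ring
          omega
        have n1 := hnode (j + (w + 1) + 1) (by omega) (j + 1) (by omega) (by omega) hT
        rw [show j + (w + 1) + 1 - (j + 1) = w + 1 by omega] at n1
        have n1z : (D : ℤ) ≤ f (j + (w + 1) + 1) + f (j + 1) + g (w + 1)
            + g (j + (w + 1) + 1 + (j + 1)) := by exact_mod_cast n1
        rw [show j + (w + 1) + 1 + (j + 1) = j + (w + 1) + j + 1 + 1 by ring] at n1z
        have hMsr : s - r ≤ M := by omega
        push_cast [Nat.cast_sub hsr, Nat.cast_sub hrs, Nat.cast_sub hMsr] at pd ps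
        have hrsz : (M : ℤ) ≤ r + s := by exact_mod_cast hrs
        have hsrz : (r : ℤ) ≤ s := by exact_mod_cast hsr
        have hsM : (s : ℤ) ≤ M := by exact_mod_cast hs.le
        have m1 := mul_le_mul_of_nonneg_left n1z (sub_nonneg.mpr hrsz)
        have m2 := mul_le_mul_of_nonneg_left n2z (sub_nonneg.mpr hsrz)
        have m3 := mul_le_mul_of_nonneg_left hcenz (sub_nonneg.mpr hsM)
        zify
        rw [pa, pb, pd, ps]
        linarith

end Pool.Agent.Queens.Parity
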