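import Pool.Agent.Queens.ParitySums

set_option autoImplicit false

/-!
Residue class segments and the bishop covering lemma.
-/

namespace Pool.Agent.Queens.Parity

open Finset

/-- The numbers `c + q * j` with `-J ≤ j < J`. -/
noncomputable def cls (q c : ℤ) (J : ℕ) : Finset ℤ := (Ico (-(J : ℤ)) J).image fun j => c + q * j

theorem mem_cls {q c : ℤ} {J : ℕ} {x : ℤ} :
    x ∈ cls q c J ↔ ∃ j : ℤ, -(J : ℤ) ≤ j ∧ j < J ∧ x = c + q * j := by
  unfold cls
  simp only [mem_image, mem_Ico]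
  constructor
  · rintro ⟨j, ⟨h1, h2⟩, h3⟩
    exact ⟨j, h1, h2, h3.symm⟩
  · rintro ⟨j, h1, h2, h3⟩
    exact ⟨j, ⟨h1, h2⟩, h3.symm⟩

theorem card_cls {q : ℤ} (hq : q ≠ 0) (c : ℤ) (J : ℕ) : (cls q c J).card = 2 * J := by
  unfold cls
  rw [card_image_of_injective _ (by
    intro a b h
    have h' : q * a = q * b := by simpa using h
    exact mul_left_cancel₀ hq h'), Int.card_Ico]
  omega

theorem sum_Ico_sym (φ : ℤ → ℤ) (J : ℕ) :
    ∑ j ∈ Ico (-(J : ℤ)) J, φ j = ∑ i ∈ range J, (φ i + φ (-((i : ℤ) + 1))) := by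
  induction J with
  | zero => simp
  | succ J ih =>
    have h : Ico (-((J + 1 : ℕ) : ℤ)) ((J + 1 : ℕ) : ℤ)
        = insert (-((J : ℤ) + 1)) (insert (J : ℤ) (Ico (-(J : ℤ)) J)) := by
      ext x
      simp only [mem_insert, mem_Ico]
      push_cast
      omega
    rw [h, sum_insert, sum_insert, ih, sum_range_succ]
    · ring
    · simp
    · simp only [mem_insert, mem_Ico]
      omega

theorem sumsq_cls {q : ℤ} (hq : q ≠ 0) (c : ℤ) (J : ℕ) :
    3 * ∑ x ∈ cls q c J, x ^ 2 = 6 * J * c ^ 2 - 6 * c * q * J + q ^ 2 * J * (2 * J ^ 2 + 1) := by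
  unfold cls
  rw [sum_image (by
    intro a _ b _ h
    have h' : q * a = q * b := by simpa using h
    exact mul_left_cancel₀ hq h'), sum_Ico_sym]
  induction J with
  | zero => simp
  | succ J ih =>
    rw [sum_range_succ, mul_add, ih]
    push_cast
    ring

theorem cls_mono {q c : ℤ} {J J' : ℕ} (h : J ≤ J') : cls q c J ⊆ cls q c J' := by
  intro x hx
  obtain ⟨j, h1, h2, h3⟩ := mem_cls.mp hx
  exact mem_cls.mpr ⟨j, by omega, by omega, h3⟩

/-- Bishop covering lemma: `D` and `S` cover one colour class of an odd grid of points. -/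
theorem bishop {n : ℤ} {K : ℕ} (hK : 4 * (K : ℤ) + 3 < n) (a b : ℤ) (ha : a = 0 ∨ a = 4)
    (hb : b = a + 2) (D S EX EY : Finset ℤ)
    (hcov : ∀ x y : ℤ, |x| < n → |y| < n → x % 4 = 1 → y % 4 = 1 → x ∉ EX → y ∉ EY →
      y - x ∈ D ∨ y + x ∈ S) :
    ∃ J ≤ K, cls 8 a J ⊆ D ∧ ((cls 8 b (K - J)) \ S).card ≤ EX.card + EY.card := by
  classical
  set J := Nat.findGreatest (fun J => cls 8 a J ⊆ D) K with hJ
  have hJK : J ≤ K := Nat.findGreatest_le K
  have hJD : cls 8 a J ⊆ D := by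
    have : (fun J => cls 8 a J ⊆ D) J := by
      refine Nat.findGreatest_spec (P := fun J => cls 8 a J ⊆ D) (Nat.zero_le K) ?_
      intro x hx
      obtain ⟨j, h1, h2, _⟩ := mem_cls.mp hx
      simp at h1 h2
      omega
    exact this
  refine ⟨J, hJK, hJD, ?_⟩
  rcases Nat.lt_or_ge J K with hlt | hge
  · have hnot : ¬ cls 8 a (J + 1) ⊆ D := by
      intro h
      have := Nat.le_findGreatest (P := fun J => cls 8 a J ⊆ D) hlt h
      omega
    obtain ⟨d, hd, hdD⟩ := Finset.not_subset.mp hnot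
    obtain ⟨j, hj1, hj2, hj3⟩ := mem_cls.mp hd
    push_cast at hj1 hj2
    have hcast : ((K - J : ℕ) : ℤ) = (K : ℤ) - J := by push_cast [Nat.cast_sub hJK]; ring
    -- every uncovered sum gives an exceptional column or row
    have hsub : (cls 8 b (K - J)) \ S ⊆ EX.image (fun x => 2 * x + d) ∪ EY.image (fun y => 2 * y - d) := by
      intro s hs
      obtain ⟨hs1, hs2⟩ := mem_sdiff.mp hs
      obtain ⟨l, hl1, hl2, hl3⟩ := mem_cls.mp hs1
      rw [hcast] at hl1 hl2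
      by_contra hcon
      simp only [mem_union, mem_image, not_or, not_exists, not_and] at hcon
      have hx : (1 + 4 * (l - j)) ∉ EX := fun h => hcon.1 _ h (by omega)
      have hy : (a + 1 + 4 * (l + j)) ∉ EY := fun h => hcon.2 _ h (by omega)
      have := hcov (1 + 4 * (l - j)) (a + 1 + 4 * (l + j))
        (by rw [abs_lt]; omega) (by rw [abs_lt]; rcases ha with rfl | rfl <;> omega)
        (by omega) (by rcases ha with rfl | rfl <;> omega) hx hy
      rcases this with h | h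
      · apply hdD
        rw [hj3]
        convert h using 1
        ring
      · apply hs2
        rw [hl3]
        convert h using 1
        rw [hb]
        ring
    calc ((cls 8 b (K - J)) \ S).card ≤ _ := card_le_card hsub
      _ ≤ (EX.image (fun x => 2 * x + d)).card + (EY.image (fun y => 2 * y - d)).card :=
        card_union_le _ _
      _ ≤ EX.card + EY.card := add_le_add card_image_le card_image_le
  · have : K - J = 0 := by omega
    rw [this]
    have h0 : cls 8 b 0 = ∅ := by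
      ext x
      simp only [mem_cls, notMem_empty, iff_false, not_exists]
      rintro j ⟨h1, h2, _⟩
      simp at h1 h2
      omega
    rw [h0]
    simp

theorem abs_le_of_mem_cls {c : ℤ} (hc0 : 0 ≤ c) (hc8 : c < 8) {J : ℕ} {x : ℤ}
    (h : x ∈ cls 8 c J) : |x| ≤ 8 * J ∧ x % 8 = c := by
  obtain ⟨j, h1, h2, h3⟩ := mem_cls.mp h
  constructor
  · rw [abs_le]; omega
  · omega

theorem sumsq_le (A : Finset ℤ) (B : ℤ) (hA : ∀ x ∈ A, |x| ≤ B) :
    ∑ x ∈ A, x ^ 2 ≤ A.card * B ^ 2 := by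
  have : ∀ x ∈ A, x ^ 2 ≤ B ^ 2 := fun x hx => sq_le_sq' (by
    have := abs_le.mp (hA x hx); exact this.1) (abs_le.mp (hA x hx)).2
  calc ∑ x ∈ A, x ^ 2 ≤ ∑ _x ∈ A, B ^ 2 := sum_le_sum this
    _ = A.card * B ^ 2 := by simp

theorem sumsq_nonneg (A : Finset ℤ) : 0 ≤ ∑ x ∈ A, x ^ 2 := sum_nonneg fun x _ => sq_nonneg x

/-- Final counting step with the weights. -/
theorem final_count (n : ℤ) (M : ℕ) (hM : 0 < M) (hnM : n + 8 ≤ 26 * (M : ℤ)) (P : Finset (ℤ × ℤ))
    (cE cE' cO cO' : ℤ)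
    (hbox : ∀ p ∈ P, |p.1| < n ∧ |p.2| < n ∧ p.1 % 4 = 3 ∧ p.2 % 4 = 3)
    (inj1 : ∀ p ∈ P, ∀ q ∈ P, p.1 = q.1 → p = q)
    (inj2 : ∀ p ∈ P, ∀ q ∈ P, p.2 = q.2 → p = q)
    (injd : ∀ p ∈ P, ∀ q ∈ P, p.2 - p.1 = q.2 - q.1 → p = q)
    (injs : ∀ p ∈ P, ∀ q ∈ P, p.2 + p.1 = q.2 + q.1 → p = q)
    (htype : ∀ p ∈ P,
      ((p.2 - p.1) % 8 = cE ∧ (p.2 + p.1) % 8 = cE' ∧ |p.2 - p.1| + 8 < 42 * (M : ℤ) ∧
        |p.2 + p.1| + 8 < 42 * (M : ℤ)) ∨
      ((p.2 - p.1) % 8 = cO ∧ (p.2 + p.1) % 8 = cO' ∧ |p.2 - p.1| + 8 < 11 * (M : ℤ) ∧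
        |p.2 + p.1| + 8 < 11 * (M : ℤ))) :
    16000 * M * P.card ≤ 207754 * (M * M + M) + 384000 * P.card := by
  classical
  set PE := P.filter (fun p => (p.2 - p.1) % 8 = cE ∧ (p.2 + p.1) % 8 = cE' ∧
    |p.2 - p.1| + 8 < 42 * (M : ℤ) ∧ |p.2 + p.1| + 8 < 42 * (M : ℤ)) with hPE
  set PO := P.filter (fun p => ¬ ((p.2 - p.1) % 8 = cE ∧ (p.2 + p.1) % 8 = cE' ∧
    |p.2 - p.1| + 8 < 42 * (M : ℤ) ∧ |p.2 + p.1| + 8 < 42 * (M : ℤ))) with hPO
  have hPEsub : PE ⊆ P := filter_subset _ _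
  have hPOsub : PO ⊆ P := filter_subset _ _
  have hcard : P.card = PE.card + PO.card := (card_filter_add_card_filter_not _).symm
  have hPO' : ∀ p ∈ PO, ((p.2 - p.1) % 8 = cO ∧ (p.2 + p.1) % 8 = cO' ∧
      |p.2 - p.1| + 8 < 11 * (M : ℤ) ∧ |p.2 + p.1| + 8 < 11 * (M : ℤ)) := by
    intro p hp
    obtain ⟨h1, h2⟩ := mem_filter.mp hp
    exact (htype p h1).resolve_left h2
  have hPE' : ∀ p ∈ PE, ((p.2 - p.1) % 8 = cE ∧ (p.2 + p.1) % 8 = cE' ∧
      |p.2 - p.1| + 8 < 42 * (M : ℤ) ∧ |p.2 + p.1| + 8 < 42 * (M : ℤ)) := fun p hp => (mem_filter.mp hp).2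
  -- pointwise bound
  have ptw : ∀ (g : ℕ → ℕ) (Tg : ℕ),
      (∀ i < 26 + 1, ∀ j < 26 + 1, j ≤ i → i + j ≤ Tg →
        2000 ≤ fF i + fF j + g (i - j) + g (i + j)) →
      (∀ i < 26, ∀ j < 26, j ≤ i → i + j + 1 ≤ Tg →
        2 * 2000 ≤ fF i + fF (i + 1) + fF j + fF (j + 1) + 2 * (g (i - j) + g (i + j + 1))) →
      ∀ p ∈ P, |p.2 - p.1| + 8 < Tg * (M : ℤ) → |p.2 + p.1| + 8 < Tg * (M : ℤ) →
      2000 * M ≤ pl fF M p.1.natAbs + pl fF M p.2.natAbs + pl g M (p.2 - p.1).natAbs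
        + pl g M (p.2 + p.1).natAbs := by
    intro g Tg hn hc p hp hd hs
    obtain ⟨h1, h2, _, _⟩ := hbox p hp
    have aux : ∀ a b : ℕ, b ≤ a → (a : ℤ) < n → ((a + b : ℕ) : ℤ) < Tg * (M : ℤ) →
        2000 * M ≤ pl fF M a + pl fF M b + pl g M (a - b) + pl g M (a + b) := by
      intro a b hba han hab
      refine pointwise fF g 26 Tg 2000 M hM hn hc a b hba ?_ ?_
      · zify; linarith
      · zify; push_cast at hab; linarith
    rcases Nat.le_total p.2.natAbs p.1.natAbs with hle | hle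
    · have ha := aux p.1.natAbs p.2.natAbs hle (by rw [Int.natCast_natAbs]; exact h1) (by
        have : ((p.1.natAbs + p.2.natAbs : ℕ) : ℤ) ≤ max |p.2 - p.1| |p.2 + p.1| := by
          push_cast
          rcases abs_cases p.1 with ⟨e1, _⟩ | ⟨e1, _⟩ <;> rcases abs_cases p.2 with ⟨e2, _⟩ | ⟨e2, _⟩ <;>
          rw [e1, e2] <;>
          rcases abs_cases (p.2 - p.1) with ⟨e3, _⟩ | ⟨e3, _⟩ <;>
          rcases abs_cases (p.2 + p.1) with ⟨e4, _⟩ | ⟨e4, _⟩ <;>
          rw [e3, e4] <;> omega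
        have h3 : max |p.2 - p.1| |p.2 + p.1| < Tg * (M : ℤ) := max_lt (by omega) (by omega)
        omega)
      have hcase : ((p.2 - p.1).natAbs = p.1.natAbs - p.2.natAbs ∧
            (p.2 + p.1).natAbs = p.1.natAbs + p.2.natAbs) ∨
          ((p.2 - p.1).natAbs = p.1.natAbs + p.2.natAbs ∧
            (p.2 + p.1).natAbs = p.1.natAbs - p.2.natAbs) := by omega
      rcases hcase with ⟨e1, e2⟩ | ⟨e1, e2⟩ <;> rw [e1, e2] <;> omega
    · have ha := aux p.2.natAbs p.1.natAbs hle (by rw [Int.natCast_natAbs]; exact h2) (by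
        have : ((p.2.natAbs + p.1.natAbs : ℕ) : ℤ) ≤ max |p.2 - p.1| |p.2 + p.1| := by
          push_cast
          rcases abs_cases p.1 with ⟨e1, _⟩ | ⟨e1, _⟩ <;> rcases abs_cases p.2 with ⟨e2, _⟩ | ⟨e2, _⟩ <;>
          rw [e1, e2] <;>
          rcases abs_cases (p.2 - p.1) with ⟨e3, _⟩ | ⟨e3, _⟩ <;>
          rcases abs_cases (p.2 + p.1) with ⟨e4, _⟩ | ⟨e4, _⟩ <;>
          rw [e3, e4] <;> omega
        have h3 : max |p.2 - p.1| |p.2 + p.1| < Tg * (M : ℤ) := max_lt (by omega) (by omega)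
        omega)
      have hcase : ((p.2 - p.1).natAbs = p.2.natAbs - p.1.natAbs ∧
            (p.2 + p.1).natAbs = p.2.natAbs + p.1.natAbs) ∨
          ((p.2 - p.1).natAbs = p.2.natAbs + p.1.natAbs ∧
            (p.2 + p.1).natAbs = p.2.natAbs - p.1.natAbs) := by omega
      rcases hcase with ⟨e1, e2⟩ | ⟨e1, e2⟩ <;> rw [e1, e2] <;> omega
  have ptE : ∀ p ∈ PE, 2000 * M ≤ pl fF M p.1.natAbs + pl fF M p.2.natAbs
      + (pl gE M (p.2 - p.1).natAbs + pl gE M (p.2 + p.1).natAbs) := by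
    intro p hp
    have h := hPE' p hp
    have := ptw gE 42 nodeE centerE p (hPEsub hp) (by exact_mod_cast h.2.2.1)
      (by exact_mod_cast h.2.2.2)
    omega
  have ptO : ∀ p ∈ PO, 2000 * M ≤ pl fF M p.1.natAbs + pl fF M p.2.natAbs
      + (pl gO M (p.2 - p.1).natAbs + pl gO M (p.2 + p.1).natAbs) := by
    intro p hp
    have h := hPO' p hp
    have := ptw gO 11 nodeO centerO p (hPOsub hp) (by exact_mod_cast h.2.2.1)
      (by exact_mod_cast h.2.2.2)
    omega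
  have sE := sum_le_sum ptE
  have sO := sum_le_sum ptO
  simp only [sum_add_distrib, sum_const, smul_eq_mul] at sE sO
  have s1 : ∑ p ∈ PE, pl fF M p.1.natAbs + ∑ p ∈ PO, pl fF M p.1.natAbs
      = ∑ p ∈ P, pl fF M p.1.natAbs := sum_filter_add_sum_filter_not P _ _
  have s2 : ∑ p ∈ PE, pl fF M p.2.natAbs + ∑ p ∈ PO, pl fF M p.2.natAbs
      = ∑ p ∈ P, pl fF M p.2.natAbs := sum_filter_add_sum_filter_not P _ _
  have f1 := family_sum fF hM fF_le 4 26 3 (by norm_num) P (fun p => p.1) inj1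
    (fun p hp => (hbox p hp).2.2.1) (fun p hp => by
      have := (hbox p hp).1
      zify
      linarith)
  have f2 := family_sum fF hM fF_le 4 26 3 (by norm_num) P (fun p => p.2) inj2
    (fun p hp => (hbox p hp).2.2.2) (fun p hp => by
      have := (hbox p hp).2.1
      zify
      linarith)
  have e1 := family_sum gE hM gE_le 8 42 cE (by norm_num) PE (fun p => p.2 - p.1)
    (fun p hp q hq h => injd p (hPEsub hp) q (hPEsub hq) h)
    (fun p hp => (hPE' p hp).1) (fun p hp => by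
      have := (hPE' p hp).2.2.1
      zify
      linarith)
  have e2 := family_sum gE hM gE_le 8 42 cE' (by norm_num) PE (fun p => p.2 + p.1)
    (fun p hp q hq h => injs p (hPEsub hp) q (hPEsub hq) h)
    (fun p hp => (hPE' p hp).2.1) (fun p hp => by
      have := (hPE' p hp).2.2.2
      zify
      linarith)
  have o1 := family_sum gO hM gO_le 8 11 cO (by norm_num) PO (fun p => p.2 - p.1)
    (fun p hp q hq h => injd p (hPOsub hp) q (hPOsub hq) h)
    (fun p hp => (hPO' p hp).1) (fun p hp => by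
      have := (hPO' p hp).2.2.1
      zify
      linarith)
  have o2 := family_sum gO hM gO_le 8 11 cO' (by norm_num) PO (fun p => p.2 + p.1)
    (fun p hp q hq h => injs p (hPOsub hp) q (hPOsub hq) h)
    (fun p hp => (hPO' p hp).2.1) (fun p hp => by
      have := (hPO' p hp).2.2.2
      zify
      linarith)
  have tw := total_weight
  set wF := ∑ i ∈ range 26, (fF i + fF (i + 1))
  set wE := ∑ i ∈ range 42, (gE i + gE (i + 1))
  set wO := ∑ i ∈ range 11, (gO i + gO (i + 1))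
  have tw2 : (M * M + M) * (4 * wF + 2 * wE + 2 * wO) = (M * M + M) * 207754 := by rw [tw]
  rw [hcard] at f1 f2 ⊢
  nlinarith
end Pool.Agent.Queens.Parity
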