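import Pool.Agent.Queens.ParityCert

set_option autoImplicit false

/-!
Upper bounds for sums of piecewise linear weights over sparse sets of lines.
-/

namespace Pool.Agent.Queens.Parity

open Finset

/-- A set of numbers in one residue class mod `q`: `q` times the sum is at most the full sum. -/
theorem block_sum (φ : ℕ → ℕ) (q T Λ c : ℕ) (A : Finset ℕ)
    (hA : ∀ x ∈ A, x % q = c) (hT : ∀ x ∈ A, x < T)
    (hφ : ∀ x, ∀ j < q, φ x ≤ φ (x + j) + Λ) :
    q * ∑ x ∈ A, φ x ≤ ∑ y ∈ range (T + q), φ y + q * Λ * A.card := by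
  have h1 : q * ∑ x ∈ A, φ x ≤ ∑ x ∈ A, ∑ j ∈ range q, (φ (x + j) + Λ) := by
    rw [mul_sum]
    refine sum_le_sum fun x _ => ?_
    have : q * φ x = ∑ _j ∈ range q, φ x := by simp
    rw [this]
    exact sum_le_sum fun j hj => hφ x j (mem_range.mp hj)
  have h2 : ∑ x ∈ A, ∑ j ∈ range q, (φ (x + j) + Λ)
      = ∑ p ∈ A ×ˢ range q, φ (p.1 + p.2) + q * Λ * A.card := by
    rw [sum_product]
    simp_rw [sum_add_distrib]
    rw [← sum_product']
    simp
    ring
  have h3 : ∑ p ∈ A ×ˢ range q, φ (p.1 + p.2) ≤ ∑ y ∈ range (T + q), φ y := by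
    have hinj : Set.InjOn (fun p : ℕ × ℕ => p.1 + p.2) ((A ×ˢ range q : Finset (ℕ × ℕ)) : Set (ℕ × ℕ)) := by
      intro p hp p' hp' h
      simp only [coe_product, Set.mem_prod, mem_coe, mem_range] at hp hp' h
      have e1 : p.1 % q = p'.1 % q := by rw [hA _ hp.1, hA _ hp'.1]
      have hq : 0 < q := by omega
      have a1 := Nat.div_add_mod p.1 q
      have a2 := Nat.div_add_mod p'.1 q
      have a3 : q * (p.1 / q) + p.2 = q * (p'.1 / q) + p'.2 := by omega
      have a4 : p.2 = p'.2 := by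
        have b1 : (q * (p.1 / q) + p.2) % q = p.2 := by
          rw [Nat.mul_add_mod, Nat.mod_eq_of_lt hp.2]
        have b2 : (q * (p'.1 / q) + p'.2) % q = p'.2 := by
          rw [Nat.mul_add_mod, Nat.mod_eq_of_lt hp'.2]
        rw [← b1, ← b2, a3]
      exact Prod.ext (by omega) a4
    rw [← sum_image (f := φ) hinj]
    refine sum_le_sum_of_subset ?_
    intro y hy
    simp only [mem_image, mem_product, mem_range] at hy ⊢
    obtain ⟨p, ⟨hp1, hp2⟩, rfl⟩ := hy
    have := hT _ hp1
    omega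
  omega

theorem pl_step (f : ℕ → ℕ) {M B : ℕ} (hM : 0 < M) (hf : ∀ q, f q ≤ B) (x : ℕ) :
    pl f M x ≤ pl f M (x + 1) + B := by
  obtain ⟨i, r, hr, hx⟩ : ∃ i r, r < M ∧ x = M * i + r :=
    ⟨x / M, x % M, Nat.mod_lt _ hM, (Nat.div_add_mod x M).symm⟩
  have h1 := pl_eq f hM i r hr.le
  have h2 := pl_eq f hM i (r + 1) hr
  rw [hx, h1, show M * i + r + 1 = M * i + (r + 1) by ring, h2]
  have h3 : M - r = (M - (r + 1)) + 1 := by omega
  rw [h3]
  have := hf i
  nlinarith [Nat.zero_le (f (i + 1))]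

theorem pl_lip (f : ℕ → ℕ) {M B : ℕ} (hM : 0 < M) (hf : ∀ q, f q ≤ B) (x j : ℕ) :
    pl f M x ≤ pl f M (x + j) + j * B := by
  induction j with
  | zero => simp
  | succ j ih =>
    have := pl_step f hM hf (x + j)
    rw [show x + j + 1 = x + (j + 1) by ring] at this
    linarith

theorem sum_lin (a b M : ℕ) : 2 * ∑ r ∈ range M, ((M - r) * a + r * b)
    = M * (M + 1) * a + M * (M - 1) * b := by
  rw [sum_add_distrib, ← sum_mul, ← sum_mul]
  have h1 : (∑ r ∈ range M, r) * 2 = M * (M - 1) := Finset.sum_range_id_mul_two M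
  have h2 : (∑ r ∈ range M, (M - r)) * 2 = M * (M + 1) := by
    have e : ∑ r ∈ range M, (M - r) = ∑ r ∈ range M, (r + 1) := by
      rw [← Finset.sum_range_reflect]
      refine sum_congr rfl fun r hr => ?_
      have := mem_range.mp hr
      omega
    rw [e, sum_add_distrib, add_mul, h1]
    simp
    rcases M with _ | M
    · simp
    · simp; ring
  have : 2 * ((∑ i ∈ range M, (M - i)) * a + (∑ i ∈ range M, i) * b)
      = ((∑ i ∈ range M, (M - i)) * 2) * a + ((∑ i ∈ range M, i) * 2) * b := by ring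
  rw [this, h1, h2]

theorem sum_pl (f : ℕ → ℕ) {M : ℕ} (hM : 0 < M) (G : ℕ) :
    2 * ∑ y ∈ range (M * G), pl f M y ≤ (M * M + M) * ∑ i ∈ range G, (f i + f (i + 1)) := by
  induction G with
  | zero => simp
  | succ G ih =>
    rw [show M * (G + 1) = M * G + M by ring, sum_range_add, mul_add, sum_range_succ, mul_add]
    have h1 : 2 * ∑ x ∈ range M, pl f M (M * G + x)
        = M * (M + 1) * f G + M * (M - 1) * f (G + 1) := by
      rw [← sum_lin]
      congr 1
      refine sum_congr rfl fun r hr => ?_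
      exact pl_eq f hM G r (mem_range.mp hr).le
    rw [h1]
    have h2 : M * (M - 1) * f (G + 1) ≤ (M * M + M) * f (G + 1) := by
      refine Nat.mul_le_mul_right _ ?_
      have : M * (M - 1) ≤ M * M := Nat.mul_le_mul_left M (Nat.sub_le _ _)
      omega
    have h3 : M * (M + 1) * f G = (M * M + M) * f G := by ring
    nlinarith

theorem fF_le : ∀ i, fF i ≤ 2000 := by
  intro i
  by_cases h : i < 27
  · have : ∀ i < 27, fF i ≤ 2000 := by decide +kernel
    exact this i h
  · have : fF i = 0 := by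
      unfold fF
      rw [List.getD_eq_default]
      simp [tabF]; omega
    omega

theorem gE_le : ∀ i, gE i ≤ 2000 := by
  intro i
  by_cases h : i < 43
  · have : ∀ i < 43, gE i ≤ 2000 := by decide +kernel
    exact this i h
  · have : gE i = 0 := by
      unfold gE
      rw [List.getD_eq_default]
      simp [tabE]; omega
    omega

theorem gO_le : ∀ i, gO i ≤ 2000 := by
  intro i
  by_cases h : i < 12
  · have : ∀ i < 12, gO i ≤ 2000 := by decide +kernel
    exact this i h
  · have : gO i = 0 := by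
      unfold gO
      rw [List.getD_eq_default]
      simp [tabO]; omega
    omega

theorem total_weight :
    4 * ∑ i ∈ range 26, (fF i + fF (i + 1)) + 2 * ∑ i ∈ range 42, (gE i + gE (i + 1))
      + 2 * ∑ i ∈ range 11, (gO i + gO (i + 1)) = 207754 := by
  decide +kernel

/-- Sum of a weight over a family of lines indexed injectively, all in one class mod `q`. -/
theorem family_sum {ι : Type*} [DecidableEq ι] (f : ℕ → ℕ) {M : ℕ} (hM : 0 < M)
    (hf : ∀ q, f q ≤ 2000) (q G : ℕ) (c : ℤ) (hq : 0 < q) (P : Finset ι) (ℓ : ι → ℤ)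
    (hinj : ∀ p ∈ P, ∀ p' ∈ P, ℓ p = ℓ p' → p = p')
    (hmod : ∀ p ∈ P, ℓ p % q = c) (hlt : ∀ p ∈ P, (ℓ p).natAbs + q < M * G) :
    q * ∑ p ∈ P, pl f M (ℓ p).natAbs ≤
      (M * M + M) * ∑ i ∈ range G, (f i + f (i + 1)) + q * (q * 2000) * P.card := by
  classical
  -- one sign at a time
  have key : ∀ P' : Finset ι, P' ⊆ P → (∃ c', ∀ p ∈ P', (ℓ p).natAbs % q = c') →
      (∀ p ∈ P', ∀ p' ∈ P', (ℓ p).natAbs = (ℓ p').natAbs → ℓ p = ℓ p') →
      2 * (q * ∑ p ∈ P', pl f M (ℓ p).natAbs) ≤
        (M * M + M) * ∑ i ∈ range G, (f i + f (i + 1)) + 2 * (q * (q * 2000) * P'.card) := by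
    intro P' hsub ⟨c', hc'⟩ hinj'
    rcases P'.eq_empty_or_nonempty with he | hne
    · subst he; simp
    have hMG : q < M * G := by
      obtain ⟨p, hp⟩ := hne
      have := hlt p (hsub hp)
      omega
    have hinjOn : Set.InjOn (fun p => (ℓ p).natAbs) (P' : Set ι) := by
      intro p hp p' hp' h
      exact hinj p (hsub hp) p' (hsub hp') (hinj' p hp p' hp' h)
    have h1 := block_sum (pl f M) q (M * G - q) (q * 2000) c' (P'.image fun p => (ℓ p).natAbs)
      (by
        intro x hx
        obtain ⟨p, hp, rfl⟩ := mem_image.mp hx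
        exact hc' p hp)
      (by
        intro x hx
        obtain ⟨p, hp, rfl⟩ := mem_image.mp hx
        have := hlt p (hsub hp)
        omega)
      (by
        intro x j hj
        refine (pl_lip f hM hf x j).trans ?_
        have : j * 2000 ≤ q * 2000 := Nat.mul_le_mul_right _ hj.le
        omega)
    rw [sum_image hinjOn, card_image_of_injOn hinjOn, Nat.sub_add_cancel hMG.le] at h1
    have h2 := sum_pl f hM G
    omega
  have hsplit : P = P.filter (fun p => 0 ≤ ℓ p) ∪ P.filter (fun p => ¬ 0 ≤ ℓ p) :=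
    (filter_union_filter_not_eq _ P).symm
  have hdisj : Disjoint (P.filter (fun p => 0 ≤ ℓ p)) (P.filter (fun p => ¬ 0 ≤ ℓ p)) :=
    disjoint_filter_filter_not _ _ _
  have kp := key (P.filter (fun p => 0 ≤ ℓ p)) (filter_subset _ _)
    ⟨c.toNat, by
      intro p hp
      obtain ⟨hp, h0⟩ := mem_filter.mp hp
      have := hmod p hp
      zify
      rw [Int.toNat_of_nonneg (by rw [← this]; exact Int.emod_nonneg _ (by omega))]
      rw [abs_of_nonneg h0]
      exact this⟩
    (by
      intro p hp p' hp' h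
      have h0 := (mem_filter.mp hp).2
      have h0' := (mem_filter.mp hp').2
      omega)
  have kn := key (P.filter (fun p => ¬ 0 ≤ ℓ p)) (filter_subset _ _)
    ⟨((-c) % q).toNat, by
      intro p hp
      obtain ⟨hp, h0⟩ := mem_filter.mp hp
      have := hmod p hp
      zify
      rw [Int.toNat_of_nonneg (Int.emod_nonneg _ (by omega))]
      rw [abs_of_nonpos (by omega)]
      rw [← this]
      exact (Int.mod_modEq (ℓ p) q).symm.neg⟩
    (by
      intro p hp p' hp' h
      have h0 := (mem_filter.mp hp).2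
      have h0' := (mem_filter.mp hp').2
      omega)
  have hs : ∑ p ∈ P, pl f M (ℓ p).natAbs
      = ∑ p ∈ P.filter (fun p => 0 ≤ ℓ p), pl f M (ℓ p).natAbs
        + ∑ p ∈ P.filter (fun p => ¬ 0 ≤ ℓ p), pl f M (ℓ p).natAbs :=
    (sum_filter_add_sum_filter_not P _ _).symm
  have hc : P.card = (P.filter (fun p => 0 ≤ ℓ p)).card + (P.filter (fun p => ¬ 0 ≤ ℓ p)).card :=
    (card_filter_add_card_filter_not _).symm
  rw [hs, hc]
  nlinarith

end Pool.Agent.Queens.Parity
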