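import Pool.Agent.Queens.ParityMain

set_option autoImplicit false

/-!
The parity case in the coordinates of the frozen statement.
-/

namespace Pool.Agent.Queens.Parity

open Finset

/-- Centred doubled coordinate with a sign. -/
def ctr (s : ℤ) (n x : ℕ) : ℤ := s * (2 * (x : ℤ) - (n - 1))

theorem ctr_inj {s : ℤ} (hs : s = 1 ∨ s = -1) {n x y : ℕ} (h : ctr s n x = ctr s n y) : x = y := by
  unfold ctr at h
  rcases hs with rfl | rfl <;> omega

theorem parity_case_aux {n : ℕ} (hn : 5000000 ≤ n) (hev : n % 2 = 0) (S : Finset (ℕ × ℕ))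
    (hS : S ⊆ range n ×ˢ range n)
    (hind : ∀ p ∈ S, ∀ q ∈ S, p ≠ q →
      ¬ (p.1 = q.1 ∨ p.2 = q.2 ∨ p.1 + p.2 = q.1 + q.2 ∨ p.1 + q.2 = q.1 + p.2))
    (hdom : ∀ x ∈ range n ×ˢ range n, x ∈ S ∨
      ∃ q ∈ S, x.1 = q.1 ∨ x.2 = q.2 ∨ x.1 + x.2 = q.1 + q.2 ∨ x.1 + q.2 = q.1 + x.2)
    (hcard : S.card ≤ (n + 1) / 2 + 1) (s t : ℤ) (hs : s = 1 ∨ s = -1) (ht : t = 1 ∨ t = -1)
    (hX : ∀ x < n, (∀ p ∈ S, p.1 ≠ x) → ctr s n x % 4 = 1)
    (hY : ∀ y < n, (∀ p ∈ S, p.2 ≠ y) → ctr t n y % 4 = 1) : False := by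
  classical
  set f : ℕ × ℕ → ℤ × ℤ := fun p => (ctr s n p.1, ctr t n p.2) with hf
  have hbox : ∀ p ∈ S, p.1 < n ∧ p.2 < n := by
    intro p hp
    have := hS hp
    rw [mem_product, mem_range, mem_range] at this
    exact this
  have hsurj : ∀ (s : ℤ), (s = 1 ∨ s = -1) → ∀ x : ℤ, |x| < n → x % 2 = 1 →
      ∃ x' < n, ctr s n x' = x := by
    intro s hs x hx hx2
    rw [abs_lt] at hx
    refine ⟨((s * x + (n - 1)) / 2).toNat, ?_, ?_⟩
    · rcases hs with rfl | rfl <;> omega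
    · unfold ctr
      rcases hs with rfl | rfl <;> omega
  refine no_cfg n (by exact_mod_cast hn) (by omega) (S.image f) ⟨?_, ?_, ?_, ?_, ?_, ?_, ?_, ?_, ?_⟩
  · intro p hp
    obtain ⟨q, hq, rfl⟩ := mem_image.mp hp
    obtain ⟨h1, h2⟩ := hbox q hq
    simp only [hf, ctr]
    constructor
    · rw [abs_lt]; rcases hs with rfl | rfl <;> constructor <;> omega
    · rw [abs_lt]; rcases ht with rfl | rfl <;> constructor <;> omega
  · intro p hp q hq h
    obtain ⟨p', hp', rfl⟩ := mem_image.mp hp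
    obtain ⟨q', hq', rfl⟩ := mem_image.mp hq
    have h1 : p'.1 = q'.1 := ctr_inj hs h
    by_contra hne
    exact hind p' hp' q' hq' (fun e => hne (by rw [e])) (Or.inl h1)
  · intro p hp q hq h
    obtain ⟨p', hp', rfl⟩ := mem_image.mp hp
    obtain ⟨q', hq', rfl⟩ := mem_image.mp hq
    have h1 : p'.2 = q'.2 := ctr_inj ht h
    by_contra hne
    exact hind p' hp' q' hq' (fun e => hne (by rw [e])) (Or.inr (Or.inl h1))
  · intro p hp q hq h
    obtain ⟨p', hp', rfl⟩ := mem_image.mp hp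
    obtain ⟨q', hq', rfl⟩ := mem_image.mp hq
    by_contra hne
    refine hind p' hp' q' hq' (fun e => hne (by rw [e])) ?_
    simp only [hf, ctr] at h
    rcases hs with rfl | rfl <;> rcases ht with rfl | rfl <;> omega
  · intro p hp q hq h
    obtain ⟨p', hp', rfl⟩ := mem_image.mp hp
    obtain ⟨q', hq', rfl⟩ := mem_image.mp hq
    by_contra hne
    refine hind p' hp' q' hq' (fun e => hne (by rw [e])) ?_
    simp only [hf, ctr] at h
    rcases hs with rfl | rfl <;> rcases ht with rfl | rfl <;> omega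
  · intro x y hx hy hx1 hy1
    obtain ⟨x', hx', rfl⟩ := hsurj s hs x hx (by omega)
    obtain ⟨y', hy', rfl⟩ := hsurj t ht y hy (by omega)
    rcases hdom (x', y') (by rw [mem_product, mem_range, mem_range]; exact ⟨hx', hy'⟩) with h | h
    · exact ⟨f (x', y'), mem_image_of_mem _ h, Or.inl rfl⟩
    · obtain ⟨q, hq, h⟩ := h
      refine ⟨f q, mem_image_of_mem _ hq, ?_⟩
      simp only [hf, ctr]
      simp only at h
      rcases h with h | h | h | h
      · left; rw [h]
      · right; left; rw [h]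
      · right; right
        rcases hs with rfl | rfl <;> rcases ht with rfl | rfl <;> omega
      · right; right
        rcases hs with rfl | rfl <;> rcases ht with rfl | rfl <;> omega
  · have h1 : (S.image f).card ≤ S.card := card_image_le
    omega
  · intro x hx hx3
    obtain ⟨x', hx', rfl⟩ := hsurj s hs x hx (by omega)
    by_contra hcon
    push Not at hcon
    have := hX x' hx' (fun p hp e => hcon (f p) (mem_image_of_mem _ hp) (by simp only [hf]; rw [e]))
    omega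
  · intro y hy hy3
    obtain ⟨y', hy', rfl⟩ := hsurj t ht y hy (by omega)
    by_contra hcon
    push Not at hcon
    have := hY y' hy' (fun p hp e => hcon (f p) (mem_image_of_mem _ hp) (by simp only [hf]; rw [e]))
    omega

/-- The parity case: if all empty columns have the same parity and all empty rows have the same
parity then there is no independent dominating set of at most `n / 2 + 1` queens. -/
theorem parity_case {n : ℕ} (hn : 5000000 ≤ n) (hev : n % 2 = 0) (S : Finset (ℕ × ℕ))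
    (hS : S ⊆ range n ×ˢ range n)
    (hind : ∀ p ∈ S, ∀ q ∈ S, p ≠ q →
      ¬ (p.1 = q.1 ∨ p.2 = q.2 ∨ p.1 + p.2 = q.1 + q.2 ∨ p.1 + q.2 = q.1 + p.2))
    (hdom : ∀ x ∈ range n ×ˢ range n, x ∈ S ∨
      ∃ q ∈ S, x.1 = q.1 ∨ x.2 = q.2 ∨ x.1 + x.2 = q.1 + q.2 ∨ x.1 + q.2 = q.1 + x.2)
    (hcard : S.card ≤ (n + 1) / 2 + 1) (a b : ℕ)
    (hX : ∀ x < n, (∀ p ∈ S, p.1 ≠ x) → x % 2 = a)
    (hY : ∀ y < n, (∀ p ∈ S, p.2 ≠ y) → y % 2 = b) : False := by
  have key : ∀ a : ℕ, ∃ s : ℤ, (s = 1 ∨ s = -1) ∧ ∀ x : ℕ, x % 2 = a → ctr s n x % 4 = 1 := by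
    intro a
    by_cases h : (a + n / 2) % 2 = 0
    · exact ⟨1, Or.inl rfl, fun x hx => by unfold ctr; omega⟩
    · exact ⟨-1, Or.inr rfl, fun x hx => by unfold ctr; omega⟩
  obtain ⟨s, hs, hs'⟩ := key a
  obtain ⟨t, ht, ht'⟩ := key b
  exact parity_case_aux hn hev S hS hind hdom hcard s t hs ht
    (fun x hx h => hs' x (hX x hx h)) (fun y hy h => ht' y (hY y hy h))

end Pool.Agent.Queens.Parity
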