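import Pool.Agent.Queens.Cov

set_option autoImplicit false

/-!
Periodicity with few breaks from exactness on three columns.
-/

namespace Pool.Agent.Queens

open Finset

/-- A bounded function whose `r`-difference is `L`-periodic on a long interval is `L * r`-periodic
there. -/
theorem per_of_diff (f : ℤ → ℤ) (u v : ℤ) (L r B : ℕ) (hL : 0 < L) (hr : 0 < r)
    (hf : ∀ y, u ≤ y → y ≤ v → |f y| ≤ B)
    (hd : ∀ y, u ≤ y → y + L + r ≤ v → f (y + L + r) - f (y + L) = f (y + r) - f y)
    (hlen : u + (2 * B + 2) * (L * r) ≤ v) :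
    ∀ y, u ≤ y → y + L * r ≤ v → f (y + L * r) = f y := by
  have hP : (0 : ℤ) < (L : ℤ) * r := by positivity
  have hr' : (0 : ℤ) < r := by exact_mod_cast hr
  have hL' : (0 : ℤ) < L := by exact_mod_cast hL
  -- claim 1
  have c1 : ∀ (m : ℕ) (z : ℤ), u ≤ z → z + m * L + r ≤ v →
      f (z + m * L + r) - f (z + m * L) = f (z + r) - f z := by
    intro m
    induction m with
    | zero => intro z _ _; simp
    | succ m ih =>
      intro z hz hzv
      have h1 : z + m * L + L + r ≤ v := by push_cast at hzv; linarith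
      have h0 : (0 : ℤ) ≤ m * L := by positivity
      have h2 := hd (z + m * L) (by linarith) h1
      have h3 := ih z hz (by linarith)
      have e : z + ((m + 1 : ℕ) : ℤ) * L = z + m * L + L := by push_cast; ring
      rw [e, h2, h3]
  -- claim 2
  have c2 : ∀ (y : ℤ) (k : ℕ), k ≤ L → u ≤ y → y + 2 * (L * r) ≤ v →
      f (y + L * r + k * r) - f (y + L * r) = f (y + k * r) - f y := by
    intro y k
    induction k with
    | zero => intro _ _ _; simp
    | succ k ih =>
      intro hk hy hyv
      have h1 := ih (by omega) hy hyv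
      have hk' : ((k : ℤ) + 1) * r ≤ L * r := by
        have : ((k : ℤ) + 1) ≤ L := by exact_mod_cast hk
        exact mul_le_mul_of_nonneg_right this hr'.le
      have h0 : (0 : ℤ) ≤ k * r := by positivity
      have h2 := c1 r (y + k * r) (by linarith) (by
        have : (r : ℤ) * L = L * r := mul_comm _ _
        rw [this]; linarith)
      have e1 : y + L * r + ((k + 1 : ℕ) : ℤ) * r = y + k * r + r * L + r := by push_cast; ring
      have e2 : y + ((k + 1 : ℕ) : ℤ) * r = y + k * r + r := by push_cast; ring
      have e3 : y + L * r + k * r = y + k * r + r * L := by ring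
      rw [e1, e2]
      rw [e3] at h1
      linarith
  -- claim 3: second difference
  have c3 : ∀ y, u ≤ y → y + 2 * (L * r) ≤ v →
      f (y + L * r + L * r) - f (y + L * r) = f (y + L * r) - f y :=
    fun y h1 h2 => c2 y L le_rfl h1 h2
  have c4 : ∀ (s : ℕ) (y : ℤ), u ≤ y → y + (s + 1) * (L * r) ≤ v →
      f (y + (s + 1) * (L * r)) - f (y + s * (L * r)) = f (y + L * r) - f y := by
    intro s
    induction s with
    | zero => intro y _ _; simp
    | succ s ih =>
      intro y hy hyv
      have h0 : (0 : ℤ) ≤ s * (L * r) := by positivity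
      push_cast at hyv ⊢
      have h1 := ih y hy (by linarith)
      have h2 := c3 (y + s * (L * r)) (by linarith) (by linarith)
      have e1 : y + ((s : ℤ) + 1 + 1) * (L * r) = y + s * (L * r) + L * r + L * r := by ring
      have e2 : y + ((s : ℤ) + 1) * (L * r) = y + s * (L * r) + L * r := by ring
      rw [e1, e2]
      rw [e2] at h1
      linarith
  have c5 : ∀ (s : ℕ) (y : ℤ), u ≤ y → y + s * (L * r) ≤ v →
      f (y + s * (L * r)) - f y = s * (f (y + L * r) - f y) := by
    intro s
    induction s with
    | zero => intro y _ _; simp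
    | succ s ih =>
      intro y hy hyv
      push_cast at hyv ⊢
      have h1 := ih y hy (by linarith)
      have h2 := c4 s y hy hyv
      linarith
  intro y hy hyv
  -- go back to the start
  set P : ℤ := (L : ℤ) * r with hPdef
  obtain ⟨s, hs⟩ : ∃ s : ℕ, (s : ℤ) = (y - u) / P :=
    ⟨((y - u) / P).toNat, Int.toNat_of_nonneg (Int.ediv_nonneg (by linarith) hP.le)⟩
  have hs1 : (s : ℤ) * P ≤ y - u := by rw [hs]; exact Int.ediv_mul_le _ hP.ne'
  have hs2 : y - u < ((s : ℤ) + 1) * P := by rw [hs]; exact Int.lt_ediv_add_one_mul_self _ hP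
  set y0 := y - s * P with hy0
  have hy0u : u ≤ y0 := by rw [hy0]; linarith
  have hy0v : y0 < u + P := by rw [hy0]; linarith
  have h1 := c4 s y0 hy0u (by rw [hy0]; linarith)
  have e1 : y0 + s * P = y := by rw [hy0]; ring
  have e2 : y0 + (s + 1) * P = y + P := by rw [hy0]; ring
  rw [e1, e2] at h1
  have h2 := c5 (2 * B + 1) y0 hy0u (by push_cast; linarith)
  push_cast at h2
  have h3 : |f (y0 + (2 * B + 1) * P)| ≤ B := hf _ (by nlinarith) (by linarith)
  have h4 : |f y0| ≤ B := hf _ hy0u (by nlinarith)
  have hB : (0 : ℤ) ≤ B := by positivity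
  have h5 : f (y0 + P) - f y0 = 0 := by
    by_contra hne
    rw [abs_le] at h3 h4
    rcases lt_or_gt_of_ne hne with h6 | h6
    · have : (2 * (B : ℤ) + 1) * (f (y0 + P) - f y0) ≤ (2 * (B : ℤ) + 1) * (-1) :=
        mul_le_mul_of_nonneg_left (by linarith) (by linarith)
      linarith
    · have : (2 * (B : ℤ) + 1) * 1 ≤ (2 * (B : ℤ) + 1) * (f (y0 + P) - f y0) :=
        mul_le_mul_of_nonneg_left (by linarith) (by linarith)
      linarith
  linarith

/-- Exact periodicity passes to multiples. -/
theorem per_mul (f : ℤ → ℤ) (u v : ℤ) (P m : ℕ)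
    (h : ∀ y, u ≤ y → y + P ≤ v → f (y + P) = f y) :
    ∀ y, u ≤ y → y + P * m ≤ v → f (y + P * m) = f y := by
  induction m with
  | zero => intro y _ _; simp
  | succ m ih =>
    intro y hy hyv
    push_cast at hyv ⊢
    have hP : (0 : ℤ) ≤ P := by positivity
    have hPm : (0 : ℤ) ≤ P * m := by positivity
    have h1 := ih y hy (by linarith)
    have h2 := h (y + P * m) (by linarith) (by linarith)
    have e : y + (P : ℤ) * (m + 1) = y + P * m + P := by ring
    rw [e, h2, h1]

/-- The third difference identity implies periodicity. -/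
theorem per_of_third (g : ℤ → ℤ) (u v : ℤ) (p q M : ℕ) (hp : 0 < p) (hpq : p < q)
    (hM : (q - p) * q * p ∣ M) (hM0 : 0 < M) (hg0 : ∀ y, 0 ≤ g y) (hg1 : ∀ y, g y ≤ 1)
    (h3 : ∀ z, u ≤ z → z + 2 * q ≤ v →
      g (z + 2 * q) - g (z + 2 * q - p) + g (z + q - p) - g (z + q + p) + g (z + p) - g z = 0)
    (hlen : u + 5 * M ≤ v) :
    ∀ y, u ≤ y → y + M ≤ v → g (y + M) = g y := by
  obtain ⟨r, rfl⟩ : ∃ r, q = p + r := ⟨q - p, by omega⟩
  have hr : 0 < r := by omega
  have e0 : p + r - p = r := by omega
  rw [e0] at hM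
  obtain ⟨m, rfl⟩ := hM
  have hm : 0 < m := Nat.pos_of_mul_pos_left hM0 |> fun h => by
    rcases Nat.eq_zero_or_pos m with h | h
    · subst h; simp at hM0
    · exact h
  have hP : r * (p + r) * p ≤ r * (p + r) * p * m := Nat.le_mul_of_pos_right _ hm
  have hPz : ((r : ℤ) * (p + r)) * p ≤ ((r * (p + r) * p * m : ℕ) : ℤ) := by exact_mod_cast hP
  have hp1 : (1 : ℤ) ≤ p := by exact_mod_cast hp
  have hr1 : (1 : ℤ) ≤ r := by exact_mod_cast hr
  have hPz2 : (r : ℤ) * (p + r) ≤ ((r : ℤ) * (p + r)) * p :=
    le_mul_of_one_le_right (by positivity) hp1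
  have hPz3 : (p : ℤ) ≤ ((r : ℤ) * (p + r)) * p := by
    have : (1 : ℤ) ≤ (r : ℤ) * (p + r) := by nlinarith
    calc (p : ℤ) = 1 * p := (one_mul _).symm
      _ ≤ ((r : ℤ) * (p + r)) * p := mul_le_mul_of_nonneg_right this (by linarith)
  -- first step: the `p`-difference is `r * q`-periodic on `[u, v - p]`
  have s1 := per_of_diff (fun y => g (y + p) - g y) u (v - p) r (p + r) 1 hr (by omega)
    (by
      intro y _ _
      have := hg0 y; have := hg1 y; have := hg0 (y + p); have := hg1 (y + p)
      rw [abs_le]; push_cast; constructor <;> linarith)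
    (by
      intro y hy hyv
      push_cast at hyv ⊢
      have := h3 y hy (by push_cast; linarith)
      push_cast at this
      have e1 : y + r + (p + r) + p = y + 2 * (p + r) := by ring
      have e2 : y + r + (p + r) = y + 2 * (p + r) - p := by ring
      have e3 : y + r + p = y + (p + r) := by ring
      have e4 : y + (r : ℤ) = y + (p + r) - p := by ring
      rw [e1, e2, e3, e4]
      linarith)
    (by push_cast; linarith)
  -- second step
  have s2 := per_of_diff g u v (r * (p + r)) p 1 (by positivity) hp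
    (by
      intro y _ _
      have := hg0 y; have := hg1 y
      rw [abs_le]; push_cast; constructor <;> linarith)
    (by
      intro y hy hyv
      push_cast at hyv ⊢
      have := s1 y hy (by push_cast; linarith)
      push_cast at this
      linarith)
    (by push_cast; linarith)
  have s3 := per_mul g u v (r * (p + r) * p) m (by
    intro y hy hyv
    have := s2 y hy (by push_cast at hyv ⊢; linarith)
    push_cast at this ⊢
    exact this)
  intro y hy hyv
  have := s3 y hy (by push_cast at hyv ⊢; linarith)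
  push_cast at this ⊢
  exact this

/-- Few breaks from local periodicity. -/
theorem breaks_le (g : ℤ → ℤ) (u v : ℤ) (M : ℕ) (Bad : Finset ℤ)
    (h : ∀ s, u ≤ s → s + 5 * M ≤ v → (∀ β ∈ Bad, ¬ (s ≤ β ∧ β ≤ s + 5 * M)) →
      ∀ y, s ≤ y → y + M ≤ s + 5 * M → g (y + M) = g y) :
    ((Icc u (v - M)).filter fun y => g (y + M) ≠ g y).card ≤ (10 * M + 1) * Bad.card + 5 * M := by
  by_cases hlen : u + 5 * M ≤ v
  · have hsub : ((Icc u (v - M)).filter fun y => g (y + M) ≠ g y) ⊆
        Bad.biUnion fun β => Icc (β - 5 * M) (β + 5 * M) := by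
      intro y hy
      rw [mem_filter, mem_Icc] at hy
      obtain ⟨⟨h1, h2⟩, h3⟩ := hy
      rw [mem_biUnion]
      by_contra hcon
      push Not at hcon
      apply h3
      refine h (min y (v - 5 * M)) (by omega) (by omega) ?_ y (by omega) (by omega)
      intro β hβ hβ2
      have := hcon β hβ
      rw [mem_Icc] at this
      omega
    refine (card_le_card hsub).trans ?_
    refine card_biUnion_le.trans ?_
    have : ∀ β ∈ Bad, (Icc (β - 5 * (M : ℤ)) (β + 5 * M)).card ≤ 10 * M + 1 := by
      intro β _
      rw [Int.card_Icc]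
      omega
    calc ∑ β ∈ Bad, (Icc (β - 5 * (M : ℤ)) (β + 5 * M)).card ≤ ∑ _β ∈ Bad, (10 * M + 1) :=
          sum_le_sum this
      _ = (10 * M + 1) * Bad.card := by rw [sum_const, smul_eq_mul, mul_comm]
      _ ≤ _ := Nat.le_add_right _ _
  · refine (card_le_card (filter_subset _ _)).trans ?_
    rw [Int.card_Icc]
    have : (v - M + 1 - u).toNat ≤ 5 * M := by omega
    exact this.trans (Nat.le_add_left _ _)

/-- The breaks of `T` on `[u, v]` with respect to translation by `M`. -/
noncomputable def brk (T : Finset ℤ) (M : ℕ) (u v : ℤ) : Finset ℤ :=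
  (Icc u (v - M)).filter fun y => ind T (y + M) ≠ ind T y

theorem mem_brk {T : Finset ℤ} {M : ℕ} {u v y : ℤ} : y ∈ brk T M u v ↔
    (u ≤ y ∧ y ≤ v - M) ∧ ind T (y + M) ≠ ind T y := by
  unfold brk; rw [mem_filter, mem_Icc]

/-- Shifted breaks. -/
theorem brk_shift (T : Finset ℤ) (M : ℕ) (u v t : ℤ) (K : ℕ)
    (h : ((Icc u (v - M)).filter fun y => ind T (y + M + t) ≠ ind T (y + t)).card ≤ K) :
    (brk T M (u + t) (v + t)).card ≤ K := by
  refine le_trans ?_ h
  refine card_le_card_of_injOn (fun y => y - t) ?_ ?_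
  · intro y hy
    rw [mem_coe, mem_brk] at hy
    rw [mem_coe, mem_filter, mem_Icc]
    dsimp only
    refine ⟨⟨by omega, by omega⟩, ?_⟩
    have e1 : y - t + M + t = y + M := by ring
    have e2 : y - t + t = y := by ring
    rw [e1, e2]; exact hy.2
  · intro y _ z _ hyz
    simpa using hyz

/-- Reflected breaks. -/
theorem brk_nneg (T : Finset ℤ) (M : ℕ) (u v : ℤ) :
    (brk (nneg T) M (-v) (-u)).card = (brk T M u v).card := by
  refine card_bij (fun y _ => -y - M) ?_ ?_ ?_
  · intro y hy
    rw [mem_brk, ind_nneg, ind_nneg] at hy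
    rw [mem_brk]
    refine ⟨⟨by omega, by omega⟩, ?_⟩
    have e1 : -y - M + M = -y := by ring
    have e2 : -y - (M : ℤ) = -(y + M) := by ring
    rw [e1, e2]
    exact hy.2.symm
  · intro y _ z _ hyz
    simpa using hyz
  · intro y hy
    rw [mem_brk] at hy
    refine ⟨-y - M, ?_, by ring⟩
    rw [mem_brk, ind_nneg, ind_nneg]
    refine ⟨⟨by omega, by omega⟩, ?_⟩
    have e1 : -(-y - (M : ℤ) + M) = y := by ring
    have e2 : -(-y - (M : ℤ)) = y + M := by ring
    rw [e1, e2]
    exact hy.2.symm

/-- Exactness on three columns gives periodicity with few breaks. -/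
theorem three_exact {Y D S : Finset ℤ} {x c d : ℤ} {p q M E : ℕ} (hp : 0 < p) (hpq : p < q)
    (hM : (q - p) * q * p ∣ M) (hM0 : 0 < M)
    (h1 : (err Y D S x c d).card ≤ E) (h2 : (err Y D S (x + p) c d).card ≤ E)
    (h3 : (err Y D S (x + q) c d).card ≤ E) :
    (brk Y M c d).card ≤ (10 * M + 1) * (3 * E) + 5 * M ∧
    (brk D M (c - x) (d - x)).card ≤ (10 * M + 1) * (3 * E) + 5 * M ∧
    (brk S M (c + x) (d + x)).card ≤ (10 * M + 1) * (3 * E) + 5 * M := by
  set Bad := err Y D S x c d ∪ err Y D S (x + p) c d ∪ err Y D S (x + q) c d with hBad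
  have hBc : Bad.card ≤ 3 * E := by
    refine (card_union_le _ _).trans ?_
    have := card_union_le (err Y D S x c d) (err Y D S (x + p) c d)
    omega
  have hK : (10 * M + 1) * Bad.card + 5 * M ≤ (10 * M + 1) * (3 * E) + 5 * M := by
    have := Nat.mul_le_mul_left (10 * M + 1) hBc
    omega
  -- the exactness relations off `Bad`
  have rel : ∀ y, c ≤ y → y ≤ d → y ∉ Bad →
      ind Y y = ind D (y - x) + ind S (y + x) ∧
      ind Y y = ind D (y - x - p) + ind S (y + x + p) ∧
      ind Y y = ind D (y - x - q) + ind S (y + x + q) := by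
    intro y hc hd hy
    rw [hBad, mem_union, mem_union, mem_err, mem_err, mem_err] at hy
    push Not at hy
    obtain ⟨⟨r1, r2⟩, r3⟩ := hy
    refine ⟨r1 ⟨hc, hd⟩, ?_, ?_⟩
    · rw [r2 ⟨hc, hd⟩]; congr 2 <;> ring
    · rw [r3 ⟨hc, hd⟩]; congr 2 <;> ring
  have hpq' : (p : ℤ) < q := by exact_mod_cast hpq
  have hp' : (0 : ℤ) < p := by exact_mod_cast hp
  have key : ∀ s, c ≤ s → s + 5 * M ≤ d → (∀ β ∈ Bad, ¬ (s ≤ β ∧ β ≤ s + 5 * M)) →
      (∀ y, s ≤ y → y + M ≤ s + 5 * M → ind D (y + M - x) = ind D (y - x)) ∧
      (∀ y, s ≤ y → y + M ≤ s + 5 * M → ind S (y + M + x) = ind S (y + x)) := by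
    intro s hs hsd hbad
    have rel' : ∀ y, s ≤ y → y ≤ s + 5 * M →
        ind Y y = ind D (y - x) + ind S (y + x) ∧
        ind Y y = ind D (y - x - p) + ind S (y + x + p) ∧
        ind Y y = ind D (y - x - q) + ind S (y + x + q) := by
      intro y hy1 hy2
      exact rel y (by omega) (by omega) fun hy => hbad y hy ⟨hy1, hy2⟩
    constructor
    · have := per_of_third (fun y => ind D (y - x)) s (s + 5 * M) p q M hp hpq hM hM0
        (fun y => ind_nonneg _ _) (fun y => ind_le_one _ _) (by
          intro z hz1 hz2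
          obtain ⟨a1, a2, a3⟩ := rel' (z + q) (by omega) (by omega)
          obtain ⟨b1, b2, b3⟩ := rel' (z + 2 * q) (by omega) (by omega)
          obtain ⟨d1, d2, d3⟩ := rel' (z + q + p) (by omega) (by omega)
          have e1 : z + 2 * q - x - q = z + q - x := by ring
          have e2 : z + q - x - q = z - x := by ring
          have e3 : z + q + p - x - q = z + p - x := by ring
          have e4 : z + q + p - x - p = z + q - x := by ring
          have e5 : z + q - x - p = z + q - p - x := by ring
          have e6 : z + 2 * q - x - p = z + 2 * q - p - x := by ring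
          have e7 : z + q + p + x + p = z + q + x + p + p := by ring
          have e8 : z + q + x + q = z + 2 * q + x := by ring
          have e9 : z + q + p + x = z + q + x + p := by ring
          have e10 : z + q + p + x + q = z + 2 * q + x + p := by ring
          rw [e2] at a3
          rw [e5] at a2
          rw [e8] at a3
          rw [e6] at b2
          rw [e3, e10] at d3
          rw [e9] at d1
          linarith) (le_refl _)
      exact this
    · have := per_of_third (fun y => ind S (y + x)) s (s + 5 * M) p q M hp hpq hM hM0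
        (fun y => ind_nonneg _ _) (fun y => ind_le_one _ _) (by
          intro z hz1 hz2
          obtain ⟨a1, a2, a3⟩ := rel' (z + q) (by omega) (by omega)
          obtain ⟨b1, b2, b3⟩ := rel' z (by omega) (by omega)
          obtain ⟨d1, d2, d3⟩ := rel' (z + q - p) (by omega) (by omega)
          have e1 : z + q + x + q = z + 2 * q + x := by ring
          have e2 : z + q + x + p = z + q + p + x := by ring
          have e3 : z + q - p + x + q = z + 2 * q - p + x := by ring
          have e4 : z + x + p = z + p + x := by ring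
          have e5 : z + q - x - q = z - x := by ring
          have e6 : z + q - p - x - q = z - x - p := by ring
          have e7 : z + q - p - x = z + q - x - p := by ring
          rw [e1, e5] at a3
          rw [e2] at a2
          rw [e3, e6] at d3
          rw [e4] at b2
          rw [e7] at d1
          linarith) (le_refl _)
      exact this
  refine ⟨?_, ?_, ?_⟩
  · refine (breaks_le (fun y => ind Y y) c d M Bad ?_).trans hK
    intro s hs hsd hbad y hy hyM
    obtain ⟨k1, k2⟩ := key s hs hsd hbad
    have r1 := (rel y (by omega) (by omega) fun hh => hbad y hh ⟨by omega, by omega⟩).1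
    have r2 := (rel (y + M) (by omega) (by omega) fun hh => hbad _ hh ⟨by omega, by omega⟩).1
    rw [r1, r2, k1 y hy hyM, k2 y hy hyM]
  · have := brk_shift D M c d (-x) _ ((breaks_le (fun y => ind D (y - x)) c d M Bad
      fun s hs hsd hbad y hy hyM => (key s hs hsd hbad).1 y hy hyM).trans hK)
    exact this
  · have := brk_shift S M c d x _ ((breaks_le (fun y => ind S (y + x)) c d M Bad
      fun s hs hsd hbad y hy hyM => (key s hs hsd hbad).2 y hy hyM).trans hK)
    exact this

end Pool.Agent.Queens
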