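import Pool.Agent.Queens.Per
import Pool.Agent.Queens.Ends

set_option autoImplicit false

/-!
In a cover system of bounded slack all four sets have boundedly many runs modulo an absolute
constant.
-/

namespace Pool.Agent.Queens

open Finset

/-- At most `C` runs modulo `M`. -/
def Runs (T : Finset ℤ) (M C : ℕ) : Prop :=
  (T.filter fun z : ℤ => z + M ∉ T).card ≤ C ∧ (T.filter fun z : ℤ => z - M ∉ T).card ≤ C

theorem Runs.mono {T : Finset ℤ} {M C C' : ℕ} (h : Runs T M C) (hC : C ≤ C') : Runs T M C' :=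
  ⟨h.1.trans hC, h.2.trans hC⟩

theorem Runs.nneg {T : Finset ℤ} {M C : ℕ} (h : Runs (nneg T) M C) : Runs T M C := by
  constructor
  · refine le_trans ?_ h.2
    refine card_le_card_of_injOn (fun y => -y) ?_ (fun y _ z _ hyz => by simpa using hyz)
    intro y hy
    rw [mem_coe, mem_filter] at hy
    rw [mem_coe, mem_filter, mem_nneg, mem_nneg, neg_neg]
    refine ⟨hy.1, ?_⟩
    have e : -(-y - (M : ℤ)) = y + M := by ring
    rw [e]; exact hy.2
  · refine le_trans ?_ h.1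
    refine card_le_card_of_injOn (fun y => -y) ?_ (fun y _ z _ hyz => by simpa using hyz)
    intro y hy
    rw [mem_coe, mem_filter] at hy
    rw [mem_coe, mem_filter, mem_nneg, mem_nneg, neg_neg]
    refine ⟨hy.1, ?_⟩
    have e : -(-y + (M : ℤ)) = y - M := by ring
    rw [e]; exact hy.2

theorem runs_of_two {T : Finset ℤ} {M K K' : ℕ} {u1 v1 u2 v2 : ℤ}
    (hout : (T.filter fun z => ¬ (u1 ≤ z ∧ z ≤ v1) ∧ ¬ (u2 ≤ z ∧ z ≤ v2)).card ≤ K')
    (h1 : (brk T M u1 v1).card ≤ K) (h2 : (brk T M u2 v2).card ≤ K) :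
    Runs T M (K' + 2 * K + 2 * M) := by
  have hM : ∀ w : ℤ, (Ioc (w - M) w).card = M := by
    intro w; rw [Int.card_Ioc]; omega
  have hM' : ∀ w : ℤ, (Ico w (w + M)).card = M := by
    intro w; rw [Int.card_Ico]; omega
  constructor
  · have hsub : (T.filter fun z : ℤ => z + M ∉ T) ⊆
        ((((T.filter fun z => ¬ (u1 ≤ z ∧ z ≤ v1) ∧ ¬ (u2 ≤ z ∧ z ≤ v2)) ∪ brk T M u1 v1) ∪
          brk T M u2 v2) ∪ Ioc (v1 - M) v1) ∪ Ioc (v2 - M) v2 := by
      intro z hz
      rw [mem_filter] at hz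
      simp only [mem_union, mem_filter, mem_brk, mem_Ioc]
      have hne : ind T (z + M) ≠ ind T z := by
        rw [ind_of_mem hz.1, ind_of_notMem hz.2]; norm_num
      by_cases a1 : u1 ≤ z ∧ z ≤ v1
      · by_cases a2 : z ≤ v1 - M
        · exact Or.inl (Or.inl (Or.inl (Or.inr ⟨⟨a1.1, a2⟩, hne⟩)))
        · exact Or.inl (Or.inr ⟨by omega, a1.2⟩)
      · by_cases b1 : u2 ≤ z ∧ z ≤ v2
        · by_cases b2 : z ≤ v2 - M
          · exact Or.inl (Or.inl (Or.inr ⟨⟨b1.1, b2⟩, hne⟩))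
          · exact Or.inr ⟨by omega, b1.2⟩
        · exact Or.inl (Or.inl (Or.inl (Or.inl ⟨hz.1, a1, b1⟩)))
    refine (card_le_card hsub).trans ?_
    have w1 := card_union_le ((((T.filter fun z => ¬ (u1 ≤ z ∧ z ≤ v1) ∧ ¬ (u2 ≤ z ∧ z ≤ v2)) ∪
      brk T M u1 v1) ∪ brk T M u2 v2) ∪ Ioc (v1 - M) v1) (Ioc (v2 - M) v2)
    have w2 := card_union_le (((T.filter fun z => ¬ (u1 ≤ z ∧ z ≤ v1) ∧ ¬ (u2 ≤ z ∧ z ≤ v2)) ∪
      brk T M u1 v1) ∪ brk T M u2 v2) (Ioc (v1 - M) v1)
    have w3 := card_union_le ((T.filter fun z => ¬ (u1 ≤ z ∧ z ≤ v1) ∧ ¬ (u2 ≤ z ∧ z ≤ v2)) ∪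
      brk T M u1 v1) (brk T M u2 v2)
    have w4 := card_union_le (T.filter fun z => ¬ (u1 ≤ z ∧ z ≤ v1) ∧ ¬ (u2 ≤ z ∧ z ≤ v2))
      (brk T M u1 v1)
    rw [hM] at w1 w2
    omega
  · have hsub : (T.filter fun z : ℤ => z - M ∉ T) ⊆
        ((((T.filter fun z => ¬ (u1 ≤ z ∧ z ≤ v1) ∧ ¬ (u2 ≤ z ∧ z ≤ v2)) ∪
          (brk T M u1 v1).image (· + (M : ℤ))) ∪
          (brk T M u2 v2).image (· + (M : ℤ))) ∪ Ico u1 (u1 + M)) ∪ Ico u2 (u2 + M) := by
      intro z hz
      rw [mem_filter] at hz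
      simp only [mem_union, mem_filter, mem_image, mem_brk, mem_Ico]
      have hne : ind T (z - M + M) ≠ ind T (z - M) := by
        have e : z - M + (M : ℤ) = z := by ring
        rw [e, ind_of_mem hz.1, ind_of_notMem hz.2]; norm_num
      by_cases a1 : u1 ≤ z ∧ z ≤ v1
      · by_cases a2 : u1 ≤ z - M
        · exact Or.inl (Or.inl (Or.inl (Or.inr ⟨z - M, ⟨⟨a2, by omega⟩, hne⟩, by ring⟩)))
        · exact Or.inl (Or.inr ⟨a1.1, by omega⟩)
      · by_cases b1 : u2 ≤ z ∧ z ≤ v2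
        · by_cases b2 : u2 ≤ z - M
          · exact Or.inl (Or.inl (Or.inr ⟨z - M, ⟨⟨b2, by omega⟩, hne⟩, by ring⟩))
          · exact Or.inr ⟨b1.1, by omega⟩
        · exact Or.inl (Or.inl (Or.inl (Or.inl ⟨hz.1, a1, b1⟩)))
    refine (card_le_card hsub).trans ?_
    have w1 := card_union_le ((((T.filter fun z => ¬ (u1 ≤ z ∧ z ≤ v1) ∧ ¬ (u2 ≤ z ∧ z ≤ v2)) ∪
      (brk T M u1 v1).image (· + (M : ℤ))) ∪ (brk T M u2 v2).image (· + (M : ℤ))) ∪
      Ico u1 (u1 + M)) (Ico u2 (u2 + M))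
    have w2 := card_union_le (((T.filter fun z => ¬ (u1 ≤ z ∧ z ≤ v1) ∧ ¬ (u2 ≤ z ∧ z ≤ v2)) ∪
      (brk T M u1 v1).image (· + (M : ℤ))) ∪ (brk T M u2 v2).image (· + (M : ℤ))) (Ico u1 (u1 + M))
    have w3 := card_union_le ((T.filter fun z => ¬ (u1 ≤ z ∧ z ≤ v1) ∧ ¬ (u2 ≤ z ∧ z ≤ v2)) ∪
      (brk T M u1 v1).image (· + (M : ℤ))) ((brk T M u2 v2).image (· + (M : ℤ)))
    have w4 := card_union_le (T.filter fun z => ¬ (u1 ≤ z ∧ z ≤ v1) ∧ ¬ (u2 ≤ z ∧ z ≤ v2))
      ((brk T M u1 v1).image (· + (M : ℤ)))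
    have w5 : ((brk T M u1 v1).image (· + (M : ℤ))).card ≤ _ := card_image_le
    have w6 : ((brk T M u2 v2).image (· + (M : ℤ))).card ≤ _ := card_image_le
    rw [hM'] at w1 w2
    omega

theorem enum_filter (T : Finset ℤ) (i : Fin T.card) :
    (T.filter (· < T.orderEmbOfFin rfl i)).card ≤ i := by
  set f := T.orderEmbOfFin rfl with hf
  have hsub : T.filter (· < f i) ⊆
      (univ.filter fun j : Fin T.card => (j : ℕ) < i).image f := by
    intro t ht
    rw [mem_filter] at ht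
    have : t ∈ Set.range f := by rw [hf, Finset.range_orderEmbOfFin]; exact ht.1
    obtain ⟨j, rfl⟩ := this
    rw [mem_image]
    refine ⟨j, ?_, rfl⟩
    rw [mem_filter]
    refine ⟨mem_univ _, ?_⟩
    have := f.lt_iff_lt.1 ht.2
    rw [Fin.lt_def] at this
    exact this
  refine (card_le_card hsub).trans (card_image_le.trans ?_)
  have : ((univ.filter fun j : Fin T.card => (j : ℕ) < i).image Fin.val).card =
      (univ.filter fun j : Fin T.card => (j : ℕ) < i).card :=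
    card_image_of_injective _ Fin.val_injective
  rw [← this]
  have hs : ((univ.filter fun j : Fin T.card => (j : ℕ) < i).image Fin.val) ⊆
      range i := by
    intro a ha
    rw [mem_image] at ha
    obtain ⟨j, hj, rfl⟩ := ha
    rw [mem_filter] at hj
    rw [mem_range]
    exact hj.2
  exact (card_le_card hs).trans (by simp)

/-- A progression of length three with few elements below it. -/
theorem exists_ap {T : Finset ℤ} {M K : ℕ} {c d : ℤ} (hT : ∀ t ∈ T, c ≤ t ∧ t ≤ d)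
    (hb : (brk T M c d).card ≤ K) (hcard : 2 * K + 2 * M + 1 ≤ T.card) :
    ∃ t ∈ T, t + M ∈ T ∧ t + 2 * M ∈ T ∧ (T.filter (· < t)).card ≤ 2 * K := by
  by_contra hcon
  push Not at hcon
  set f := T.orderEmbOfFin rfl with hf
  have hfm : ∀ i, f i ∈ T := fun i => T.orderEmbOfFin_mem rfl i
  have hlow : ∀ i : Fin T.card, (i : ℕ) ≤ 2 * K → f i + 2 * M ≤ d := by
    intro i hi
    by_contra hd
    have h1 : T ⊆ T.filter (· < f i) ∪ Ioc (d - 2 * M) d := by
      intro t ht
      rw [mem_union, mem_filter, mem_Ioc]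
      by_cases h2 : t < f i
      · exact Or.inl ⟨ht, h2⟩
      · exact Or.inr ⟨by linarith [not_le.1 hd, not_lt.1 h2], (hT t ht).2⟩
    have h2 := (card_le_card h1).trans (card_union_le _ _)
    have h3 := enum_filter T i
    rw [Int.card_Ioc] at h2
    rw [← hf] at h3
    omega
  have hmap : ∀ i : Fin T.card, (i : ℕ) ≤ 2 * K →
      f i ∈ brk T M c d ∪ (brk T M c d).image (· - (M : ℤ)) := by
    intro i hi
    have h1 := hlow i hi
    have h2 := hcon (f i) (hfm i)
    have h3 : (T.filter (· < f i)).card ≤ 2 * K := (enum_filter T i).trans hi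
    rw [mem_union, mem_image]
    by_cases h4 : f i + M ∈ T
    · by_cases h5 : f i + 2 * M ∈ T
      · exact absurd h3 (not_le.2 (h2 h4 h5))
      · refine Or.inr ⟨f i + M, ?_, by ring⟩
        rw [mem_brk]
        refine ⟨⟨by linarith [(hT _ h4).1], by linarith⟩, ?_⟩
        have e : f i + M + (M : ℤ) = f i + 2 * M := by ring
        rw [e, ind_of_mem h4, ind_of_notMem h5]; norm_num
    · refine Or.inl ?_
      rw [mem_brk]
      refine ⟨⟨(hT _ (hfm i)).1, by
        have : (0 : ℤ) ≤ M := Int.natCast_nonneg _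
        linarith⟩, ?_⟩
      rw [ind_of_mem (hfm i), ind_of_notMem h4]; norm_num
  have h1 : ((univ : Finset (Fin (2 * K + 1))).image
      (fun i : Fin (2 * K + 1) => f ⟨(i : ℕ), by have := i.2; omega⟩)).card = 2 * K + 1 := by
    rw [card_image_of_injective, card_univ, Fintype.card_fin]
    intro i j hij
    have := f.injective hij
    rw [Fin.mk.injEq] at this
    exact Fin.ext this
  have h2 : ((univ : Finset (Fin (2 * K + 1))).image
      (fun i : Fin (2 * K + 1) => f ⟨(i : ℕ), by have := i.2; omega⟩)) ⊆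
      brk T M c d ∪ (brk T M c d).image (· - (M : ℤ)) := by
    intro z hz
    rw [mem_image] at hz
    obtain ⟨i, _, rfl⟩ := hz
    exact hmap _ (by have := i.2; simp only; omega)
  have h3 := (card_le_card h2).trans (card_union_le _ _)
  have h4 : ((brk T M c d).image (· - (M : ℤ))).card ≤ _ := card_image_le
  omega

theorem filter_lt_add {T : Finset ℤ} {t : ℤ} {K m : ℕ} (h : (T.filter (· < t)).card ≤ K) :
    (T.filter (· < t + m)).card ≤ K + m := by
  have h1 : T.filter (· < t + m) ⊆ T.filter (· < t) ∪ Ico t (t + m) := by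
    intro z hz
    rw [mem_filter] at hz
    rw [mem_union, mem_filter, mem_Ico]
    by_cases h2 : z < t
    · exact Or.inl ⟨hz.1, h2⟩
    · exact Or.inr ⟨not_lt.1 h2, hz.2⟩
  have h2 := (card_le_card h1).trans (card_union_le _ _)
  rw [Int.card_Ico] at h2
  omega

theorem exists_gt {T : Finset ℤ} {t : ℤ} {K : ℕ} (h : (T.filter (· < t)).card ≤ K)
    (hc : K + 2 ≤ T.card) : ∃ z ∈ T, t < z := by
  by_contra hcon
  push Not at hcon
  have hXs : T ⊆ insert t (T.filter (· < t)) := by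
    intro x hx
    rw [mem_insert, mem_filter]
    rcases (hcon x hx).lt_or_eq with h5 | h5
    · exact Or.inr ⟨hx, h5⟩
    · exact Or.inl h5
  have := card_le_card hXs
  have := card_insert_le t (T.filter (· < t))
  omega

/-- Three columns at bounded distance near the left end give the run structure. -/
theorem per_core (k t C : ℕ) : ∃ M CC N0 : ℕ, 0 < M ∧ ∀ X Y D S : Finset ℤ, Cov X Y D S →
    Slack X Y D S k → N0 ≤ X.card → N0 ≤ Y.card → Good3 X t C →
    Runs X M CC ∧ Runs Y M CC ∧ Runs D M CC ∧ Runs S M CC := by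
  obtain ⟨M1, hM1⟩ : ∃ m : ℕ, m = C.factorial ^ 3 := ⟨_, rfl⟩
  obtain ⟨E1, hE1⟩ : ∃ m : ℕ, m = 2 * (k + t) := ⟨_, rfl⟩
  obtain ⟨K1, hK1⟩ : ∃ m : ℕ, m = (10 * M1 + 1) * (3 * E1) + 5 * M1 := ⟨_, rfl⟩
  obtain ⟨t2, ht2⟩ : ∃ m : ℕ, m = 2 * K1 + 2 * M1 := ⟨_, rfl⟩
  obtain ⟨E2, hE2⟩ : ∃ m : ℕ, m = 2 * (k + t2) := ⟨_, rfl⟩
  obtain ⟨M2, hM2⟩ : ∃ m : ℕ, m = (2 * M1 - M1) * (2 * M1) * M1 := ⟨_, rfl⟩
  obtain ⟨K2, hK2⟩ : ∃ m : ℕ, m = (10 * M2 + 1) * (3 * E2) + 5 * M2 := ⟨_, rfl⟩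
  have hM1pos : 0 < M1 := by rw [hM1]; positivity
  have hM2' : M2 = M1 * (2 * M1) * M1 := by
    rw [hM2]; congr 2; omega
  have hM2pos : 0 < M2 := by rw [hM2']; positivity
  have hdvd : M1 ∣ M2 := by rw [hM2']; exact Dvd.intro_left _ rfl
  have htle : t ≤ t2 := by
    rw [ht2, hK1, hE1]
    have : (10 * M1 + 1) * (3 * (2 * (k + t))) ≥ 1 * (3 * (2 * (k + t))) :=
      Nat.mul_le_mul_right _ (by omega)
    omega
  have hE12 : E1 ≤ E2 := by rw [hE1, hE2]; omega
  have hK12 : (10 * M2 + 1) * (3 * E1) + 5 * M2 ≤ K2 := by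
    rw [hK2]
    have := Nat.mul_le_mul_left (10 * M2 + 1) (Nat.mul_le_mul_left 3 hE12)
    omega
  refine ⟨M2, (k + t + 2 * K1) + 2 * K2 + 2 * M2, t2 + t + 10, hM2pos, ?_⟩
  intro X Y D S h hs hXc hYc hG
  obtain ⟨x1, hx1, x2, hx2, x3, hx3, h12, h23, h13, hfew⟩ := hG
  have hXne : X.Nonempty := card_pos.1 (by omega)
  have hYne : Y.Nonempty := card_pos.1 (by omega)
  set a := X.min' hXne with ha
  set b := X.max' hXne with hb
  set c := Y.min' hYne with hc
  set d := Y.max' hYne with hd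
  have haX : a ∈ X := min'_mem _ _
  have hbX : b ∈ X := max'_mem _ _
  have hcY : c ∈ Y := min'_mem _ _
  have hdY : d ∈ Y := max'_mem _ _
  have hX : ∀ y ∈ X, a ≤ y ∧ y ≤ b := fun y hy => ⟨min'_le _ _ hy, le_max' _ _ hy⟩
  have hY : ∀ y ∈ Y, c ≤ y ∧ y ≤ d := fun y hy => ⟨min'_le _ _ hy, le_max' _ _ hy⟩
  have hab : a < b := by
    by_contra hcon
    have : X.card ≤ 1 := by
      rw [card_le_one]
      intro y hy y' hy'
      have := hX y hy; have := hX y' hy'; linarith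
    omega
  have hcd : c < d := by
    by_contra hcon
    have : Y.card ≤ 1 := by
      rw [card_le_one]
      intro y hy y' hy'
      have := hY y hy; have := hY y' hy'; linarith
    omega
  -- columns
  obtain ⟨x', hx', hx'3⟩ := exists_gt hfew (by omega)
  have hfew' : ∀ x, x ≤ x3 → (X.filter (· < x)).card ≤ t := by
    intro x hx
    refine (card_le_card ?_).trans hfew
    intro z hz
    rw [mem_filter] at hz ⊢
    exact ⟨hz.1, by linarith [hz.2]⟩
  have hex : ∀ x ∈ X, x ≤ x3 → (err Y D S x c d).card ≤ E1 := fun x hx hx3 => by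
    rw [hE1]
    exact col_exact h hs hx (hfew' x hx3) ⟨x', hx', by linarith⟩ hcY hdY hcd hY
  obtain ⟨p, hp⟩ : ∃ p : ℕ, (p : ℤ) = x2 - x1 := ⟨(x2 - x1).toNat, by omega⟩
  obtain ⟨q, hq⟩ : ∃ q : ℕ, (q : ℤ) = x3 - x1 := ⟨(x3 - x1).toNat, by omega⟩
  have hppos : 0 < p := by omega
  have hpq : p < q := by omega
  have hqC : q ≤ C := by omega
  have hdv : (q - p) * q * p ∣ M1 := by
    rw [hM1, pow_succ, pow_succ, pow_one]
    refine mul_dvd_mul (mul_dvd_mul ?_ ?_) ?_
    · exact Nat.dvd_factorial (by omega) (by omega)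
    · exact Nat.dvd_factorial (by omega) (by omega)
    · exact Nat.dvd_factorial (by omega) (by omega)
  have ep : x1 + p = x2 := by omega
  have eq : x1 + q = x3 := by omega
  have A1 := three_exact hppos hpq hdv hM1pos (hex x1 hx1 (by linarith))
    (by rw [ep]; exact hex x2 hx2 h23.le) (by rw [eq]; exact hex x3 hx3 le_rfl)
  rw [← hK1] at A1
  have A2 := three_exact hppos hpq (hdv.trans hdvd) hM2pos (hex x1 hx1 (by linarith))
    (by rw [ep]; exact hex x2 hx2 h23.le) (by rw [eq]; exact hex x3 hx3 le_rfl)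
  -- rows near the bottom
  obtain ⟨y1, hy1, hy1a, hy1b, hy1f⟩ := exists_ap (T := Y) (K := K1) (M := M1) hY A1.1 (by omega)
  have hrow : ∀ y ∈ Y, y ≤ y1 + 2 * M1 → (err X (nneg D) S y a b).card ≤ E2 := by
    intro y hy hyy
    have h1 := filter_lt_add (m := 2 * M1) hy1f
    rw [← ht2] at h1
    push_cast at h1
    have h2 : (Y.filter (· < y)).card ≤ t2 := by
      refine (card_le_card ?_).trans h1
      intro z hz
      rw [mem_filter] at hz ⊢
      exact ⟨hz.1, by linarith [hz.2]⟩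
    rw [hE2]
    exact col_exact h.swap hs.swap hy h2 (exists_gt h2 (by omega)) haX hbX hab hX
  have e2M : y1 + ((2 * M1 : ℕ) : ℤ) = y1 + 2 * M1 := by push_cast; ring
  have B1 := three_exact (Y := X) (D := nneg D) (S := S) (x := y1) (c := a) (d := b)
    (p := M1) (q := 2 * M1) (M := M2) (E := E2) hM1pos (by omega) (dvd_of_eq hM2.symm) hM2pos
    (hrow y1 hy1 (by positivity |> fun (_ : (0 : ℤ) ≤ 2 * M1) => by linarith))
    (hrow _ hy1a (by
      have : (0 : ℤ) ≤ M1 := Int.natCast_nonneg _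
      linarith))
    (by rw [e2M]; exact hrow _ hy1b le_rfl)
  -- rows near the top
  obtain ⟨w, hw, hwa, hwb, hwf⟩ := exists_ap (T := nneg Y) (K := K1) (M := M1) (c := -d) (d := -c)
    (by
      intro t ht
      rw [mem_nneg] at ht
      have := hY _ ht
      constructor <;> linarith)
    (by rw [brk_nneg]; exact A1.1) (by rw [card_nneg]; omega)
  have hrow' : ∀ y ∈ nneg Y, y ≤ w + 2 * M1 → (err X (nneg (nneg S)) (nneg D) y a b).card ≤ E2 := by
    intro y hy hyy
    have h1 := filter_lt_add (m := 2 * M1) hwf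
    rw [← ht2] at h1
    push_cast at h1
    have h2 : ((nneg Y).filter (· < y)).card ≤ t2 := by
      refine (card_le_card ?_).trans h1
      intro z hz
      rw [mem_filter] at hz ⊢
      exact ⟨hz.1, by linarith [hz.2]⟩
    rw [hE2]
    exact col_exact h.reflY.swap hs.reflY.swap hy h2 (exists_gt h2 (by rw [card_nneg]; omega))
      haX hbX hab hX
  have e2M' : w + ((2 * M1 : ℕ) : ℤ) = w + 2 * M1 := by push_cast; ring
  have B2 := three_exact (Y := X) (D := nneg (nneg S)) (S := nneg D) (x := w) (c := a) (d := b)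
    (p := M1) (q := 2 * M1) (M := M2) (E := E2) hM1pos (by omega) (dvd_of_eq hM2.symm) hM2pos
    (hrow' w hw (by
      have : (0 : ℤ) ≤ M1 := Int.natCast_nonneg _
      linarith))
    (hrow' _ hwa (by
      have : (0 : ℤ) ≤ M1 := Int.natCast_nonneg _
      linarith))
    (by rw [e2M']; exact hrow' _ hwb le_rfl)
  rw [← hK2] at B1 B2
  have hwY : -w ∈ Y := by rwa [mem_nneg] at hw
  have hM1z : (0 : ℤ) < M1 := by exact_mod_cast hM1pos
  -- breaks of D
  have D1 : (brk D M2 (y1 - b) (y1 - a)).card ≤ K2 := by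
    have := B1.2.1
    have e1 : a - y1 = -(y1 - a) := by ring
    have e2 : b - y1 = -(y1 - b) := by ring
    rw [e1, e2, brk_nneg] at this
    exact this
  have D2 : (brk D M2 (c - x1) (d - x1)).card ≤ K2 := A2.2.1.trans hK12
  have S1 : (brk S M2 (a - w) (b - w)).card ≤ K2 := by
    have := B2.2.1
    rw [nneg_nneg] at this
    exact this
  have S2 : (brk S M2 (c + x1) (d + x1)).card ≤ K2 := A2.2.2.trans hK12
  -- restricting the box
  have hX'c : (X.filter (· < x1)).card + (X.filter fun z => ¬ z < x1).card = X.card :=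
    card_filter_add_card_filter_not _
  have hY'c : (Y.filter (· < y1)).card + (Y.filter fun z => ¬ z < y1).card = Y.card :=
    card_filter_add_card_filter_not _
  have hY''c : (Y.filter (-w < ·)).card + (Y.filter fun z => ¬ -w < z).card = Y.card :=
    card_filter_add_card_filter_not _
  have hwf' : (Y.filter (-w < ·)).card ≤ 2 * K1 := by
    refine le_trans ?_ hwf
    refine card_le_card_of_injOn (fun y => -y) ?_ (fun y _ z _ hyz => by simpa using hyz)
    intro y hy
    rw [mem_coe, mem_filter] at hy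
    rw [mem_coe, mem_filter, mem_nneg, neg_neg]
    exact ⟨hy.1, by linarith [hy.2]⟩
  have hx1f := hfew' x1 (by linarith)
  have x1a := hX x1 hx1
  have hx1b : x1 < b := by linarith [(hX x3 hx3).2]
  have hy1d : y1 < d := by linarith [(hY _ hy1a).2]
  have hwc : c < -w := by
    rw [mem_nneg] at hwa
    linarith [(hY _ hwa).1]
  have missD : (D.filter fun e => e < y1 - b ∨ d - x1 < e).card ≤ k + t + 2 * K1 := by
    have := miss_le (X := X.filter fun z => ¬ z < x1) (Y := Y.filter fun z => ¬ z < y1)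
      (h.mono (filter_subset _ _) (filter_subset _ _)) (hs.drop (k' := k + t + 2 * K1) (by omega))
      (a := x1) (b := b) (c := y1) (d := d)
      (by rw [mem_filter]; exact ⟨hx1, lt_irrefl _⟩)
      (by rw [mem_filter]; exact ⟨hbX, not_lt.2 hx1b.le⟩) hx1b
      (by
        intro z hz
        rw [mem_filter] at hz
        exact ⟨not_lt.1 hz.2, (hX z hz.1).2⟩)
      (by rw [mem_filter]; exact ⟨hy1, lt_irrefl _⟩)
      (by rw [mem_filter]; exact ⟨hdY, not_lt.2 hy1d.le⟩) hy1d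
      (by
        intro z hz
        rw [mem_filter] at hz
        exact ⟨not_lt.1 hz.2, (hY z hz.1).2⟩)
    omega
  have missS : (S.filter fun e => e < x1 + c ∨ b + -w < e).card ≤ k + t + 2 * K1 := by
    have := miss_le (X := X.filter fun z => ¬ z < x1) (Y := Y.filter fun z => ¬ -w < z)
      (h.mono (filter_subset _ _) (filter_subset _ _)) (hs.drop (k' := k + t + 2 * K1) (by omega))
      (a := x1) (b := b) (c := c) (d := -w)
      (by rw [mem_filter]; exact ⟨hx1, lt_irrefl _⟩)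
      (by rw [mem_filter]; exact ⟨hbX, not_lt.2 hx1b.le⟩) hx1b
      (by
        intro z hz
        rw [mem_filter] at hz
        exact ⟨not_lt.1 hz.2, (hX z hz.1).2⟩)
      (by rw [mem_filter]; exact ⟨hcY, not_lt.2 hwc.le⟩)
      (by rw [mem_filter]; exact ⟨hwY, lt_irrefl _⟩) hwc
      (by
        intro z hz
        rw [mem_filter] at hz
        exact ⟨(hY z hz.1).1, not_lt.1 hz.2⟩)
    omega
  refine ⟨?_, ?_, ?_, ?_⟩
  · refine runs_of_two (u1 := a) (v1 := b) (u2 := a) (v2 := b) ?_ B1.1 B1.1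
    have : (X.filter fun z => ¬ (a ≤ z ∧ z ≤ b) ∧ ¬ (a ≤ z ∧ z ≤ b)) = ∅ := by
      rw [filter_eq_empty_iff]
      intro z hz hn
      exact hn.1 (hX z hz)
    rw [this, card_empty]
    exact Nat.zero_le _
  · refine runs_of_two (u1 := c) (v1 := d) (u2 := c) (v2 := d) ?_ (A2.1.trans hK12)
      (A2.1.trans hK12)
    have : (Y.filter fun z => ¬ (c ≤ z ∧ z ≤ d) ∧ ¬ (c ≤ z ∧ z ≤ d)) = ∅ := by
      rw [filter_eq_empty_iff]
      intro z hz hn
      exact hn.1 (hY z hz)
    rw [this, card_empty]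
    exact Nat.zero_le _
  · refine runs_of_two (u1 := y1 - b) (v1 := y1 - a) (u2 := c - x1) (v2 := d - x1) ?_ D1 D2
    refine (card_le_card ?_).trans missD
    intro z hz
    rw [mem_filter] at hz ⊢
    refine ⟨hz.1, ?_⟩
    have := (hY y1 hy1).1
    by_contra hn
    push Not at hn
    apply hz.2.1
    refine ⟨hn.1, ?_⟩
    by_contra h5
    exact hz.2.2 ⟨by linarith [x1a.1, not_le.1 h5], hn.2⟩
  · refine runs_of_two (u1 := a - w) (v1 := b - w) (u2 := c + x1) (v2 := d + x1) ?_ S1 S2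
    refine (card_le_card ?_).trans missS
    intro z hz
    rw [mem_filter] at hz ⊢
    refine ⟨hz.1, ?_⟩
    have := (hY (-w) hwY).2
    by_contra hn
    push Not at hn
    apply hz.2.2
    refine ⟨by linarith [hn.1], ?_⟩
    by_contra h5
    exact hz.2.1 ⟨by linarith [x1a.1, not_le.1 h5], by linarith [hn.2]⟩

/-- **Periodicity.**  In a cover system of slack at most `k` with large sets of columns and rows of
positive density in their hulls, all four sets have boundedly many runs modulo a constant. -/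
theorem periodic (k : ℕ) : ∃ M C N0 : ℕ, 0 < M ∧ ∀ X Y D S : Finset ℤ, Cov X Y D S →
    Slack X Y D S k → N0 ≤ X.card → N0 ≤ Y.card →
    (∀ y ∈ X, ∀ y' ∈ X, y' - y < 3 * X.card) → (∀ y ∈ Y, ∀ y' ∈ Y, y' - y < 3 * Y.card) →
    Runs X M C ∧ Runs Y M C ∧ Runs D M C ∧ Runs S M C := by
  obtain ⟨M, C, N0, hM, hmain⟩ := per_core k 4 (18 * (2 * (k + 4) + 8))
  refine ⟨M, C, N0 + (8 * (2 * (k + 4)) + 57), hM, ?_⟩
  intro X Y D S h hs hXc hYc hdX hdY
  have h4 := ends h hs (by omega) (by omega) hdX hdY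
  push_cast at h4 hmain
  rcases h4 with h4 | h4 | h4 | h4
  · exact hmain X Y D S h hs (by omega) (by omega) h4
  · obtain ⟨r1, r2, r3, r4⟩ := hmain (nneg X) Y S D h.reflX hs.reflX (by rw [card_nneg]; omega) (by omega) h4
    exact ⟨r1.nneg, r2, r4, r3⟩
  · obtain ⟨r1, r2, r3, r4⟩ := hmain Y X (nneg D) S h.swap hs.swap (by omega) (by omega) h4
    exact ⟨r2, r1, r3.nneg, r4⟩
  · obtain ⟨r1, r2, r3, r4⟩ := hmain (nneg Y) X (nneg (nneg S)) (nneg D) h.reflY.swap hs.reflY.swap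
      (by rw [card_nneg]; omega) (by omega) h4
    exact ⟨r2, r1.nneg, r4.nneg, r3.nneg.nneg⟩

end Pool.Agent.Queens
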